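import Pool.Agent.H.MP_921603_an.Ineq

set_option autoImplicit false

namespace Pool.Agent.H.MP_921603_an

open Real

lemma abs_sin_nat_mul_le (n : ℕ) (x : ℝ) : |sin (n * x)| ≤ n * |sin x| := by
  induction n with
  | zero => simp
  | succ n ih =>
    have e : ((n + 1 : ℕ) : ℝ) * x = n * x + x := by push_cast; ring
    rw [e, Real.sin_add]
    push_cast
    have h1 : |sin (n * x) * cos x| ≤ n * |sin x| := by
      rw [abs_mul]
      calc |sin (n * x)| * |cos x| ≤ |sin (n * x)| * 1 :=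
            mul_le_mul_of_nonneg_left (Real.abs_cos_le_one x) (abs_nonneg _)
        _ ≤ _ := by rw [mul_one]; exact ih
    have h2 : |cos (n * x) * sin x| ≤ |sin x| := by
      rw [abs_mul]
      calc |cos (n * x)| * |sin x| ≤ 1 * |sin x| :=
            mul_le_mul_of_nonneg_right (Real.abs_cos_le_one _) (abs_nonneg _)
        _ = _ := one_mul _
    calc _ ≤ |sin (n * x) * cos x| + |cos (n * x) * sin x| := abs_add_le _ _
      _ ≤ n * |sin x| + |sin x| := add_le_add h1 h2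
      _ = _ := by ring

section
variable {M : ℕ} {y y2 : ℝ}

lemma tt_pos (hM : 0 < M) : 0 < tt M := by
  unfold tt
  have : (0:ℝ) < M := by exact_mod_cast hM
  exact div_pos Real.pi_pos this

lemma k1_formula (hM : 0 < M) (hP : Real.cos (tt M) - Real.cos y ≠ 0) :
    k1 M y = -(sin (tt M) / 2) * (M * cos (tt M) * (cos (tt M) - cos y)⁻¹ +
      M * sin (tt M) ^ 2 * (1 - cos (M * y)) * (cos (tt M) - cos y)⁻¹ ^ 2 +
      2 * sin (tt M) ^ 2 * sin y * sin (M * y) * (cos (tt M) - cos y)⁻¹ ^ 3) := by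
  have h := k1_id hM (y := y)
  set P := cos (tt M) - cos y
  have h2 : k1 M y = (2 * P ^ 3 * k1 M y) / (2 * P ^ 3) := by field_simp
  rw [h2, h]
  field_simp

/-- comparison principle -/
lemma k1_compare (hM : 3 ≤ M) (hy : tt M < y) (h12 : y ≤ y2) (h2 : y2 ≤ π)
    (hC : cos (M * y2) = cos (M * y))
    (hK : 2 * sin (tt M) ^ 2 * (sin y2 * sin (M * y2) * (cos (tt M) - cos y2)⁻¹ ^ 3 -
        sin y * sin (M * y) * (cos (tt M) - cos y)⁻¹ ^ 3) ≤
      M * cos (tt M) * ((cos (tt M) - cos y)⁻¹ - (cos (tt M) - cos y2)⁻¹)) :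
    k1 M y ≤ k1 M y2 := by
  have hM0 : 0 < M := by omega
  have ht := tt_pos hM0
  have hP1 : 0 < cos (tt M) - cos y := by
    have := Real.cos_lt_cos_of_nonneg_of_le_pi ht.le (h12.trans h2) hy
    linarith
  have hP12 : cos (tt M) - cos y ≤ cos (tt M) - cos y2 := by
    have := Real.cos_le_cos_of_nonneg_of_le_pi (by linarith) h2 h12
    linarith
  have hP2 : 0 < cos (tt M) - cos y2 := by linarith
  rw [k1_formula hM0 hP1.ne', k1_formula hM0 hP2.ne', hC]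
  have hs : 0 < sin (tt M) := by
    apply Real.sin_pos_of_pos_of_lt_pi ht
    linarith [h12.trans h2]
  have hu : (cos (tt M) - cos y2)⁻¹ ≤ (cos (tt M) - cos y)⁻¹ := inv_anti₀ hP1 hP12
  have hu2 : 0 < (cos (tt M) - cos y2)⁻¹ := inv_pos.2 hP2
  set u1 := (cos (tt M) - cos y)⁻¹
  set u2 := (cos (tt M) - cos y2)⁻¹
  have hq : u2 ^ 2 ≤ u1 ^ 2 := pow_le_pow_left₀ hu2.le hu 2
  have hc1 : cos (M * y) ≤ 1 := Real.cos_le_one _
  have hMr : (0:ℝ) ≤ M := Nat.cast_nonneg M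
  have hmid : 0 ≤ M * sin (tt M) ^ 2 * (1 - cos (M * y)) * (u1 ^ 2 - u2 ^ 2) := by
    apply mul_nonneg _ (by linarith)
    apply mul_nonneg _ (by linarith)
    positivity
  have hfin : 0 ≤ (sin (tt M) / 2) * ((M * cos (tt M) * u1 +
      M * sin (tt M) ^ 2 * (1 - cos (M * y)) * u1 ^ 2 +
      2 * sin (tt M) ^ 2 * sin y * sin (M * y) * u1 ^ 3) - (M * cos (tt M) * u2 +
      M * sin (tt M) ^ 2 * (1 - cos (M * y)) * u2 ^ 2 +
      2 * sin (tt M) ^ 2 * sin y2 * sin (M * y2) * u2 ^ 3)) := by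
    apply mul_nonneg (by linarith)
    nlinarith [hK, hmid]
  linarith [hfin]

/-- sines over cubes decrease. -/
lemma sin_cube_anti (hM : 3 ≤ M) (hy : tt M < y) (h12 : y ≤ y2) (h2 : y2 ≤ π) :
    sin y2 * (cos (tt M) - cos y2)⁻¹ ^ 3 ≤ sin y * (cos (tt M) - cos y)⁻¹ ^ 3 := by
  have hM0 : 0 < M := by omega
  have ht := tt_pos hM0
  have hMt := M_mul_tt hM0
  have hM3 : (3:ℝ) ≤ M := by exact_mod_cast hM
  have ht2 : tt M ≤ π / 3 := by
    rw [le_div_iff₀ (by norm_num : (0:ℝ) < 3)]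
    nlinarith
  have hb0 : 0 ≤ cos (tt M) := Real.cos_nonneg_of_mem_Icc ⟨by linarith, by linarith [Real.pi_pos]⟩
  have hP1 : 0 < cos (tt M) - cos y := by
    have := Real.cos_lt_cos_of_nonneg_of_le_pi ht.le (h12.trans h2) hy
    linarith
  have hP12 : cos (tt M) - cos y ≤ cos (tt M) - cos y2 := by
    have := Real.cos_le_cos_of_nonneg_of_le_pi (by linarith) h2 h12
    linarith
  have hP2 : 0 < cos (tt M) - cos y2 := by linarith
  have t1 := sin_div_P_anti hb0 (Real.cos_le_one (tt M)) (by linarith : 0 ≤ y) h12 h2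
  have hsy : 0 ≤ sin y := Real.sin_nonneg_of_nonneg_of_le_pi (by linarith) (by linarith)
  have hsy2 : 0 ≤ sin y2 := Real.sin_nonneg_of_nonneg_of_le_pi (by linarith) h2
  have hu : (cos (tt M) - cos y2)⁻¹ ≤ (cos (tt M) - cos y)⁻¹ := inv_anti₀ hP1 hP12
  have hu2 : 0 < (cos (tt M) - cos y2)⁻¹ := inv_pos.2 hP2
  have hu1 : 0 < (cos (tt M) - cos y)⁻¹ := inv_pos.2 hP1
  have key : sin y2 * (cos (tt M) - cos y2)⁻¹ ≤ sin y * (cos (tt M) - cos y)⁻¹ := by
    rw [← div_eq_mul_inv, ← div_eq_mul_inv, div_le_div_iff₀ hP2 hP1]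
    exact t1
  set u1 := (cos (tt M) - cos y)⁻¹
  set u2 := (cos (tt M) - cos y2)⁻¹
  have hq : u2 ^ 2 ≤ u1 ^ 2 := pow_le_pow_left₀ hu2.le hu 2
  calc sin y2 * u2 ^ 3 = (sin y2 * u2) * u2 ^ 2 := by ring
    _ ≤ (sin y * u1) * u1 ^ 2 := mul_le_mul key hq (by positivity) (by positivity)
    _ = _ := by ring

/-- Case `sin (M y) ≥ 0`. -/
lemma k1_le_pos (hM : 3 ≤ M) (hy : tt M < y) (h12 : y ≤ y2) (h2 : y2 ≤ π)
    (hC : cos (M * y2) = cos (M * y)) (hS : 0 ≤ sin (M * y))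
    (hS2 : sin (M * y2) ≤ sin (M * y)) : k1 M y ≤ k1 M y2 := by
  have hM0 : 0 < M := by omega
  have ht := tt_pos hM0
  apply k1_compare hM hy h12 h2 hC
  have hMt := M_mul_tt hM0
  have hM3 : (3:ℝ) ≤ M := by exact_mod_cast hM
  have ht2 : tt M ≤ π / 3 := by
    rw [le_div_iff₀ (by norm_num : (0:ℝ) < 3)]
    nlinarith
  have hb0 : 0 ≤ cos (tt M) := Real.cos_nonneg_of_mem_Icc ⟨by linarith, by linarith [Real.pi_pos]⟩
  have hP1 : 0 < cos (tt M) - cos y := by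
    have := Real.cos_lt_cos_of_nonneg_of_le_pi ht.le (h12.trans h2) hy
    linarith
  have hP12 : cos (tt M) - cos y ≤ cos (tt M) - cos y2 := by
    have := Real.cos_le_cos_of_nonneg_of_le_pi (by linarith) h2 h12
    linarith
  have hP2 : 0 < cos (tt M) - cos y2 := by linarith
  have hsy2 : 0 ≤ sin y2 := Real.sin_nonneg_of_nonneg_of_le_pi (by linarith) h2
  have hu : (cos (tt M) - cos y2)⁻¹ ≤ (cos (tt M) - cos y)⁻¹ := inv_anti₀ hP1 hP12
  have hu2 : 0 < (cos (tt M) - cos y2)⁻¹ := inv_pos.2 hP2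
  have hsc := sin_cube_anti hM hy h12 h2
  have h1 : sin y2 * sin (M * y2) * (cos (tt M) - cos y2)⁻¹ ^ 3 ≤
      sin y * sin (M * y) * (cos (tt M) - cos y)⁻¹ ^ 3 := by
    calc sin y2 * sin (M * y2) * (cos (tt M) - cos y2)⁻¹ ^ 3
        = sin (M * y2) * (sin y2 * (cos (tt M) - cos y2)⁻¹ ^ 3) := by ring
      _ ≤ sin (M * y) * (sin y2 * (cos (tt M) - cos y2)⁻¹ ^ 3) := by
          apply mul_le_mul_of_nonneg_right hS2
          positivity
      _ ≤ sin (M * y) * (sin y * (cos (tt M) - cos y)⁻¹ ^ 3) :=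
          mul_le_mul_of_nonneg_left hsc hS
      _ = _ := by ring
  have h3 : 2 * sin (tt M) ^ 2 * (sin y2 * sin (M * y2) * (cos (tt M) - cos y2)⁻¹ ^ 3 -
        sin y * sin (M * y) * (cos (tt M) - cos y)⁻¹ ^ 3) ≤ 0 := by
    apply mul_nonpos_of_nonneg_of_nonpos (by positivity) (by linarith)
  have h4 : 0 ≤ M * cos (tt M) * ((cos (tt M) - cos y)⁻¹ - (cos (tt M) - cos y2)⁻¹) := by
    apply mul_nonneg (by positivity) (by linarith)
  linarith

/-- reduction of the negative case. -/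
lemma k1_le_neg (hM : 3 ≤ M) (hy : tt M < y) (h12 : y ≤ y2) (h2 : y2 ≤ π) {σ : ℝ}
    (hC : cos (M * y2) = cos (M * y)) (hS : |sin (M * y)| ≤ σ) (hS2 : |sin (M * y2)| ≤ σ)
    (hK : 2 * sin (tt M) ^ 2 * (σ * (sin y * (cos (tt M) - cos y)⁻¹ ^ 3 +
        sin y2 * (cos (tt M) - cos y2)⁻¹ ^ 3)) ≤
      M * cos (tt M) * ((cos (tt M) - cos y)⁻¹ - (cos (tt M) - cos y2)⁻¹)) :
    k1 M y ≤ k1 M y2 := by
  have hM0 : 0 < M := by omega
  have ht := tt_pos hM0
  apply k1_compare hM hy h12 h2 hC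
  refine le_trans ?_ hK
  apply mul_le_mul_of_nonneg_left _ (by positivity)
  have hP1 : 0 < cos (tt M) - cos y := by
    have := Real.cos_lt_cos_of_nonneg_of_le_pi ht.le (h12.trans h2) hy
    linarith
  have hP12 : cos (tt M) - cos y ≤ cos (tt M) - cos y2 := by
    have := Real.cos_le_cos_of_nonneg_of_le_pi (by linarith) h2 h12
    linarith
  have hP2 : 0 < cos (tt M) - cos y2 := by linarith
  have hsy : 0 ≤ sin y := Real.sin_nonneg_of_nonneg_of_le_pi (by linarith) (by linarith)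
  have hsy2 : 0 ≤ sin y2 := Real.sin_nonneg_of_nonneg_of_le_pi (by linarith) h2
  have a1 : 0 ≤ sin y * (cos (tt M) - cos y)⁻¹ ^ 3 := by positivity
  have a2 : 0 ≤ sin y2 * (cos (tt M) - cos y2)⁻¹ ^ 3 := by positivity
  have b1 := neg_le_of_abs_le hS
  have b2 := le_of_abs_le hS2
  calc _ = sin (M * y2) * (sin y2 * (cos (tt M) - cos y2)⁻¹ ^ 3) +
        (-sin (M * y)) * (sin y * (cos (tt M) - cos y)⁻¹ ^ 3) := by ring
    _ ≤ σ * (sin y2 * (cos (tt M) - cos y2)⁻¹ ^ 3) + σ * (sin y * (cos (tt M) - cos y)⁻¹ ^ 3) := by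
        apply add_le_add
        · exact mul_le_mul_of_nonneg_right b2 a2
        · exact mul_le_mul_of_nonneg_right (by linarith) a1
    _ = _ := by ring

/-- (B1) -/
lemma k1_le_B1 (hM : 5 ≤ M) (hy : 3 * tt M ≤ y) (hyt : y + tt M ≤ y2) (h2 : y2 ≤ π)
    (hC : cos (M * y2) = cos (M * y)) : k1 M y ≤ k1 M y2 := by
  have hM0 : 0 < M := by omega
  have hM3 : 3 ≤ M := by omega
  have ht := tt_pos hM0
  have hMt := M_mul_tt hM0
  have hMr : (5:ℝ) ≤ M := by exact_mod_cast hM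
  have hy' : tt M < y := by linarith
  have h12 : y ≤ y2 := by linarith
  apply k1_le_neg hM3 hy' h12 h2 hC (Real.abs_sin_le_one _) (Real.abs_sin_le_one _)
  rw [one_mul]
  set h := tt M / 2 with hh
  have e2h : tt M = 2 * h := by rw [hh]; ring
  have hMh : (M:ℝ) * h = π / 2 := by rw [hh]; linarith
  have ht5 : tt M ≤ π / 5 := by
    rw [le_div_iff₀ (by norm_num : (0:ℝ) < 5)]
    nlinarith
  have hb0 : 0 ≤ cos (tt M) := Real.cos_nonneg_of_mem_Icc ⟨by linarith, by linarith [Real.pi_pos]⟩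
  set η := y + tt M with hη
  have hη1 : y ≤ η := by rw [hη]; linarith
  have hη2 : η ≤ y2 := hyt
  have hη3 : η ≤ π := hη2.trans h2
  have t2 := T2 (y := y) hM hMh (by linarith) (by rw [← e2h]; exact hη3)
  rw [← e2h, ← hη] at t2
  have cosη : cos η ≤ cos y := Real.cos_le_cos_of_nonneg_of_le_pi (by linarith) hη3 hη1
  have cosη2 : cos y2 ≤ cos η := Real.cos_le_cos_of_nonneg_of_le_pi (by linarith) h2 hη2
  have hP1 : 0 < cos (tt M) - cos y := by
    have := Real.cos_lt_cos_of_nonneg_of_le_pi ht.le (h12.trans h2) hy'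
    linarith
  have hPη : 0 < cos (tt M) - cos η := by linarith
  have hP2 : 0 < cos (tt M) - cos y2 := by linarith
  have sc := sin_cube_anti hM3 (hy'.trans_le hη1) hη2 h2
  have hsη : 0 ≤ sin η := Real.sin_nonneg_of_nonneg_of_le_pi (by linarith) hη3
  have hu : (cos (tt M) - cos η)⁻¹ ≤ (cos (tt M) - cos y)⁻¹ := inv_anti₀ hP1 (by linarith)
  have hu2 : (cos (tt M) - cos y2)⁻¹ ≤ (cos (tt M) - cos η)⁻¹ := inv_anti₀ hPη (by linarith)
  have huη : 0 < (cos (tt M) - cos η)⁻¹ := inv_pos.2 hPη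
  have e1 : (cos (tt M) - cos y)⁻¹ - (cos (tt M) - cos η)⁻¹ =
      ((cos (tt M) - cos η) - (cos (tt M) - cos y)) *
        ((cos (tt M) - cos y)⁻¹ * (cos (tt M) - cos η)⁻¹) := by
    field_simp
  set P1 := cos (tt M) - cos y
  set Pη := cos (tt M) - cos η
  have main : 2 * sin (tt M) ^ 2 * ((sin y + sin η) * P1⁻¹ ^ 3) ≤
      M * cos (tt M) * (P1⁻¹ - Pη⁻¹) := by
    rw [e1]
    have hmul := mul_le_mul_of_nonneg_right t2 (show (0:ℝ) ≤ P1⁻¹ ^ 3 * Pη⁻¹ by positivity)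
    calc 2 * sin (tt M) ^ 2 * ((sin y + sin η) * P1⁻¹ ^ 3)
        = 2 * sin (tt M) ^ 2 * (sin y + sin η) * Pη * (P1⁻¹ ^ 3 * Pη⁻¹) := by field_simp
      _ ≤ _ := hmul
      _ = _ := by field_simp
  have hcube : Pη⁻¹ ^ 3 ≤ P1⁻¹ ^ 3 := pow_le_pow_left₀ huη.le hu 3
  have hs2 : 0 ≤ 2 * sin (tt M) ^ 2 := by positivity
  calc _ ≤ 2 * sin (tt M) ^ 2 * ((sin y + sin η) * P1⁻¹ ^ 3) := by
        apply mul_le_mul_of_nonneg_left _ hs2
        have : sin η * Pη⁻¹ ^ 3 ≤ sin η * P1⁻¹ ^ 3 := mul_le_mul_of_nonneg_left hcube hsη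
        linarith
    _ ≤ M * cos (tt M) * (P1⁻¹ - Pη⁻¹) := main
    _ ≤ _ := by
        apply mul_le_mul_of_nonneg_left _ (by positivity)
        linarith

/-- (B2) -/
lemma k1_le_B2 (hM : 5 ≤ M) {δ : ℝ} (hδ0 : 0 ≤ δ) (hδ1 : 2 * δ ≤ tt M) (hy : 7 / 2 * tt M ≤ y)
    (hy2 : y2 = y + 2 * δ) (hyt : y + tt M ≤ π)
    (hC : cos (M * y2) = cos (M * y)) (hS : |sin (M * y)| ≤ M * sin δ)
    (hS2 : |sin (M * y2)| ≤ M * sin δ) : k1 M y ≤ k1 M y2 := by
  have hM0 : 0 < M := by omega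
  have hM3 : 3 ≤ M := by omega
  have ht := tt_pos hM0
  have hMt := M_mul_tt hM0
  have hMr : (5:ℝ) ≤ M := by exact_mod_cast hM
  have hy' : tt M < y := by linarith
  have h12 : y ≤ y2 := by linarith
  have h2 : y2 ≤ π := by linarith
  apply k1_le_neg hM3 hy' h12 h2 hC hS hS2
  set h := tt M / 2 with hh
  have e2h : tt M = 2 * h := by rw [hh]; ring
  have ht5 : tt M ≤ π / 5 := by
    rw [le_div_iff₀ (by norm_num : (0:ℝ) < 5)]
    nlinarith
  have t4 := T4 (h := h) (y := y) (y2 := y2) (by linarith) (by linarith) (by linarith)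
    (by linarith) (by linarith) (by linarith)
  rw [← e2h] at t4
  have hP1 : 0 < cos (tt M) - cos y := by
    have := Real.cos_lt_cos_of_nonneg_of_le_pi ht.le (h12.trans h2) hy'
    linarith
  have hP12 : cos (tt M) - cos y ≤ cos (tt M) - cos y2 := by
    have := Real.cos_le_cos_of_nonneg_of_le_pi (by linarith) h2 h12
    linarith
  have hP2 : 0 < cos (tt M) - cos y2 := by linarith
  have hu : (cos (tt M) - cos y2)⁻¹ ≤ (cos (tt M) - cos y)⁻¹ := inv_anti₀ hP1 hP12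
  have e1 : cos y - cos y2 = 2 * sin (y + δ) * sin δ := by
    have := Real.cos_sub_cos y y2
    have a : (y + y2) / 2 = y + δ := by rw [hy2]; ring
    have b : (y - y2) / 2 = -δ := by rw [hy2]; ring
    rw [a, b, Real.sin_neg] at this
    linarith
  have e2 : sin y + sin y2 = 2 * sin (y + δ) * cos δ := by
    have := Real.sin_add_sin y y2
    have a : (y + y2) / 2 = y + δ := by rw [hy2]; ring
    have b : (y - y2) / 2 = -δ := by rw [hy2]; ring
    rw [a, b, Real.cos_neg] at this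
    linarith
  have sδ : 0 ≤ sin δ := Real.sin_nonneg_of_nonneg_of_le_pi hδ0 (by linarith)
  have sm : 0 ≤ sin (y + δ) := Real.sin_nonneg_of_nonneg_of_le_pi (by linarith) (by linarith)
  have cδ : cos δ ≤ 1 := Real.cos_le_one δ
  have hsy2 : 0 ≤ sin y2 := Real.sin_nonneg_of_nonneg_of_le_pi (by linarith) h2
  have hi1 : 0 < (cos (tt M) - cos y)⁻¹ := inv_pos.2 hP1
  have hi2 : 0 < (cos (tt M) - cos y2)⁻¹ := inv_pos.2 hP2
  have e3 : (cos (tt M) - cos y)⁻¹ - (cos (tt M) - cos y2)⁻¹ =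
      (cos y - cos y2) * ((cos (tt M) - cos y)⁻¹ * (cos (tt M) - cos y2)⁻¹) := by
    field_simp
    ring
  rw [e3, e1]
  set P1 := cos (tt M) - cos y
  set P2 := cos (tt M) - cos y2
  have hcube : P2⁻¹ ^ 3 ≤ P1⁻¹ ^ 3 := pow_le_pow_left₀ hi2.le hu 3
  have t4' : 2 * sin (tt M) ^ 2 * P1⁻¹ ^ 3 ≤ cos (tt M) * (P1⁻¹ * P2⁻¹) := by
    have hmul := mul_le_mul_of_nonneg_right t4 (show (0:ℝ) ≤ P1⁻¹ ^ 3 * P2⁻¹ by positivity)
    calc 2 * sin (tt M) ^ 2 * P1⁻¹ ^ 3
        = 2 * sin (tt M) ^ 2 * P2 * (P1⁻¹ ^ 3 * P2⁻¹) := by field_simp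
      _ ≤ _ := hmul
      _ = _ := by field_simp
  calc _ ≤ 2 * sin (tt M) ^ 2 * (M * sin δ * ((sin y + sin y2) * P1⁻¹ ^ 3)) := by
        apply mul_le_mul_of_nonneg_left _ (by positivity)
        apply mul_le_mul_of_nonneg_left _ (by positivity)
        have : sin y2 * P2⁻¹ ^ 3 ≤ sin y2 * P1⁻¹ ^ 3 := mul_le_mul_of_nonneg_left hcube hsy2
        linarith
    _ = (M * sin δ * (2 * sin (y + δ))) * cos δ * (2 * sin (tt M) ^ 2 * P1⁻¹ ^ 3) := by
        rw [e2]; ring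
    _ ≤ (M * sin δ * (2 * sin (y + δ))) * 1 * (2 * sin (tt M) ^ 2 * P1⁻¹ ^ 3) := by
        apply mul_le_mul_of_nonneg_right _ (by positivity)
        apply mul_le_mul_of_nonneg_left cδ (by positivity)
    _ ≤ (M * sin δ * (2 * sin (y + δ))) * 1 * (cos (tt M) * (P1⁻¹ * P2⁻¹)) := by
        apply mul_le_mul_of_nonneg_left t4' (by positivity)
    _ = _ := by ring

/-- The main comparison. -/
lemma k1_core (hM : 3 ≤ M) (hy : 3 * tt M ≤ y) (h12 : y ≤ y2) (h2 : y2 ≤ π)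
    (hyt : y + tt M ≤ π) (hC : cos (M * y2) = cos (M * y))
    (hT : (sin (M * y2) = sin (M * y) ∧ (y2 = y ∨ y + tt M ≤ y2)) ∨
      (sin (M * y2) = -sin (M * y) ∧ ∃ j : ℤ, y + y2 = 2 * j * tt M)) :
    k1 M y ≤ k1 M y2 := by
  have hM0 : 0 < M := by omega
  have ht := tt_pos hM0
  have hMt := M_mul_tt hM0
  rcases le_or_gt 0 (sin (M * y)) with hS | hS
  · apply k1_le_pos hM (by linarith) h12 h2 hC hS
    rcases hT with ⟨h, _⟩ | ⟨h, _⟩
    · exact h.le
    · linarith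
  -- M ≥ 5
  have hM5 : 5 ≤ M := by
    by_contra hcon
    have h4 : M ≤ 4 := by omega
    have h4r : (M:ℝ) ≤ 4 := by exact_mod_cast h4
    -- y + t ≤ M t
    rcases Nat.lt_or_ge M 4 with h | h
    · have hM3 : M = 3 := by omega
      have h1 : (3:ℝ) * tt M = π := by rw [← hMt, hM3]; norm_num
      linarith
    · have hM4 : M = 4 := by omega
      have h1 : (4:ℝ) * tt M = π := by rw [← hMt, hM4]; norm_num
      have h2' : y = 3 * tt M := by linarith
      have : (M:ℝ) * y = ((3:ℕ):ℝ) * π := by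
        rw [h2', ← hMt]; push_cast; ring
      rw [this, Real.sin_nat_mul_pi] at hS
      exact lt_irrefl _ hS
  rcases hT with ⟨h, h' | h'⟩ | ⟨h, j, hj⟩
  · rw [h']
  · exact k1_le_B1 hM5 hy h' h2 hC
  · rcases le_or_gt (y + tt M) y2 with hb | hb
    · exact k1_le_B1 hM5 hy hb h2 hC
    · rcases eq_or_lt_of_le h12 with he | hlt
      · rw [← he]
      -- j ≥ 4
      have hj4 : (4:ℤ) ≤ j := by
        by_contra hcon
        have : j ≤ 3 := by omega
        have hr : (j:ℝ) ≤ 3 := by exact_mod_cast this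
        nlinarith
      have hj4r : (4:ℝ) ≤ j := by exact_mod_cast hj4
      set δ := (y2 - y) / 2 with hδ
      have hyδ : y = j * tt M - δ := by rw [hδ]; linarith
      have hMy : (M:ℝ) * y = j * π - M * δ := by rw [hyδ, ← hMt]; ring
      have habs : |sin (M * y)| = |sin (M * δ)| := by
        rw [hMy, Real.sin_sub, Real.sin_int_mul_pi, zero_mul, zero_sub, abs_neg, abs_mul,
          Real.abs_cos_int_mul_pi, one_mul]
      have hδ0 : 0 ≤ δ := by rw [hδ]; linarith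
      have hδ1 : 2 * δ ≤ tt M := by rw [hδ]; linarith
      have hsδ : 0 ≤ sin δ := Real.sin_nonneg_of_nonneg_of_le_pi hδ0 (by linarith)
      have hle : |sin (M * y)| ≤ M * sin δ := by
        rw [habs]
        have := abs_sin_nat_mul_le M δ
        rwa [abs_of_nonneg hsδ] at this
      apply k1_le_B2 hM5 hδ0 hδ1 _ (by rw [hδ]; ring) hyt hC hle
      · rw [h, abs_neg]; exact hle
      · rw [hyδ]
        nlinarith

end

end Pool.Agent.H.MP_921603_an
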