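import Pool.Agent.H.MP_921603_an.Param

set_option autoImplicit false

namespace Pool.Agent.H.MP_921603_an

open Complex Metric Set Filter Topology Finset

section
variable (n : ℕ) (a : ℕ → ℝ)

/-- The polynomial `∑ a_j z^j`. -/
noncomputable def FF (z : ℂ) : ℂ := ∑ j ∈ range n, (a j : ℂ) * z ^ j
/-- Its derivative. -/
noncomputable def FF' (z : ℂ) : ℂ := ∑ j ∈ range n, (a j : ℂ) * (j * z ^ (j - 1))
/-- `Im FF (e^{iθ})`. -/
noncomputable def YY (θ : ℝ) : ℝ := ∑ j ∈ range n, a j * Real.sin (j * θ)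
/-- `d/dθ Im FF (e^{iθ})`. -/
noncomputable def Y1 (θ : ℝ) : ℝ := ∑ j ∈ range n, a j * (j * Real.cos (j * θ))
/-- `d/dθ Re FF (e^{iθ})`. -/
noncomputable def X1 (θ : ℝ) : ℝ := -∑ j ∈ range n, a j * (j * Real.sin (j * θ))

variable {n a}

lemma FF_hasDerivAt (z : ℂ) : HasDerivAt (FF n a) (FF' n a z) z := by
  unfold FF FF'
  apply HasDerivAt.fun_sum
  intro j _
  exact (hasDerivAt_pow j z).const_mul _

lemma FF'_differentiable : Differentiable ℂ (FF' n a) := by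
  unfold FF'; fun_prop

lemma YY_hasDerivAt (θ : ℝ) : HasDerivAt (YY n a) (Y1 n a θ) θ := by
  unfold YY Y1
  apply HasDerivAt.fun_sum
  intro j _
  have h1 : HasDerivAt (fun θ : ℝ => (j:ℝ) * θ) (j:ℝ) θ := by
    simpa using (hasDerivAt_id θ).const_mul (j:ℝ)
  have h2 := (h1.sin).const_mul (a j)
  refine h2.congr_deriv ?_
  ring

lemma exp_pow' (θ : ℝ) (j : ℕ) : (exp ((θ:ℂ) * I)) ^ j = Real.cos (j * θ) + Real.sin (j * θ) * I := by
  rw [← Complex.exp_nat_mul, Complex.ofReal_cos, Complex.ofReal_sin, ← Complex.exp_mul_I]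
  congr 1; push_cast; ring

lemma FF_exp_im (θ : ℝ) : (FF n a (exp (θ * I))).im = YY n a θ := by
  unfold FF YY
  rw [Complex.im_sum]
  apply Finset.sum_congr rfl
  intro j _
  rw [exp_pow', Complex.im_ofReal_mul, add_im, ofReal_im, Complex.im_ofReal_mul, I_im, mul_one,
    zero_add]

lemma exp_mul_FF' (θ : ℝ) :
    exp (θ * I) * FF' n a (exp (θ * I)) = (Y1 n a θ : ℂ) - (X1 n a θ : ℂ) * I := by
  unfold FF' Y1 X1
  rw [Finset.mul_sum]
  push_cast
  rw [neg_mul, sub_neg_eq_add, Finset.sum_mul, ← Finset.sum_add_distrib]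
  apply Finset.sum_congr rfl
  intro j _
  have h : exp ((θ:ℂ) * I) * ((a j : ℂ) * (j * exp ((θ:ℂ) * I) ^ (j - 1)))
      = (a j : ℂ) * (j * exp ((θ:ℂ) * I) ^ j) := by
    rcases j with _ | j
    · simp
    · rw [Nat.add_sub_cancel, pow_succ]; ring
  rw [h, exp_pow']
  push_cast
  ring

lemma FF_conj (z : ℂ) : FF n a ((starRingEnd ℂ) z) = (starRingEnd ℂ) (FF n a z) := by
  unfold FF
  rw [map_sum]
  apply Finset.sum_congr rfl
  intro j _
  rw [map_mul, map_pow, Complex.conj_ofReal]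

lemma FF'_conj (z : ℂ) : FF' n a ((starRingEnd ℂ) z) = (starRingEnd ℂ) (FF' n a z) := by
  unfold FF'
  rw [map_sum]
  apply Finset.sum_congr rfl
  intro j _
  rw [map_mul, map_mul, map_pow, Complex.conj_ofReal, Complex.conj_natCast]

lemma FF_real_im (x : ℝ) : (FF n a (x:ℂ)).im = 0 := by
  have := FF_conj (n := n) (a := a) (x:ℂ)
  rw [Complex.conj_ofReal] at this
  exact Complex.conj_eq_iff_im.1 this.symm

lemma FF'_real_im (x : ℝ) : (FF' n a (x:ℂ)).im = 0 := by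
  have := FF'_conj (n := n) (a := a) (x:ℂ)
  rw [Complex.conj_ofReal] at this
  exact Complex.conj_eq_iff_im.1 this.symm

lemma FF_zero (h0 : a 0 = 0) : FF n a 0 = 0 := by
  unfold FF
  apply Finset.sum_eq_zero
  intro j _
  rcases j with _ | j
  · simp [h0]
  · simp

lemma FF'_zero (hn : 2 ≤ n) : FF' n a 0 = a 1 := by
  unfold FF'
  rw [Finset.sum_eq_single 1]
  · simp
  · intro j _ hj
    rcases j with _ | _ | j
    · simp
    · exact absurd rfl hj
    · simp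
  · intro h; exfalso; apply h; rw [Finset.mem_range]; omega

/-- The auxiliary function. -/
noncomputable def Psi (n : ℕ) (a : ℕ → ℝ) (θm θ0 θp : ℝ) (z : ℂ) : ℂ :=
  FF' n a z * (z ^ 2 - 2 * (Real.cos θ0 : ℝ) * z + 1) * kap θm z * kap θp z

variable {θm θ0 θp : ℝ}

lemma Psi_conj {z : ℂ} (hz : ‖z‖ ≤ 1) :
    Psi n a θm θ0 θp ((starRingEnd ℂ) z) = (starRingEnd ℂ) (Psi n a θm θ0 θp z) := by
  unfold Psi
  rw [FF'_conj, kap_conj _ hz, kap_conj _ hz]
  simp only [map_mul, map_add, map_sub, map_pow, map_one, Complex.conj_ofReal, Complex.conj_ofNat]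

lemma one_sub_exp_sq (θ : ℝ) :
    (1:ℂ) - exp (θ * I) ^ 2 = -2 * I * Real.sin θ * exp (θ * I) := by
  have h4 : ((Real.sin θ : ℝ) : ℂ) = (exp (-(θ:ℂ) * I) - exp ((θ:ℂ) * I)) * I / 2 := by
    rw [Complex.ofReal_sin, Complex.sin]
  have h3 : exp ((θ:ℂ) * I) * exp (-(θ:ℂ) * I) = 1 := by
    rw [← Complex.exp_add]; simp
  rw [h4]
  linear_combination (-1 : ℂ) * h3 +
    (exp ((θ:ℂ) * I)) * (exp (-(θ:ℂ) * I) - exp ((θ:ℂ) * I)) * Complex.I_sq

/-- General formula on the circle. -/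
lemma Psi_div (θ : ℝ) (hs : 0 < Real.sin θ) {σ : ℂ}
    (hσ : kap θm (exp (θ * I)) * kap θp (exp (θ * I)) = exp (θ * I) * σ) :
    Psi n a θm θ0 θp (exp (θ * I)) / (1 - exp (θ * I) ^ 2) =
      ((Real.cos θ - Real.cos θ0) / Real.sin θ : ℝ) *
        (((X1 n a θ : ℂ) + (Y1 n a θ : ℂ) * I) * σ) := by
  have hE : exp ((θ:ℂ) * I) ≠ 0 := Complex.exp_ne_zero _
  have hS : ((Real.sin θ : ℝ) : ℂ) ≠ 0 := by exact_mod_cast hs.ne'
  rw [one_sub_exp_sq]
  have hden : -2 * I * Real.sin θ * exp ((θ:ℂ) * I) ≠ 0 := by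
    apply mul_ne_zero _ hE
    apply mul_ne_zero _ hS
    apply mul_ne_zero _ I_ne_zero
    norm_num
  rw [div_eq_iff hden]
  unfold Psi
  rw [kap_exp_aux]
  have e := exp_mul_FF' (n := n) (a := a) θ
  calc _ = (exp ((θ:ℂ) * I) * FF' n a (exp (θ * I))) * ((2 * (Real.cos θ - Real.cos θ0) : ℝ) : ℂ) *
        (kap θm (exp (θ * I)) * kap θp (exp (θ * I))) := by ring
    _ = _ := by
      rw [e, hσ, Complex.ofReal_mul, Complex.ofReal_div, Complex.ofReal_sub, Complex.ofReal_ofNat]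
      generalize ((Real.sin θ : ℝ) : ℂ) = S at *
      generalize ((Real.cos θ : ℝ) : ℂ) = C at *
      generalize ((Real.cos θ0 : ℝ) : ℂ) = C0 at *
      generalize exp ((θ:ℂ) * I) = E at *
      field_simp
      linear_combination ((Y1 n a θ : ℂ) * σ * (C - C0)) * Complex.I_sq

lemma kap_exp_self (φ : ℝ) : kap φ (exp (φ * I)) = 0 := by
  have h := kap_mul_self φ (exp (φ * I))
  rw [kap_exp_aux] at h
  simp only [sub_self, mul_zero, ofReal_zero, mul_self_eq_zero] at h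
  exact h

/-- Nonnegativity on the open upper half circle. -/
lemma Psi_re_nonneg_upper (h0 : 0 ≤ θm) (h1 : θm < θ0) (h2 : θ0 < θp) (h3 : θp ≤ Real.pi)
    (hX1 : ∀ θ, 0 < θ → θ < θm → 0 ≤ X1 n a θ)
    (hX2 : ∀ θ, θp < θ → θ < Real.pi → 0 ≤ X1 n a θ)
    (hY1 : ∀ θ, θm < θ → θ ≤ θ0 → 0 ≤ Y1 n a θ)
    (hY2 : ∀ θ, θ0 ≤ θ → θ < θp → Y1 n a θ ≤ 0)
    {θ : ℝ} (hθ0 : 0 < θ) (hθπ : θ < Real.pi) :
    0 ≤ (Psi n a θm θ0 θp (exp (θ * I)) / (1 - exp (θ * I) ^ 2)).re := by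
  have hs : 0 < Real.sin θ := Real.sin_pos_of_pos_of_lt_pi hθ0 hθπ
  have hhalf := exp_half_mul_self θ
  by_cases em : θ = θm
  · have : Psi n a θm θ0 θp (exp (θ * I)) = 0 := by
      unfold Psi; rw [em, kap_exp_self]; simp
    rw [this]; simp
  by_cases ep : θ = θp
  · have : Psi n a θm θ0 θp (exp (θ * I)) = 0 := by
      unfold Psi; rw [ep, kap_exp_self]; simp
    rw [this]; simp
  rcases lt_or_gt_of_ne em with hm | hm
  · -- θ < θm
    have k1 := kap_exp_of_lt hθ0 hm (by linarith)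
    have k2 := kap_exp_of_lt hθ0 (hm.trans (h1.trans h2)) h3
    have hc : Real.cos θ0 < Real.cos θ :=
      Real.cos_lt_cos_of_nonneg_of_le_pi hθ0.le (by linarith) (by linarith)
    have hσ : kap θm (exp (θ * I)) * kap θp (exp (θ * I)) = exp (θ * I) *
        ((Real.sqrt (2 * (Real.cos θ - Real.cos θm)) *
          Real.sqrt (2 * (Real.cos θ - Real.cos θp)) : ℝ) : ℂ) := by
      rw [k1, k2, ← hhalf]; push_cast; ring
    rw [Psi_div θ hs hσ, Complex.re_ofReal_mul, Complex.re_mul_ofReal]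
    have : ((X1 n a θ : ℂ) + (Y1 n a θ : ℂ) * I).re = X1 n a θ := by simp
    rw [this]
    have := hX1 θ hθ0 hm
    have h5 : 0 ≤ (Real.cos θ - Real.cos θ0) / Real.sin θ := div_nonneg (by linarith) hs.le
    positivity
  rcases lt_or_gt_of_ne ep with hp | hp
  · -- θm < θ < θp
    have k1 := kap_exp_of_gt h0 hm hθπ
    have k2 := kap_exp_of_lt hθ0 hp h3
    have hσ : kap θm (exp (θ * I)) * kap θp (exp (θ * I)) = exp (θ * I) *
        (-I * ((Real.sqrt (2 * (Real.cos θm - Real.cos θ)) *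
          Real.sqrt (2 * (Real.cos θ - Real.cos θp)) : ℝ) : ℂ)) := by
      rw [k1, k2, ← hhalf]; push_cast; ring
    rw [Psi_div θ hs hσ, Complex.re_ofReal_mul, ← mul_assoc, Complex.re_mul_ofReal]
    have : (((X1 n a θ : ℂ) + (Y1 n a θ : ℂ) * I) * -I).re = Y1 n a θ := by
      simp [Complex.mul_re, Complex.mul_im]
    rw [this]
    rcases le_total θ θ0 with h | h
    · have hc : Real.cos θ0 ≤ Real.cos θ :=
        Real.cos_le_cos_of_nonneg_of_le_pi hθ0.le (by linarith) h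
      have := hY1 θ hm h
      have h5 : 0 ≤ (Real.cos θ - Real.cos θ0) / Real.sin θ := div_nonneg (by linarith) hs.le
      positivity
    · have hc : Real.cos θ ≤ Real.cos θ0 :=
        Real.cos_le_cos_of_nonneg_of_le_pi (by linarith) hθπ.le h
      have h4 := hY2 θ h hp
      have h5 : (Real.cos θ - Real.cos θ0) / Real.sin θ ≤ 0 :=
        div_nonpos_of_nonpos_of_nonneg (by linarith) hs.le
      have h6 : 0 ≤ Real.sqrt (2 * (Real.cos θm - Real.cos θ)) *
          Real.sqrt (2 * (Real.cos θ - Real.cos θp)) := by positivity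
      exact mul_nonneg_of_nonpos_of_nonpos h5 (mul_nonpos_of_nonpos_of_nonneg h4 h6)
  · -- θp < θ
    have k1 := kap_exp_of_gt h0 hm hθπ
    have k2 := kap_exp_of_gt (by linarith) hp hθπ
    have hc : Real.cos θ < Real.cos θ0 :=
      Real.cos_lt_cos_of_nonneg_of_le_pi (by linarith) hθπ.le (by linarith)
    have hσ : kap θm (exp (θ * I)) * kap θp (exp (θ * I)) = exp (θ * I) *
        ((-(Real.sqrt (2 * (Real.cos θm - Real.cos θ)) *
          Real.sqrt (2 * (Real.cos θp - Real.cos θ))) : ℝ) : ℂ) := by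
      rw [k1, k2, ← hhalf]; push_cast
      linear_combination (exp (((θ:ℂ)/2) * I) * exp (((θ:ℂ)/2) * I) *
        ((Real.sqrt (2 * (Real.cos θm - Real.cos θ)) : ℝ) : ℂ) *
        ((Real.sqrt (2 * (Real.cos θp - Real.cos θ)) : ℝ) : ℂ)) * Complex.I_sq
    rw [Psi_div θ hs hσ, Complex.re_ofReal_mul, Complex.re_mul_ofReal]
    have : ((X1 n a θ : ℂ) + (Y1 n a θ : ℂ) * I).re = X1 n a θ := by simp
    rw [this]
    have h4 := hX2 θ hp hθπ
    have h5 : (Real.cos θ - Real.cos θ0) / Real.sin θ ≤ 0 :=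
      div_nonpos_of_nonpos_of_nonneg (by linarith) hs.le
    have h6 : 0 ≤ Real.sqrt (2 * (Real.cos θm - Real.cos θ)) *
          Real.sqrt (2 * (Real.cos θp - Real.cos θ)) := by positivity
    have h7 : X1 n a θ * -(Real.sqrt (2 * (Real.cos θm - Real.cos θ)) *
          Real.sqrt (2 * (Real.cos θp - Real.cos θ))) ≤ 0 := by nlinarith
    exact mul_nonneg_of_nonpos_of_nonpos h5 h7

end

end Pool.Agent.H.MP_921603_an
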