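import Pool.Agent.H.MP_921603_an.Crit

set_option autoImplicit false

namespace Pool.Agent.H.MP_921603_an

open Complex Metric Set Filter Topology

variable {n : ℕ} {a : ℕ → ℝ} {θm θ0 θp : ℝ}

lemma YY_zero : YY n a 0 = 0 := by unfold YY; simp

lemma YY_pi : YY n a Real.pi = 0 := by
  unfold YY
  apply Finset.sum_eq_zero
  intro j _
  rw [Real.sin_nat_mul_pi, mul_zero]

lemma Y1_zero_nonneg (hY : ∀ θ, 0 ≤ θ → θ ≤ Real.pi → 0 ≤ YY n a θ) : 0 ≤ Y1 n a 0 := by
  have h := (YY_hasDerivAt (n := n) (a := a) 0).tendsto_slope_zero_right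
  apply ge_of_tendsto h
  filter_upwards [Ioo_mem_nhdsGT Real.pi_pos] with t ht
  rw [YY_zero, zero_add, sub_zero, smul_eq_mul]
  exact mul_nonneg (inv_nonneg.2 ht.1.le) (hY t ht.1.le ht.2.le)

lemma Y1_pi_nonpos (hY : ∀ θ, 0 ≤ θ → θ ≤ Real.pi → 0 ≤ YY n a θ) : Y1 n a Real.pi ≤ 0 := by
  have h := (YY_hasDerivAt (n := n) (a := a) Real.pi).tendsto_slope_zero_left
  apply le_of_tendsto h
  have hp : (-Real.pi : ℝ) < 0 := by linarith [Real.pi_pos]
  filter_upwards [Ioo_mem_nhdsLT hp] with t ht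
  rw [YY_pi, sub_zero, smul_eq_mul]
  apply mul_nonpos_of_nonpos_of_nonneg (inv_nonpos.2 ht.2.le)
  apply hY <;> linarith [ht.1, ht.2]

lemma FF'_one : FF' n a 1 = (Y1 n a 0 : ℂ) := by
  unfold FF' Y1
  push_cast
  apply Finset.sum_congr rfl
  intro j _
  simp

lemma FF'_neg_one : FF' n a (-1) = ((-Y1 n a Real.pi : ℝ) : ℂ) := by
  have h := exp_mul_FF' (n := n) (a := a) Real.pi
  rw [Complex.exp_pi_mul_I] at h
  have hX : X1 n a Real.pi = 0 := by
    unfold X1
    rw [neg_eq_zero]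
    apply Finset.sum_eq_zero
    intro j _
    rw [Real.sin_nat_mul_pi, mul_zero, mul_zero]
  rw [hX, Complex.ofReal_zero, zero_mul, sub_zero] at h
  push_cast
  linear_combination -h

lemma real_of_kap {x : ℝ} (φ : ℝ) (hx : ‖(x:ℂ)‖ ≤ 1) :
    kap φ (x:ℂ) = (((kap φ (x:ℂ)).re : ℝ) : ℂ) := by
  apply Complex.ext
  · simp
  · simp [kap_conj_im φ hx]

lemma kap_re_nonneg {z : ℂ} (φ : ℝ) (hz : ‖z‖ ≤ 1) : 0 ≤ (kap φ z).re := by
  by_cases h : z ^ 2 - 2 * (Real.cos φ : ℝ) * z + 1 = 0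
  · have := kap_mul_self φ z
    rw [h, mul_self_eq_zero] at this
    rw [this]; simp
  · exact (kap_re_pos' φ hz h).le

/-- value at a real point. -/
lemma Psi_real {x : ℝ} (hx : ‖(x:ℂ)‖ ≤ 1) :
    Psi n a θm θ0 θp (x:ℂ) = (((FF' n a (x:ℂ)).re * (x ^ 2 - 2 * Real.cos θ0 * x + 1) *
      (kap θm (x:ℂ)).re * (kap θp (x:ℂ)).re : ℝ) : ℂ) := by
  have h1 : FF' n a (x:ℂ) = (((FF' n a (x:ℂ)).re : ℝ) : ℂ) := by
    apply Complex.ext
    · simp
    · simp [FF'_real_im]
  unfold Psi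
  rw [real_of_kap θm hx, real_of_kap θp hx, h1]
  push_cast
  simp only [ofReal_re]

lemma Psi_one (hY : ∀ θ, 0 ≤ θ → θ ≤ Real.pi → 0 ≤ YY n a θ) :
    (Psi n a θm θ0 θp 1).im = 0 ∧ 0 ≤ (Psi n a θm θ0 θp 1).re := by
  have h := Psi_real (n := n) (a := a) (θm := θm) (θ0 := θ0) (θp := θp) (x := 1) (by simp)
  rw [Complex.ofReal_one] at h
  rw [h]
  refine ⟨Complex.ofReal_im _, ?_⟩
  rw [Complex.ofReal_re]
  have h1 : 0 ≤ (FF' n a 1).re := by
    rw [FF'_one, Complex.ofReal_re]; exact Y1_zero_nonneg hY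
  have h2 : 0 ≤ (1:ℝ) ^ 2 - 2 * Real.cos θ0 * 1 + 1 := by
    have := Real.cos_le_one θ0; linarith
  have h3 := kap_re_nonneg (z := 1) θm (by simp)
  have h4 := kap_re_nonneg (z := 1) θp (by simp)
  positivity

lemma Psi_neg_one (hY : ∀ θ, 0 ≤ θ → θ ≤ Real.pi → 0 ≤ YY n a θ) :
    (Psi n a θm θ0 θp (-1)).im = 0 ∧ 0 ≤ (Psi n a θm θ0 θp (-1)).re := by
  have h := Psi_real (n := n) (a := a) (θm := θm) (θ0 := θ0) (θp := θp) (x := -1) (by simp)
  rw [Complex.ofReal_neg, Complex.ofReal_one] at h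
  rw [h]
  refine ⟨Complex.ofReal_im _, ?_⟩
  rw [Complex.ofReal_re]
  have h1 : 0 ≤ (FF' n a (-1)).re := by
    rw [FF'_neg_one, Complex.ofReal_re]; linarith [Y1_pi_nonpos hY]
  have h2 : 0 ≤ (-1:ℝ) ^ 2 - 2 * Real.cos θ0 * (-1) + 1 := by
    have := Real.neg_one_le_cos θ0; linarith
  have h3 := kap_re_nonneg (z := -1) θm (by simp)
  have h4 := kap_re_nonneg (z := -1) θp (by simp)
  positivity

/-- every point of the unit circle other than `± 1` is `exp (i θ)` or its conjugate with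
`θ ∈ (0, π)`. -/
lemma circle_cases {z : ℂ} (hz : ‖z‖ = 1) (h1 : z ≠ 1) (h2 : z ≠ -1) :
    ∃ θ : ℝ, 0 < θ ∧ θ < Real.pi ∧ (z = exp (θ * I) ∨ z = (starRingEnd ℂ) (exp (θ * I))) := by
  have hz' : z = exp (z.arg * I) := by
    have := Complex.norm_mul_exp_arg_mul_I z
    rw [hz] at this
    simpa using this.symm
  have ha1 := Complex.neg_pi_lt_arg z
  have ha2 := Complex.arg_le_pi z
  have hne0 : z.arg ≠ 0 := by
    intro h; apply h1; rw [hz', h]; simp
  have hnepi : z.arg ≠ Real.pi := by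
    intro h; apply h2; rw [hz', h, Complex.exp_pi_mul_I]
  rcases lt_or_gt_of_ne hne0 with h | h
  · refine ⟨-z.arg, by linarith, by linarith, Or.inr ?_⟩
    rw [← Complex.exp_conj]
    conv_lhs => rw [hz']
    congr 1
    simp
  · exact ⟨z.arg, h, lt_of_le_of_ne ha2 hnepi, Or.inl hz'⟩

/-- Hypotheses of the criterion. -/
structure Hyp (n : ℕ) (a : ℕ → ℝ) (θm θ0 θp : ℝ) : Prop where
  hn : 2 ≤ n
  a0 : a 0 = 0
  a1 : 0 < a 1
  h0 : 0 ≤ θm
  h1 : θm < θ0
  h2 : θ0 < θp
  h3 : θp ≤ Real.pi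
  hY : ∀ θ, 0 ≤ θ → θ ≤ Real.pi → 0 ≤ YY n a θ
  hX1 : ∀ θ, 0 < θ → θ < θm → 0 ≤ X1 n a θ
  hX2 : ∀ θ, θp < θ → θ < Real.pi → 0 ≤ X1 n a θ
  hY1 : ∀ θ, θm < θ → θ ≤ θ0 → 0 ≤ Y1 n a θ
  hY2 : ∀ θ, θ0 ≤ θ → θ < θp → Y1 n a θ ≤ 0

lemma Psi_continuousAt {z : ℂ} (hz : ‖z‖ ≤ 1) : ContinuousAt (Psi n a θm θ0 θp) z := by
  unfold Psi
  apply ContinuousAt.mul
  · apply ContinuousAt.mul
    · apply ContinuousAt.mul
      · exact (FF'_differentiable z).continuousAt
      · fun_prop
    · exact kap_continuousAt θm hz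
  · exact kap_continuousAt θp hz

lemma Psi_differentiableAt {z : ℂ} (h1 : DifferentiableAt ℂ (kap θm) z)
    (h2 : DifferentiableAt ℂ (kap θp) z) : DifferentiableAt ℂ (Psi n a θm θ0 θp) z := by
  unfold Psi
  apply DifferentiableAt.mul
  · apply DifferentiableAt.mul
    · apply DifferentiableAt.mul
      · exact FF'_differentiable z
      · fun_prop
    · exact h1
  · exact h2

lemma Phi_re_nonneg (H : Hyp n a θm θ0 θp) :
    ∀ z ∈ ball (0:ℂ) 1, 0 ≤ (Psi n a θm θ0 θp z / (1 - z ^ 2)).re := by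
  have hm1 : θm ≤ Real.pi := by linarith [H.h1, H.h2, H.h3]
  have hp0 : 0 ≤ θp := by linarith [H.h1, H.h2, H.h0]
  apply re_nonneg_of_circle
  · intro z hz
    rw [mem_ball, dist_zero_right] at hz
    exact (Psi_differentiableAt (kap_differentiableAt θm hz)
      (kap_differentiableAt θp hz)).differentiableWithinAt
  · intro z hz
    rw [mem_closedBall, dist_zero_right] at hz
    exact (Psi_continuousAt hz).continuousWithinAt
  · exact Psi_differentiableAt (kap_differentiableAt_one H.h0 hm1)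
      (kap_differentiableAt_one hp0 H.h3)
  · exact Psi_differentiableAt (kap_differentiableAt_neg_one H.h0 hm1)
      (kap_differentiableAt_neg_one hp0 H.h3)
  · exact (Psi_one H.hY).1
  · exact (Psi_one H.hY).2
  · exact (Psi_neg_one H.hY).1
  · exact (Psi_neg_one H.hY).2
  · intro z hz h1 h2
    obtain ⟨θ, hθ0, hθπ, h | h⟩ := circle_cases hz h1 h2
    · rw [h]
      exact Psi_re_nonneg_upper H.h0 H.h1 H.h2 H.h3 H.hX1 H.hX2 H.hY1 H.hY2 hθ0 hθπ
    · have key := Psi_re_nonneg_upper H.h0 H.h1 H.h2 H.h3 H.hX1 H.hX2 H.hY1 H.hY2 hθ0 hθπ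
      rw [h, Psi_conj (by rw [Complex.norm_exp_ofReal_mul_I])]
      have e : (starRingEnd ℂ) (Psi n a θm θ0 θp (exp (θ * I))) /
          (1 - (starRingEnd ℂ) (exp (θ * I)) ^ 2) = (starRingEnd ℂ)
          (Psi n a θm θ0 θp (exp (θ * I)) / (1 - exp (θ * I) ^ 2)) := by
        simp only [map_div₀, map_sub, map_one, map_pow]
      rw [e, Complex.conj_re]
      exact key

lemma Phi_re_pos (H : Hyp n a θm θ0 θp) :
    ∀ z ∈ ball (0:ℂ) 1, 0 < (Psi n a θm θ0 θp z / (1 - z ^ 2)).re := by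
  apply re_pos_of_nonneg isOpen_ball (convex_ball (0:ℂ) 1).isPreconnected _ (Phi_re_nonneg H)
    (mem_ball_self zero_lt_one)
  · unfold Psi
    rw [FF'_zero H.hn]
    have hk : ∀ φ, kap φ 0 = 1 := by intro φ; unfold kap; simp
    rw [hk, hk]
    simp [H.a1]
  · intro z hz
    rw [mem_ball, dist_zero_right] at hz
    apply DifferentiableAt.differentiableWithinAt
    apply DifferentiableAt.div
    · exact (Psi_differentiableAt (kap_differentiableAt θm hz) (kap_differentiableAt θp hz))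
    · fun_prop
    · exact one_sub_sq_ne_zero hz

lemma isOpen_Dp : IsOpen Dp := by
  have : Dp = ball (0:ℂ) 1 ∩ {z | 0 < z.im} := by
    ext z; simp [Dp]
  rw [this]
  exact isOpen_ball.inter (isOpen_lt continuous_const Complex.continuous_im)

lemma convex_Dp : Convex ℝ Dp := by
  have : Dp = ball (0:ℂ) 1 ∩ {z | 0 < z.im} := by
    ext z; simp [Dp]
  rw [this]
  exact (convex_ball (0:ℂ) 1).inter (convex_halfSpace_im_gt 0)

lemma FF_im_nonneg (H : Hyp n a θm θ0 θp) : ∀ z ∈ Dp, 0 ≤ (FF n a z).im := by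
  have hb : Bornology.IsBounded Dp := by
    apply (isBounded_ball (x := (0:ℂ)) (r := 1)).subset
    intro z hz; rw [mem_ball, dist_zero_right]; exact hz.1
  have hd : Differentiable ℂ (fun z => -I * FF n a z) := by
    intro z
    exact ((FF_hasDerivAt z).differentiableAt).const_mul _
  have key := re_nonneg_of_frontier hb (f := fun z => -I * FF n a z) hd.diffContOnCl ?_
  · intro z hz
    have := key z (subset_closure hz)
    simpa [Complex.mul_re] using this
  · intro z hz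
    have hcl : z ∈ closure Dp := frontier_subset_closure hz
    have hnot : z ∉ Dp := by
      have := hz
      rw [isOpen_Dp.frontier_eq] at this
      exact this.2
    have hcl2 : ‖z‖ ≤ 1 ∧ 0 ≤ z.im := by
      have hclosed : IsClosed {z : ℂ | ‖z‖ ≤ 1 ∧ 0 ≤ z.im} := by
        apply IsClosed.inter
        · exact isClosed_le continuous_norm continuous_const
        · exact isClosed_le continuous_const Complex.continuous_im
      have hsub : Dp ⊆ {z : ℂ | ‖z‖ ≤ 1 ∧ 0 ≤ z.im} := fun w hw => ⟨hw.1.le, hw.2.le⟩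
      exact closure_minimal hsub hclosed hcl
    have e : (-I * FF n a z).re = (FF n a z).im := by simp [Complex.mul_re]
    rw [e]
    rcases eq_or_lt_of_le hcl2.2 with h | h
    · have : z = ((z.re : ℝ) : ℂ) := by
        apply Complex.ext <;> simp [← h]
      rw [this, FF_real_im]
    · have hn1 : ‖z‖ = 1 := by
        rcases lt_or_eq_of_le hcl2.1 with h' | h'
        · exact absurd (show z ∈ Dp from ⟨h', h⟩) hnot
        · exact h'
      have hz' : z = exp (z.arg * I) := by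
        have := Complex.norm_mul_exp_arg_mul_I z
        rw [hn1] at this
        simpa using this.symm
      rw [hz', FF_exp_im]
      exact H.hY _ (Complex.arg_nonneg_iff.2 hcl2.2) (Complex.arg_le_pi z)

lemma FF_im_pos (H : Hyp n a θm θ0 θp) : ∀ z ∈ Dp, 0 < (FF n a z).im := by
  -- one point
  have hg : HasDerivAt (fun s : ℝ => (FF n a ((s:ℂ) * I)).im) (a 1) 0 := by
    have h1 : HasDerivAt (fun s : ℝ => (s:ℂ) * I) I 0 := by
      have h0 : HasDerivAt (fun s : ℝ => (s:ℂ)) 1 0 := Complex.ofRealCLM.hasDerivAt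
      simpa using h0.mul_const I
    have h2 : HasDerivAt (FF n a) (FF' n a 0) (((0:ℝ):ℂ) * I) := by
      have := FF_hasDerivAt (n := n) (a := a) 0
      simpa using this
    have h3 := h2.comp (0:ℝ) h1
    rw [FF'_zero H.hn] at h3
    have h4 : HasDerivAt (fun s : ℝ => (FF n a ((s:ℂ) * I)).im) (((a 1 : ℂ) * I).im) 0 :=
      Complex.imCLM.hasFDerivAt.comp_hasDerivAt (0:ℝ) h3
    have e : ((a 1 : ℂ) * I).im = a 1 := by simp
    rw [e] at h4
    exact h4
  have h5 := hg.tendsto_slope_zero_right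
  have h6 : ∀ᶠ t : ℝ in 𝓝[>] (0:ℝ), 0 < (FF n a ((t:ℂ) * I)).im := by
    filter_upwards [h5.eventually (lt_mem_nhds H.a1), self_mem_nhdsWithin] with t ht ht0
    have e0 : (FF n a (((0:ℝ):ℂ) * I)).im = 0 := by
      simp [FF_zero H.a0]
    rw [e0, sub_zero, zero_add, smul_eq_mul] at ht
    have ht0' : (0:ℝ) < t := ht0
    have := mul_pos ht0' ht
    rwa [← mul_assoc, mul_inv_cancel₀ ht0'.ne', one_mul] at this
  obtain ⟨t, ht1, ht2⟩ := (h6.and (Ioo_mem_nhdsGT (zero_lt_one' ℝ))).exists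
  have hmem : ((t:ℂ) * I) ∈ Dp := by
    constructor
    · rw [norm_mul, Complex.norm_I, mul_one, Complex.norm_real, Real.norm_of_nonneg ht2.1.le]
      exact ht2.2
    · simpa using ht2.1
  have key := re_pos_of_nonneg isOpen_Dp convex_Dp.isPreconnected
    (f := fun z => -I * FF n a z) ?_ ?_ hmem ?_
  · intro z hz
    have := key z hz
    simpa [Complex.mul_re] using this
  · intro z _
    exact (((FF_hasDerivAt z).differentiableAt).const_mul _).differentiableWithinAt
  · intro z hz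
    have := FF_im_nonneg H z hz
    simpa [Complex.mul_re] using this
  · simpa [Complex.mul_re] using ht1

lemma FF_inj_real (H : Hyp n a θm θ0 θp) {x y : ℝ} (hx : |x| < 1) (hy : |y| < 1)
    (h : FF n a (x:ℂ) = FF n a (y:ℂ)) : x = y := by
  have hmono : StrictMonoOn (fun x : ℝ => (FF n a (x:ℂ)).re) (Ioo (-1) 1) := by
    have hd : ∀ x : ℝ, HasDerivAt (fun x : ℝ => (FF n a (x:ℂ)).re) ((FF' n a (x:ℂ)).re) x := by
      intro x
      have h1 : HasDerivAt (fun s : ℝ => (s:ℂ)) 1 x := Complex.ofRealCLM.hasDerivAt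
      have h2 := (FF_hasDerivAt (n := n) (a := a) (x:ℂ)).comp x h1
      rw [mul_one] at h2
      exact Complex.reCLM.hasFDerivAt.comp_hasDerivAt x h2
    apply strictMonoOn_of_deriv_pos (convex_Ioo _ _)
    · intro x _
      exact (hd x).continuousAt.continuousWithinAt
    · intro x hx
      rw [interior_Ioo] at hx
      rw [(hd x).deriv]
      have hxn : ‖(x:ℂ)‖ < 1 := by
        rw [Complex.norm_real, Real.norm_eq_abs, abs_lt]; exact hx
      have hp := Phi_re_pos H (x:ℂ) (by rw [mem_ball, dist_zero_right]; exact hxn)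
      rw [Psi_real hxn.le] at hp
      have e : (1:ℂ) - (x:ℂ) ^ 2 = ((1 - x ^ 2 : ℝ) : ℂ) := by push_cast; ring
      rw [e, ← Complex.ofReal_div, Complex.ofReal_re] at hp
      have h1 : 0 < 1 - x ^ 2 := by nlinarith [hx.1, hx.2]
      have hp2 : 0 < (FF' n a (x:ℂ)).re * (x ^ 2 - 2 * Real.cos θ0 * x + 1) *
        (kap θm (x:ℂ)).re * (kap θp (x:ℂ)).re := by
        by_contra hcon
        push Not at hcon
        have := div_nonpos_of_nonpos_of_nonneg hcon h1.le
        linarith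
      have k1 := kap_re_pos θm hxn
      have k2 := kap_re_pos θp hxn
      have k3 : 0 < x ^ 2 - 2 * Real.cos θ0 * x + 1 := by
        have c1 := Real.cos_le_one θ0
        have c2 := Real.neg_one_le_cos θ0
        have c3 := Real.sin_sq_add_cos_sq θ0
        nlinarith [sq_nonneg (x - Real.cos θ0), sq_nonneg (Real.cos θ0)]
      by_contra hcon
      push Not at hcon
      have : (FF' n a (x:ℂ)).re * (x ^ 2 - 2 * Real.cos θ0 * x + 1) *
        (kap θm (x:ℂ)).re * (kap θp (x:ℂ)).re ≤ 0 := by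
        have e : (FF' n a (x:ℂ)).re * (x ^ 2 - 2 * Real.cos θ0 * x + 1) *
          (kap θm (x:ℂ)).re * (kap θp (x:ℂ)).re = (FF' n a (x:ℂ)).re *
          ((x ^ 2 - 2 * Real.cos θ0 * x + 1) * (kap θm (x:ℂ)).re * (kap θp (x:ℂ)).re) := by ring
        rw [e]
        apply mul_nonpos_of_nonpos_of_nonneg hcon
        positivity
      linarith
  apply hmono.injOn (abs_lt.1 hx) (abs_lt.1 hy)
  simp only [h]

/-- **The criterion.** -/
theorem injOn_ball (H : Hyp n a θm θ0 θp) : InjOn (FF n a) (ball 0 1) := by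
  have hDp : InjOn (FF n a) Dp := by
    apply injOn_Dp (F' := FF' n a) H.h0 H.h1 H.h2 H.h3 (fun z _ => FF_hasDerivAt z)
    intro z hz
    exact Phi_re_pos H z (by rw [mem_ball, dist_zero_right]; exact hz.1)
  intro z hz w hw h
  rw [mem_ball, dist_zero_right] at hz hw
  have pos : ∀ z : ℂ, ‖z‖ < 1 → 0 < z.im → 0 < (FF n a z).im := fun z h1 h2 =>
    FF_im_pos H z ⟨h1, h2⟩
  have zer : ∀ z : ℂ, z.im = 0 → (FF n a z).im = 0 := by
    intro z h
    have : z = ((z.re : ℝ) : ℂ) := by apply Complex.ext <;> simp [h]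
    rw [this, FF_real_im]
  have neg : ∀ z : ℂ, ‖z‖ < 1 → z.im < 0 → (FF n a z).im < 0 := by
    intro z h1 h2
    have := pos ((starRingEnd ℂ) z) (by rwa [Complex.norm_conj]) (by rw [Complex.conj_im]; linarith)
    rw [FF_conj, Complex.conj_im] at this
    linarith
  rcases lt_trichotomy z.im 0 with h1 | h1 | h1
  · have hw1 : w.im < 0 := by
      have a1 := neg z hz h1
      rw [h] at a1
      rcases lt_trichotomy w.im 0 with h2 | h2 | h2
      · exact h2
      · have := zer w h2; linarith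
      · have := pos w hw h2; linarith
    have := hDp (show (starRingEnd ℂ) z ∈ Dp from
        ⟨by rwa [Complex.norm_conj], by rw [Complex.conj_im]; linarith⟩)
      (show (starRingEnd ℂ) w ∈ Dp from
        ⟨by rwa [Complex.norm_conj], by rw [Complex.conj_im]; linarith⟩)
      (by simp only [FF_conj, h])
    exact (starRingEnd ℂ).injective this
  · have hw1 : w.im = 0 := by
      have a1 := zer z h1
      rw [h] at a1
      rcases lt_trichotomy w.im 0 with h2 | h2 | h2
      · have := neg w hw h2; linarith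
      · exact h2
      · have := pos w hw h2; linarith
    have ez : z = ((z.re : ℝ) : ℂ) := by apply Complex.ext <;> simp [h1]
    have ew : w = ((w.re : ℝ) : ℂ) := by apply Complex.ext <;> simp [hw1]
    have : z.re = w.re := by
      apply FF_inj_real H
      · rw [← Real.norm_eq_abs, ← Complex.norm_real, ← ez]; exact hz
      · rw [← Real.norm_eq_abs, ← Complex.norm_real, ← ew]; exact hw
      · rw [← ez, ← ew]; exact h
    rw [ez, ew, this]
  · have hw1 : 0 < w.im := by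
      have a1 := pos z hz h1
      rw [h] at a1
      rcases lt_trichotomy w.im 0 with h2 | h2 | h2
      · have := neg w hw h2; linarith
      · have := zer w h2; linarith
      · exact h2
    exact hDp ⟨hz, h1⟩ ⟨hw, hw1⟩ h

end Pool.Agent.H.MP_921603_an
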