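import Pool.Agent.H.MP_921603_an.Kap

set_option autoImplicit false

namespace Pool.Agent.H.MP_921603_an

open Complex Metric Set Filter Topology

/-- The upper half of the unit disc. -/
def Dp : Set ℂ := {z | ‖z‖ < 1 ∧ 0 < z.im}

/-- The half strip. -/
def HS : Set ℂ := {ζ | -(Real.pi / 2) < ζ.re ∧ ζ.re < Real.pi / 2 ∧ 0 < ζ.im}

lemma HS_convex : Convex ℝ HS := by
  intro a ha b hb s t hs ht hst
  obtain ⟨a1, a2, a3⟩ := ha
  obtain ⟨b1, b2, b3⟩ := hb
  have hs1 : s = 1 - t := by linarith
  refine ⟨?_, ?_, ?_⟩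
  · simp only [add_re, real_smul, re_ofReal_mul]
    rcases eq_or_lt_of_le ht with h | h
    · have : s = 1 := by linarith
      rw [← h, this]; linarith
    · nlinarith [mul_nonneg hs (sub_nonneg.2 a1.le), mul_pos h (sub_pos.2 b1)]
  · simp only [add_re, real_smul, re_ofReal_mul]
    rcases eq_or_lt_of_le ht with h | h
    · have : s = 1 := by linarith
      rw [← h, this]; linarith
    · nlinarith [mul_nonneg hs (sub_nonneg.2 a2.le), mul_pos h (sub_pos.2 b2)]
  · simp only [add_im, real_smul, im_ofReal_mul]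
    rcases eq_or_lt_of_le ht with h | h
    · have : s = 1 := by linarith
      rw [← h, this]; linarith
    · nlinarith [mul_nonneg hs a3.le, mul_pos h b3]

lemma slit_of_im {w : ℂ} (h : 0 < w.im) : w ∈ slitPlane := Or.inr h.ne'

lemma im_sqrt_pos {w : ℂ} (h : 0 < w.im) : 0 < (Complex.sqrt w).im := by
  have h1 := re_sqrt_pos (slit_of_im h)
  have h2 : w.im = 2 * (Complex.sqrt w).re * (Complex.sqrt w).im := by
    conv_lhs => rw [← sqrt_mul_self' w]
    rw [Complex.mul_im]; ring
  rw [h2] at h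
  by_contra h3
  push Not at h3
  nlinarith

/-- product of two square roots of points of the upper half plane. -/
lemma im_sqrt_mul_sqrt_pos {a b : ℂ} (ha : 0 < a.im) (hb : 0 < b.im) :
    0 < (Complex.sqrt a * Complex.sqrt b).im := by
  have a1 := re_sqrt_pos (slit_of_im ha)
  have a2 := im_sqrt_pos ha
  have b1 := re_sqrt_pos (slit_of_im hb)
  have b2 := im_sqrt_pos hb
  rw [Complex.mul_im]
  positivity

/-- inverse of `z ↦ -(z + 1/z)/2`. -/
noncomputable def zz (w : ℂ) : ℂ := -w + Complex.sqrt (w - 1) * Complex.sqrt (w + 1)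

lemma zz_quad (w : ℂ) : (zz w) ^ 2 + 2 * w * zz w + 1 = 0 := by
  unfold zz
  have h1 := sqrt_mul_self' (w - 1)
  have h2 := sqrt_mul_self' (w + 1)
  linear_combination (Complex.sqrt (w + 1) * Complex.sqrt (w + 1)) * h1 + (w - 1) * h2

lemma zz_ne_zero (w : ℂ) : zz w ≠ 0 := by
  intro h
  have := zz_quad w
  rw [h] at this; simp at this

lemma normSq_pos' {z : ℂ} (h : z ≠ 0) : 0 < normSq z := normSq_pos.2 h

lemma zz_mem {w : ℂ} (hw : 0 < w.im) : zz w ∈ Dp := by
  have hne := zz_ne_zero w
  have hq := zz_quad w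
  have hN := normSq_pos' hne
  have hs : 0 < (zz w + w).im := by
    have : zz w + w = Complex.sqrt (w - 1) * Complex.sqrt (w + 1) := by unfold zz; ring
    rw [this]
    apply im_sqrt_mul_sqrt_pos <;> simpa using hw
  set z := zz w with hz
  -- z * conj
  have h1 : w = -(z + z⁻¹) / 2 := by
    field_simp
    linear_combination (1:ℂ) * hq
  have h2 : w.im = -(z.im - z.im / normSq z) / 2 := by
    rw [h1]
    have : (-(z + z⁻¹) / 2 : ℂ) = ((-1/2 : ℝ) : ℂ) * (z + z⁻¹) := by push_cast; ring
    rw [this, Complex.im_ofReal_mul, add_im, Complex.inv_im]; ring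
  have h3 : (z + w).im = (z.im + z.im / normSq z) / 2 := by
    rw [add_im, h2]; ring
  rw [h3] at hs
  have h4 : z.im + z.im / normSq z = z.im * (1 + 1 / normSq z) := by ring
  rw [h4] at hs
  have h5 : 0 < 1 + 1 / normSq z := by positivity
  have h6 : 0 < z.im := by
    by_contra h
    push Not at h
    nlinarith
  refine ⟨?_, h6⟩
  rw [h2] at hw
  have h7 : z.im - z.im / normSq z = z.im * (1 - 1 / normSq z) := by ring
  rw [h7] at hw
  have h8 : 1 - 1 / normSq z < 0 := by
    by_contra h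
    push Not at h
    nlinarith
  have h9 : normSq z < 1 := by
    have : 1 < 1 / normSq z := by linarith
    rwa [lt_div_iff₀ hN, one_mul] at this
  rw [Complex.normSq_eq_norm_sq] at h9
  have := norm_nonneg z
  nlinarith

lemma one_sub_sq_ne_zero {z : ℂ} (hz : ‖z‖ < 1) : (1 : ℂ) - z ^ 2 ≠ 0 := by
  intro h
  have h1 : z ^ 2 = 1 := by linear_combination -h
  have h2 : ‖z‖ ^ 2 = 1 := by rw [← norm_pow, h1]; simp
  have := norm_nonneg z
  nlinarith

lemma zz_hasDerivAt {w : ℂ} (hw : 0 < w.im) :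
    HasDerivAt zz (2 * (zz w) ^ 2 / (1 - (zz w) ^ 2)) w := by
  have hd : DifferentiableAt ℂ zz w := by
    unfold zz
    apply DifferentiableAt.add (by fun_prop)
    apply DifferentiableAt.mul
    · apply DifferentiableAt.comp (g := Complex.sqrt)
      · exact Complex.differentiableAt_sqrt (slit_of_im (by simpa using hw))
      · fun_prop
    · apply DifferentiableAt.comp (g := Complex.sqrt)
      · exact Complex.differentiableAt_sqrt (slit_of_im (by simpa using hw))
      · fun_prop
  have h := hd.hasDerivAt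
  have h2 : HasDerivAt (fun w => (zz w) ^ 2 + 2 * w * zz w + 1)
      (2 * zz w * deriv zz w + (2 * zz w + 2 * w * deriv zz w)) w := by
    have e1 := (h.pow 2)
    have e2 := ((hasDerivAt_id w).const_mul 2).mul h
    have e3 := (e1.add e2).add_const 1
    have e4 : HasDerivAt (fun w => (zz w) ^ 2 + 2 * w * zz w + 1) _ w := e3
    refine e4.congr_deriv ?_
    norm_num
  have h3 : HasDerivAt (fun w => (zz w) ^ 2 + 2 * w * zz w + 1) 0 w := by
    have : (fun w => (zz w) ^ 2 + 2 * w * zz w + 1) = fun _ => (0:ℂ) := by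
      funext w; exact zz_quad w
    rw [this]; exact hasDerivAt_const _ _
  have h4 := h2.unique h3
  have hne := zz_ne_zero w
  have hne2 := one_sub_sq_ne_zero (zz_mem hw).1
  have hq := zz_quad w
  have h5 : deriv zz w = 2 * (zz w) ^ 2 / (1 - (zz w) ^ 2) := by
    rw [eq_div_iff hne2]
    have h6 : (1 - zz w ^ 2) * deriv zz w = 2 * zz w ^ 2 := by
      linear_combination (-(zz w)) * h4 + (deriv zz w) * hq
    linear_combination h6
  rw [← h5]; exact h

lemma zz_surj {z : ℂ} (hz : z ∈ Dp) :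
    0 < (-(z + z⁻¹) / 2).im ∧ zz (-(z + z⁻¹) / 2) = z := by
  obtain ⟨hz1, hz2⟩ := hz
  have hne : z ≠ 0 := by intro h; rw [h] at hz2; simp at hz2
  have hN := normSq_pos' hne
  have hN1 : normSq z < 1 := by
    rw [Complex.normSq_eq_norm_sq]
    have := norm_nonneg z
    nlinarith
  have him : ∀ a : ℂ, (a / 2).im = a.im / 2 := by
    intro a
    rw [show a / 2 = ((1/2 : ℝ) : ℂ) * a by push_cast; ring, Complex.im_ofReal_mul]; ring
  have hw : 0 < (-(z + z⁻¹) / 2).im := by
    rw [him, neg_im, add_im, Complex.inv_im]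
    have : z.im < z.im / normSq z := by
      rw [lt_div_iff₀ hN]; nlinarith
    have e : -z.im / normSq z = -(z.im / normSq z) := by ring
    rw [e]; linarith
  refine ⟨hw, ?_⟩
  set w := -(z + z⁻¹) / 2 with hwd
  have key : Complex.sqrt (w - 1) * Complex.sqrt (w + 1) = z + w := by
    apply eq_of_sq_eq_of_im_pos
    · have h1 := sqrt_mul_self' (w - 1)
      have h2 := sqrt_mul_self' (w + 1)
      have h3 : z * z⁻¹ = 1 := mul_inv_cancel₀ hne
      have h4 : (z + w) * (z + w) = (w - 1) * (w + 1) := by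
        have : z * z + 2 * w * z + 1 = 0 := by
          rw [hwd]; linear_combination -h3
        linear_combination this
      rw [h4]
      linear_combination (Complex.sqrt (w + 1) * Complex.sqrt (w + 1)) * h1 + (w - 1) * h2
    · apply im_sqrt_mul_sqrt_pos <;> simpa using hw
    · have : z + w = (z - z⁻¹) / 2 := by rw [hwd]; ring
      rw [this, him, sub_im, Complex.inv_im]
      have e : -z.im / normSq z = -(z.im / normSq z) := by ring
      rw [e]
      have : 0 < z.im / normSq z := by positivity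
      linarith
  unfold zz
  rw [key]; ring

lemma sin_im_eq (ζ : ℂ) : (Complex.sin ζ).im = Real.cos ζ.re * Real.sinh ζ.im := by
  conv_lhs => rw [← re_add_im ζ, Complex.sin_add_mul_I]
  simp [Complex.mul_im, Complex.add_im, Complex.cos_ofReal_re, Complex.sinh_ofReal_re,
    Complex.cosh_ofReal_im, Complex.sin_ofReal_im]

lemma csin_sub_int_mul_pi (z : ℂ) (k : ℤ) :
    Complex.sin (z - k * Real.pi) = (((Int.negOnePow k : ℤˣ) : ℤ) : ℂ) * Complex.sin z := by
  exact Complex.sin_antiperiodic.sub_int_mul_eq k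

lemma exists_sin_eq {u : ℂ} (hu : 0 < u.im) : ∃ ζ ∈ HS, Complex.sin ζ = u := by
  obtain ⟨ζ₀, h0⟩ := Complex.sin_surjective u
  -- first normalise the real part to [-π/2, π/2]
  have step : ∃ ζ : ℂ, -(Real.pi/2) ≤ ζ.re ∧ ζ.re ≤ Real.pi/2 ∧ Complex.sin ζ = u := by
    set k : ℤ := round (ζ₀.re / Real.pi) with hk
    have hpi := Real.pi_pos
    have hr := abs_sub_round (ζ₀.re / Real.pi)
    rw [← hk] at hr
    have hr2 := abs_le.1 hr
    have e : ζ₀.re / Real.pi * Real.pi = ζ₀.re := div_mul_cancel₀ _ hpi.ne'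
    have b1 : -(Real.pi/2) ≤ ζ₀.re - k * Real.pi := by nlinarith [hr2.1]
    have b2 : ζ₀.re - k * Real.pi ≤ Real.pi/2 := by nlinarith [hr2.2]
    rcases Int.even_or_odd k with he | ho
    · refine ⟨ζ₀ - k * Real.pi, ?_, ?_, ?_⟩
      · simpa using b1
      · simpa using b2
      · rw [csin_sub_int_mul_pi, Int.negOnePow_even k he, h0]; simp
    · refine ⟨-(ζ₀ - k * Real.pi), ?_, ?_, ?_⟩
      · simp only [neg_re, sub_re]
        have : ((k:ℂ) * (Real.pi:ℂ)).re = k * Real.pi := by simp
        rw [this]; linarith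
      · simp only [neg_re, sub_re]
        have : ((k:ℂ) * (Real.pi:ℂ)).re = k * Real.pi := by simp
        rw [this]; linarith
      · rw [Complex.sin_neg, csin_sub_int_mul_pi, Int.negOnePow_odd k ho, h0]; simp
  obtain ⟨ζ, h1, h2, h3⟩ := step
  have him := sin_im_eq ζ
  rw [h3] at him
  rw [him] at hu
  have hc : 0 ≤ Real.cos ζ.re := Real.cos_nonneg_of_mem_Icc ⟨h1, h2⟩
  have hc' : 0 < Real.cos ζ.re := by
    rcases lt_or_eq_of_le hc with h | h
    · exact h
    · rw [← h] at hu; simp at hu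
  have hs : 0 < Real.sinh ζ.im := by
    by_contra h; push Not at h; nlinarith
  refine ⟨ζ, ⟨?_, ?_, ?_⟩, h3⟩
  · rcases lt_or_eq_of_le h1 with h | h
    · exact h
    · rw [← h] at hc'; simp at hc'
  · rcases lt_or_eq_of_le h2 with h | h
    · exact h
    · rw [h] at hc'; simp at hc'
  · exact Real.sinh_pos_iff.1 hs

end Pool.Agent.H.MP_921603_an
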