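import Mathlib

set_option autoImplicit false

namespace Pool.Agent.H.MP_921603_an

open Complex Metric Set Filter Topology

lemma norm_exp_neg_le_one_iff {w : ℂ} : ‖exp (-w)‖ ≤ 1 ↔ 0 ≤ w.re := by
  rw [Complex.norm_exp, neg_re]
  constructor
  · intro h
    have := (Real.exp_le_one_iff).1 h
    linarith
  · intro h
    exact Real.exp_le_one_iff.2 (by linarith)

/-- Minimum principle for the real part on a bounded set. -/
lemma re_nonneg_of_frontier {f : ℂ → ℂ} {U : Set ℂ} (hU : Bornology.IsBounded U)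
    (hf : DiffContOnCl ℂ f U) (hb : ∀ z ∈ frontier U, 0 ≤ (f z).re) :
    ∀ z ∈ closure U, 0 ≤ (f z).re := by
  intro z hz
  rw [← norm_exp_neg_le_one_iff]
  have h1 : DiffContOnCl ℂ (fun z => exp (-(f z))) U :=
    (Complex.differentiable_exp.comp_diffContOnCl hf.neg)
  exact Complex.norm_le_of_forall_mem_frontier_norm_le hU h1
    (fun w hw => norm_exp_neg_le_one_iff.2 (hb w hw)) hz

/-- Strict form: nonnegative real part on a connected open set and positive somewhere
implies positive everywhere. -/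
lemma re_pos_of_nonneg {f : ℂ → ℂ} {U : Set ℂ} (hU : IsOpen U) (hc : IsPreconnected U)
    (hf : DifferentiableOn ℂ f U) (hnn : ∀ z ∈ U, 0 ≤ (f z).re) {z₀ : ℂ} (hz₀ : z₀ ∈ U)
    (h0 : 0 < (f z₀).re) : ∀ z ∈ U, 0 < (f z).re := by
  intro z hz
  rcases lt_or_eq_of_le (hnn z hz) with h | h
  · exact h
  exfalso
  have h1 : DifferentiableOn ℂ (fun z => exp (-(f z))) U :=
    (Complex.differentiable_exp.comp_differentiableOn hf.neg)
  have hmax : IsMaxOn (norm ∘ (fun z => exp (-(f z)))) U z := by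
    intro w hw
    simp only [Function.comp, mem_ofPred_eq]
    have e1 : ‖exp (-(f z))‖ = 1 := by
      rw [Complex.norm_exp, neg_re, ← h]; simp
    rw [e1]
    exact norm_exp_neg_le_one_iff.2 (hnn w hw)
  have h2 := Complex.eqOn_of_isPreconnected_of_isMaxOn_norm hc hU h1 hz hmax hz₀
  have h3 : ‖exp (-(f z₀))‖ = ‖exp (-(f z))‖ := by
    simp only [Function.const] at h2
    rw [h2]
  rw [Complex.norm_exp, Complex.norm_exp, neg_re, neg_re, ← h] at h3
  have h4 := Real.exp_injective h3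
  linarith

lemma half_le_re_inv_one_sub {z : ℂ} (hz : ‖z‖ < 1) : 1/2 ≤ (1 / (1 - z)).re := by
  have hne : (1 : ℂ) - z ≠ 0 := by
    intro h
    have : z = 1 := by linear_combination -h
    rw [this] at hz; simp at hz
  have h2 : 0 < normSq (1 - z) := Complex.normSq_pos.2 hne
  rw [one_div (1 - z), Complex.inv_re, div_le_div_iff₀ (by norm_num) h2]
  have h3 : normSq z < 1 := by
    rw [Complex.normSq_eq_norm_sq]
    have := norm_nonneg z
    nlinarith
  rw [Complex.normSq_apply] at h3 ⊢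
  simp only [sub_re, one_re, sub_im, one_im]
  nlinarith

/-- The circle minimum principle with simple poles at `± 1`. -/
lemma re_nonneg_of_circle {Ψ : ℂ → ℂ} (hd : DifferentiableOn ℂ Ψ (ball 0 1))
    (hc : ContinuousOn Ψ (closedBall 0 1))
    (h1 : DifferentiableAt ℂ Ψ 1) (hm1 : DifferentiableAt ℂ Ψ (-1))
    (r1 : (Ψ 1).im = 0) (p1 : 0 ≤ (Ψ 1).re) (rm1 : (Ψ (-1)).im = 0) (pm1 : 0 ≤ (Ψ (-1)).re)
    (hb : ∀ z : ℂ, ‖z‖ = 1 → z ≠ 1 → z ≠ -1 → 0 ≤ (Ψ z / (1 - z ^ 2)).re) :
    ∀ z ∈ ball (0:ℂ) 1, 0 ≤ (Ψ z / (1 - z ^ 2)).re := by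
  set N : ℂ → ℂ := fun z => Ψ z - (Ψ 1 * (1 + z) / 2 + Ψ (-1) * (1 - z) / 2) with hN
  have N1 : N 1 = 0 := by simp only [hN]; ring
  have Nm1 : N (-1) = 0 := by simp only [hN]; ring
  have Nd : DifferentiableOn ℂ N (ball 0 1) := by
    apply hd.sub; fun_prop
  have Nc : ContinuousOn N (closedBall 0 1) := by
    apply hc.sub; fun_prop
  have Nd1 : DifferentiableAt ℂ N 1 := by apply h1.sub; fun_prop
  have Ndm1 : DifferentiableAt ℂ N (-1) := by apply hm1.sub; fun_prop
  set N1' : ℂ → ℂ := dslope N 1 with hN1'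
  set R : ℂ → ℂ := dslope N1' (-1) with hR
  have hneg : (-1 : ℂ) ≠ 1 := by norm_num
  -- values
  have N1'val : ∀ z : ℂ, z ≠ 1 → N1' z = N z / (z - 1) := by
    intro z hz
    rw [hN1', dslope_of_ne _ hz, slope_def_field, N1, sub_zero]
  have N1'm1 : N1' (-1) = 0 := by rw [N1'val _ hneg, Nm1]; simp
  have Rval : ∀ z : ℂ, z ≠ 1 → z ≠ -1 → R z = N z / (z - 1) / (z + 1) := by
    intro z hz hz'
    rw [hR, dslope_of_ne _ hz', slope_def_field, N1'm1, sub_zero, N1'val z hz]
    ring
  -- regularity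
  have one_nmem : (1:ℂ) ∉ ball (0:ℂ) 1 := by simp
  have mone_nmem : (-1:ℂ) ∉ ball (0:ℂ) 1 := by simp
  have N1'd : DifferentiableOn ℂ N1' (ball 0 1) := by
    rw [hN1', differentiableOn_dslope_of_notMem one_nmem]; exact Nd
  have Rd : DifferentiableOn ℂ R (ball 0 1) := by
    rw [hR, differentiableOn_dslope_of_notMem mone_nmem]; exact N1'd
  have N1'c : ContinuousOn N1' (closedBall 0 1) := by
    intro z hz
    by_cases h : z = 1
    · rw [h, hN1']
      exact (continuousAt_dslope_same.2 Nd1).continuousWithinAt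
    · rw [hN1', continuousWithinAt_dslope_of_ne h]
      exact Nc z hz
  have N1'dm1 : DifferentiableAt ℂ N1' (-1) := by
    rw [hN1', differentiableAt_dslope_of_ne hneg]; exact Ndm1
  have Rc : ContinuousOn R (closedBall 0 1) := by
    intro z hz
    by_cases h : z = -1
    · rw [h, hR]
      exact (continuousAt_dslope_same.2 N1'dm1).continuousWithinAt
    · rw [hR, continuousWithinAt_dslope_of_ne h]
      exact N1'c z hz
  -- relation
  have rel : ∀ z : ℂ, z ≠ 1 → z ≠ -1 →
      Ψ z / (1 - z ^ 2) = Ψ 1 / 2 * (1 / (1 - z)) + Ψ (-1) / 2 * (1 / (1 - (-z))) - R z := by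
    intro z hz hz'
    rw [Rval z hz hz']
    have e1 : (1:ℂ) - z ≠ 0 := fun h => hz (by linear_combination -h)
    have e2 : (1:ℂ) - (-z) ≠ 0 := fun h => hz' (by linear_combination h)
    have e3 : z - 1 ≠ 0 := fun h => hz (by linear_combination h)
    have e4 : z + 1 ≠ 0 := fun h => hz' (by linear_combination h)
    have e5 : (1:ℂ) - z^2 ≠ 0 := by
      rw [show (1:ℂ) - z^2 = (1 - z) * (1 - (-z)) by ring]; exact mul_ne_zero e1 e2
    simp only [hN]
    field_simp
    ring
  set c : ℝ := ((Ψ 1).re + (Ψ (-1)).re) / 4 with hc'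
  have rePsi : ∀ w : ℂ, (Ψ 1 / 2 * w).re = (Ψ 1).re / 2 * w.re := by
    intro w
    have : Ψ 1 = (((Ψ 1).re : ℝ) : ℂ) := by
      apply Complex.ext <;> simp [r1]
    rw [this]
    rw [show (((Ψ 1).re : ℝ) : ℂ) / 2 = ((((Ψ 1).re / 2 : ℝ)) : ℂ) by push_cast; ring]
    rw [Complex.re_ofReal_mul]; simp
  have rePsi' : ∀ w : ℂ, (Ψ (-1) / 2 * w).re = (Ψ (-1)).re / 2 * w.re := by
    intro w
    have : Ψ (-1) = (((Ψ (-1)).re : ℝ) : ℂ) := by
      apply Complex.ext <;> simp [rm1]
    rw [this]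
    rw [show (((Ψ (-1)).re : ℝ) : ℂ) / 2 = ((((Ψ (-1)).re / 2 : ℝ)) : ℂ) by push_cast; ring]
    rw [Complex.re_ofReal_mul]; simp
  have half_circ : ∀ z : ℂ, ‖z‖ = 1 → z ≠ 1 → (1 / (1 - z)).re = 1/2 := by
    intro z hz hz1
    have hne : (1 : ℂ) - z ≠ 0 := fun h => hz1 (by linear_combination -h)
    have h2 : 0 < normSq (1 - z) := Complex.normSq_pos.2 hne
    rw [one_div (1 - z), Complex.inv_re, div_eq_div_iff h2.ne' (by norm_num)]
    have h3 : normSq z = 1 := by
      rw [Complex.normSq_eq_norm_sq, hz]; norm_num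
    rw [Complex.normSq_apply] at h3 ⊢
    simp only [sub_re, one_re, sub_im, one_im]
    nlinarith
  have hRb' : ∀ z : ℂ, ‖z‖ = 1 → z ≠ 1 → z ≠ -1 → 0 ≤ (c - R z).re := by
    intro z hz hz1 hz2
    have h := hb z hz hz1 hz2
    rw [rel z hz1 hz2, sub_re, add_re, rePsi, rePsi', half_circ z hz hz1,
      half_circ (-z) (by rw [norm_neg]; exact hz) (fun h => hz2 (by linear_combination -h))] at h
    rw [sub_re, ofReal_re, hc']
    linarith
  -- extend to ± 1
  have lim : ∀ (a : ℂ), (a = 1 ∨ a = -1) → 0 ≤ (c - R a).re := by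
    intro a ha
    have hna : ‖a‖ = 1 := by rcases ha with h | h <;> rw [h] <;> simp
    -- sequence
    let u : ℕ → ℂ := fun n => a * exp (((1 / ((n:ℝ) + 1) : ℝ) : ℂ) * I)
    have hu : Tendsto u atTop (𝓝 a) := by
      have h1 : Tendsto (fun n : ℕ => (((1 / ((n:ℝ) + 1) : ℝ) : ℂ) * I)) atTop (𝓝 (((0:ℝ):ℂ) * I)) := by
        apply Tendsto.mul_const
        exact (Complex.continuous_ofReal.tendsto 0).comp tendsto_one_div_add_atTop_nhds_zero_nat
      have h2 := (Complex.continuous_exp.tendsto _).comp h1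
      have h3 := h2.const_mul a
      simpa [u, Function.comp_def] using h3
    have hun : ∀ n, ‖u n‖ = 1 := by
      intro n
      simp only [u]
      rw [norm_mul, Complex.norm_exp_ofReal_mul_I, hna, mul_one]
    have hsin : ∀ n : ℕ, 0 < Real.sin (1 / ((n:ℝ) + 1)) := by
      intro n
      have hp : (0:ℝ) < 1 / ((n:ℝ) + 1) := by positivity
      apply Real.sin_pos_of_pos_of_lt_pi hp
      have : 1 / ((n:ℝ) + 1) ≤ 1 := by
        rw [div_le_one (by positivity)]
        have : (0:ℝ) ≤ n := Nat.cast_nonneg n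
        linarith
      linarith [Real.pi_gt_three]
    have huim : ∀ n, (u n).im ≠ 0 := by
      intro n
      have e : (exp (((1 / ((n:ℝ) + 1) : ℝ) : ℂ) * I)).im = Real.sin (1 / ((n:ℝ) + 1)) :=
        Complex.exp_ofReal_mul_I_im _
      rcases ha with h | h
      · simp only [u]; rw [h, one_mul, e]; exact (hsin n).ne'
      · simp only [u]; rw [h, neg_one_mul, neg_im, e]; exact neg_ne_zero.2 (hsin n).ne'
    have hcw : ContinuousWithinAt R (closedBall 0 1) a := Rc a (by
      rw [mem_closedBall, dist_zero_right, hna])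
    have htend : Tendsto (fun n => (c - R (u n)).re) atTop (𝓝 ((c - R a).re)) := by
      have h1 : Tendsto (fun n => R (u n)) atTop (𝓝 (R a)) := by
        apply hcw.tendsto.comp
        rw [tendsto_nhdsWithin_iff]
        refine ⟨hu, Eventually.of_forall fun n => ?_⟩
        rw [mem_closedBall, dist_zero_right, hun]
      exact (Complex.continuous_re.tendsto _).comp (tendsto_const_nhds.sub h1)
    apply ge_of_tendsto' htend
    intro n
    apply hRb' _ (hun n)
    · intro h; apply huim n; rw [h]; simp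
    · intro h; apply huim n; rw [h]; simp
  have hRfr : ∀ z ∈ frontier (ball (0:ℂ) 1), 0 ≤ (c - R z).re := by
    intro z hz
    rw [frontier_ball _ one_ne_zero, mem_sphere, dist_zero_right] at hz
    by_cases h1 : z = 1
    · exact lim z (Or.inl h1)
    by_cases h2 : z = -1
    · exact lim z (Or.inr h2)
    exact hRb' z hz h1 h2
  have hRdc : DiffContOnCl ℂ (fun z => (c:ℂ) - R z) (ball 0 1) := by
    constructor
    · exact (differentiableOn_const _).sub Rd
    · rw [closure_ball _ one_ne_zero]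
      exact continuousOn_const.sub Rc
  have hRall := re_nonneg_of_frontier isBounded_ball hRdc hRfr
  intro z hz
  have hz' : ‖z‖ < 1 := by rwa [mem_ball, dist_zero_right] at hz
  have hz1 : z ≠ 1 := by intro h; rw [h] at hz'; simp at hz'
  have hz2 : z ≠ -1 := by intro h; rw [h] at hz'; simp at hz'
  rw [rel z hz1 hz2, sub_re, add_re, rePsi, rePsi']
  have a1 := half_le_re_inv_one_sub hz'
  have a2 := half_le_re_inv_one_sub (z := -z) (by rwa [norm_neg])
  have a3 := hRall z (subset_closure hz)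
  simp only [sub_re, ofReal_re] at a3
  have b1 : (Ψ 1).re / 2 * (1/2) ≤ (Ψ 1).re / 2 * (1 / (1 - z)).re :=
    mul_le_mul_of_nonneg_left a1 (by linarith)
  have b2 : (Ψ (-1)).re / 2 * (1/2) ≤ (Ψ (-1)).re / 2 * (1 / (1 - -z)).re :=
    mul_le_mul_of_nonneg_left a2 (by linarith)
  rw [hc'] at a3
  linarith

/-- Noshiro-Warschawski: a holomorphic function on a convex open set whose derivative has
positive real part is injective. -/
lemma injOn_of_re_deriv_pos {f f' : ℂ → ℂ} {S : Set ℂ} (hS : Convex ℝ S)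
    (hf : ∀ z ∈ S, HasDerivAt f (f' z) z) (hpos : ∀ z ∈ S, 0 < (f' z).re) : InjOn f S := by
  intro a ha b hb hab
  by_contra hne
  -- g s = Re (f (a + s (b - a)) / (b - a))
  have hba : b - a ≠ 0 := sub_ne_zero.2 (Ne.symm hne)
  let γ : ℝ → ℂ := fun s => a + (s:ℂ) * (b - a)
  have hγ : ∀ s ∈ Icc (0:ℝ) 1, γ s ∈ S := by
    intro s hs
    have := hS ha hb (sub_nonneg.2 hs.2) hs.1 (by ring : (1 - s) + s = 1)
    convert this using 1
    simp only [γ, Complex.real_smul]
    push_cast; ring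
  let g : ℝ → ℝ := fun s => (f (γ s) / (b - a)).re
  have hg : ∀ s ∈ Icc (0:ℝ) 1, HasDerivAt g ((f' (γ s)).re) s := by
    intro s hs
    have h1 : HasDerivAt γ (b - a) s := by
      have h0 : HasDerivAt (fun s : ℝ => (s:ℂ)) 1 s := Complex.ofRealCLM.hasDerivAt
      have := (h0.mul_const (b - a)).const_add a
      simpa [γ] using this
    have h2 := (hf (γ s) (hγ s hs)).comp s h1
    have h3 := h2.div_const (b - a)
    rw [mul_div_assoc, div_self hba, mul_one] at h3
    exact (Complex.reCLM.hasFDerivAt.comp_hasDerivAt s h3)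
  have hmono : StrictMonoOn g (Icc 0 1) := by
    apply strictMonoOn_of_deriv_pos (convex_Icc 0 1)
    · intro s hs
      exact (hg s hs).continuousAt.continuousWithinAt
    · intro s hs
      rw [interior_Icc] at hs
      rw [(hg s (Ioo_subset_Icc_self hs)).deriv]
      exact hpos _ (hγ s (Ioo_subset_Icc_self hs))
  have h01 := hmono (left_mem_Icc.2 zero_le_one) (right_mem_Icc.2 zero_le_one) zero_lt_one
  simp only [g, γ] at h01
  have e0 : a + ((0:ℝ):ℂ) * (b - a) = a := by simp
  have e1 : a + ((1:ℝ):ℂ) * (b - a) = b := by simp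
  rw [e0, e1, hab] at h01
  exact lt_irrefl _ h01

end Pool.Agent.H.MP_921603_an
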