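import Pool.Agent.H.MP_921603_an.Trig

set_option autoImplicit false

namespace Pool.Agent.H.MP_921603_an

open Real

lemma PP_half (h y : ℝ) : cos (2 * h) - cos y = 2 * (sin (y / 2) ^ 2 - sin h ^ 2) := by
  have h1 := Real.cos_sq' h
  have h2 := Real.cos_sq' (y / 2)
  rw [Real.cos_two_mul, show y = 2 * (y / 2) by ring, Real.cos_two_mul]
  rw [show 2 * (y / 2) / 2 = y / 2 by ring]
  linarith

lemma sin_sq_sub (x h : ℝ) : sin x ^ 2 - sin h ^ 2 = sin (x + h) * sin (x - h) := by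
  rw [Real.sin_add, Real.sin_sub]
  have h1 := Real.sin_sq_add_cos_sq x
  have h2 := Real.sin_sq_add_cos_sq h
  linear_combination (-sin x ^ 2) * h2 + (sin h ^ 2) * h1

/-- (T1) -/
lemma sin_div_P_anti {b y y2 : ℝ} (hb0 : 0 ≤ b) (hb1 : b ≤ 1) (hy : 0 ≤ y) (h12 : y ≤ y2)
    (h2 : y2 ≤ π) : sin y2 * (b - cos y) ≤ sin y * (b - cos y2) := by
  have e : sin y * (b - cos y2) - sin y2 * (b - cos y) =
      2 * sin ((y2 - y) / 2) * (cos ((y2 - y) / 2) - b * cos ((y + y2) / 2)) := by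
    have e1 : sin (y2 - y) = 2 * sin ((y2 - y) / 2) * cos ((y2 - y) / 2) := by
      rw [← Real.sin_two_mul]; congr 1; ring
    have e2 : sin y - sin y2 = -(2 * sin ((y2 - y) / 2) * cos ((y + y2) / 2)) := by
      have := Real.sin_sub_sin y y2
      rw [this]
      have : (y - y2) / 2 = -((y2 - y) / 2) := by ring
      rw [this, Real.sin_neg]; ring
    have e3 : sin (y2 - y) = sin y2 * cos y - cos y2 * sin y := Real.sin_sub y2 y
    linear_combination b * e2 + e1 - e3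
  have hd : 0 ≤ sin ((y2 - y) / 2) :=
    Real.sin_nonneg_of_nonneg_of_le_pi (by linarith) (by linarith)
  have hc0 : 0 ≤ cos ((y2 - y) / 2) := Real.cos_nonneg_of_mem_Icc ⟨by linarith, by linarith⟩
  have hc1 : cos ((y + y2) / 2) ≤ cos ((y2 - y) / 2) :=
    Real.cos_le_cos_of_nonneg_of_le_pi (by linarith) (by linarith) (by linarith)
  have hbc : b * cos ((y + y2) / 2) ≤ cos ((y2 - y) / 2) := by
    rcases le_total 0 (cos ((y + y2) / 2)) with h | h
    · nlinarith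
    · nlinarith [mul_nonneg hb0 (neg_nonneg.2 h)]
  have : 0 ≤ 2 * sin ((y2 - y) / 2) * (cos ((y2 - y) / 2) - b * cos ((y + y2) / 2)) := by
    apply mul_nonneg (by linarith) (by linarith)
  linarith

/-- (T5) -/
lemma T5 {M : ℕ} (hM : 5 ≤ M) {h : ℝ} (hh : (M:ℝ) * h = π / 2) :
    cos h ≤ M * cos (2 * h) * sin h := by
  have hMpos : (0:ℝ) < M := by positivity
  have hM5 : (5:ℝ) ≤ M := by exact_mod_cast hM
  have hpos : 0 < h := by
    by_contra hcon
    push Not at hcon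
    nlinarith [Real.pi_pos]
  have hle : h ≤ π / 10 := by
    rw [le_div_iff₀ (by norm_num : (0:ℝ) < 10)]
    nlinarith
  have hpi1 : π < 3.1416 := Real.pi_lt_d4
  have hpi2 : 3.1415 < π := Real.pi_gt_d4
  have hle2 : h ≤ 0.31416 := by linarith
  have h1 : h - h ^ 3 / 6 < sin h := Real.sin_gt_sub_cube hpos
  have h2 : 1 - (2 * h) ^ 2 / 2 ≤ cos (2 * h) := Real.one_sub_sq_div_two_le_cos
  have h3 : h ^ 2 ≤ 0.0987 := by nlinarith
  have h4 : 0.8026 ≤ cos (2 * h) := by nlinarith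
  have h5 : 1.53 ≤ (M:ℝ) * sin h := by
    have e : (M:ℝ) * (h - h ^ 3 / 6) = π / 2 * (1 - h ^ 2 / 6) := by
      rw [← hh]; ring
    have : (M:ℝ) * (h - h ^ 3 / 6) ≤ M * sin h := by
      apply mul_le_mul_of_nonneg_left h1.le hMpos.le
    nlinarith
  have h6 : cos h ≤ 1 := Real.cos_le_one h
  nlinarith

/-- (T6) -/
lemma T6 {h : ℝ} (hpos : 0 < h) (hle : h ≤ π / 10) :
    sin (2 * h) ^ 2 ≤ cos (2 * h) * sin (5 * h / 2) ^ 2 := by
  have hpi1 : π < 3.1416 := Real.pi_lt_d4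
  have hle2 : h ≤ 0.31416 := by linarith
  set u := h / 2 with hu
  have hu0 : 0 < u := by rw [hu]; linarith
  have hu1 : u ≤ 0.15708 := by rw [hu]; linarith
  have e1 : 2 * h = 4 * u := by rw [hu]; ring
  have e2 : 5 * h / 2 = 5 * u := by rw [hu]; ring
  rw [e1, e2]
  have hu2 : u ^ 2 ≤ 0.024675 := by nlinarith
  have c4 : 0.8026 ≤ cos (4 * u) := by
    have : 1 - (4 * u) ^ 2 / 2 ≤ cos (4 * u) := Real.one_sub_sq_div_two_le_cos
    nlinarith
  have c1 : 0.9876 ≤ cos u := by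
    have : 1 - u ^ 2 / 2 ≤ cos u := Real.one_sub_sq_div_two_le_cos
    nlinarith
  have s1 : 0 < sin u := Real.sin_pos_of_pos_of_lt_pi hu0 (by linarith [Real.pi_gt_three])
  have s4 : 0 < sin (4 * u) := Real.sin_pos_of_pos_of_lt_pi (by linarith) (by linarith [Real.pi_gt_three])
  have s4le : sin (4 * u) ≤ 4 * sin u := by
    have a1 : sin (4 * u) = 2 * sin (2 * u) * cos (2 * u) := by
      rw [← Real.sin_two_mul]; congr 1; ring
    have a2 : sin (2 * u) = 2 * sin u * cos u := Real.sin_two_mul u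
    have a3 : cos (2 * u) ≤ 1 := Real.cos_le_one _
    have a4 : cos u ≤ 1 := Real.cos_le_one _
    have a5 : 0 ≤ sin (2 * u) := Real.sin_nonneg_of_nonneg_of_le_pi (by linarith) (by linarith [Real.pi_gt_three])
    rw [a1]
    nlinarith
  have s5 : sin (5 * u) = sin (4 * u) * cos u + cos (4 * u) * sin u := by
    rw [← Real.sin_add]; congr 1; ring
  have key : 1.15 * sin (4 * u) ≤ sin (5 * u) := by
    rw [s5]
    nlinarith [mul_pos s4 s1]
  have : (1.15 * sin (4 * u)) ^ 2 ≤ sin (5 * u) ^ 2 := by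
    apply pow_le_pow_left₀ (by positivity) key
  nlinarith [sq_nonneg (sin (4 * u)), mul_nonneg (sub_nonneg.2 c4) (sq_nonneg (sin (5 * u)))]

section
variable {M : ℕ} {h y : ℝ}

/-- bounds for `P(y)`. -/
lemma P_sq_lower (hpos : 0 < h) (hy1 : 6 * h ≤ y) (hy2 : y + 2 * h ≤ π) :
    0 < cos (2 * h) - cos y ∧
    4 * sin (y / 2 + h) ^ 2 * sin (2 * h) ^ 2 ≤ (cos (2 * h) - cos y) ^ 2 := by
  have e : cos (2 * h) - cos y = 2 * (sin (y / 2 + h) * sin (y / 2 - h)) := by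
    rw [PP_half, sin_sq_sub]
  have s1 : 0 < sin (y / 2 + h) := Real.sin_pos_of_pos_of_lt_pi (by linarith) (by linarith)
  have s2 : 0 < sin (2 * h) := Real.sin_pos_of_pos_of_lt_pi (by linarith) (by linarith)
  have s3 : sin (2 * h) ≤ sin (y / 2 - h) :=
    Real.sin_le_sin_of_le_of_le_pi_div_two (by linarith) (by linarith) (by linarith)
  rw [e]
  refine ⟨by have := mul_pos s1 (s2.trans_le s3); linarith, ?_⟩
  have : sin (2 * h) ^ 2 ≤ sin (y / 2 - h) ^ 2 := pow_le_pow_left₀ s2.le s3 2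
  nlinarith [sq_nonneg (sin (y / 2 + h)), mul_le_mul_of_nonneg_left this (sq_nonneg (sin (y / 2 + h)))]

lemma P_upper {y2 : ℝ} (hpos : 0 < h) (hy0 : 0 ≤ y2) (hy1 : y2 ≤ y + 2 * h)
    (hy2 : y + 2 * h ≤ π) : cos (2 * h) - cos y2 ≤ 2 * sin (y / 2 + h) ^ 2 := by
  rw [PP_half]
  have s1 : sin (y2 / 2) ≤ sin (y / 2 + h) :=
    Real.sin_le_sin_of_le_of_le_pi_div_two (by linarith) (by linarith) (by linarith)
  have s0 : 0 ≤ sin (y2 / 2) := Real.sin_nonneg_of_nonneg_of_le_pi (by linarith) (by linarith)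
  have : sin (y2 / 2) ^ 2 ≤ sin (y / 2 + h) ^ 2 := pow_le_pow_left₀ s0 s1 2
  nlinarith [sq_nonneg (sin h)]

/-- (T2) -/
lemma T2 (hM : 5 ≤ M) (hh : (M:ℝ) * h = π / 2) (hy1 : 6 * h ≤ y) (hy2 : y + 2 * h ≤ π) :
    2 * sin (2 * h) ^ 2 * (sin y + sin (y + 2 * h)) * (cos (2 * h) - cos (y + 2 * h)) ≤
    M * cos (2 * h) * ((cos (2 * h) - cos (y + 2 * h)) - (cos (2 * h) - cos y)) *
      (cos (2 * h) - cos y) ^ 2 := by
  have hMpos : (0:ℝ) < M := by positivity
  have hpos : 0 < h := by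
    by_contra hcon
    push Not at hcon
    nlinarith [Real.pi_pos]
  have hM5 : (5:ℝ) ≤ M := by exact_mod_cast hM
  have hle : h ≤ π / 10 := by
    rw [le_div_iff₀ (by norm_num : (0:ℝ) < 10)]
    nlinarith
  obtain ⟨P0, P1⟩ := P_sq_lower hpos hy1 hy2
  have P2 := P_upper (y := y) (y2 := y + 2 * h) hpos (by linarith) le_rfl hy2
  have e1 : (cos (2 * h) - cos (y + 2 * h)) - (cos (2 * h) - cos y) =
      2 * sin (y + h) * sin h := by
    have := Real.cos_sub_cos y (y + 2 * h)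
    have a : (y + (y + 2 * h)) / 2 = y + h := by ring
    have b : (y - (y + 2 * h)) / 2 = -h := by ring
    rw [a, b, Real.sin_neg] at this
    linarith
  have e2 : sin y + sin (y + 2 * h) = 2 * sin (y + h) * cos h := by
    have := Real.sin_add_sin y (y + 2 * h)
    have a : (y + (y + 2 * h)) / 2 = y + h := by ring
    have b : (y - (y + 2 * h)) / 2 = -h := by ring
    rw [a, b, Real.cos_neg] at this
    linarith
  rw [e1, e2]
  have t5 := T5 hM hh
  have sy : 0 ≤ sin (y + h) := Real.sin_nonneg_of_nonneg_of_le_pi (by linarith) (by linarith)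
  have ch : 0 ≤ cos h := Real.cos_nonneg_of_mem_Icc ⟨by linarith, by linarith⟩
  have s2 : 0 ≤ sin (2 * h) ^ 2 := sq_nonneg _
  have c2 : 0 ≤ cos (2 * h) := Real.cos_nonneg_of_mem_Icc ⟨by linarith, by linarith⟩
  have sh : 0 ≤ sin h := Real.sin_nonneg_of_nonneg_of_le_pi hpos.le (by linarith)
  set Sg := sin (y / 2 + h) ^ 2 with hSg
  have hSg0 : 0 ≤ Sg := sq_nonneg _
  calc 2 * sin (2 * h) ^ 2 * (2 * sin (y + h) * cos h) * (cos (2 * h) - cos (y + 2 * h))
      ≤ 2 * sin (2 * h) ^ 2 * (2 * sin (y + h) * cos h) * (2 * Sg) := by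
        apply mul_le_mul_of_nonneg_left P2
        positivity
    _ = (2 * sin (y + h)) * (cos h) * (4 * Sg * sin (2 * h) ^ 2) := by ring
    _ ≤ (2 * sin (y + h)) * (M * cos (2 * h) * sin h) * (4 * Sg * sin (2 * h) ^ 2) := by
        apply mul_le_mul_of_nonneg_right _ (by positivity)
        apply mul_le_mul_of_nonneg_left t5 (by positivity)
    _ ≤ (2 * sin (y + h)) * (M * cos (2 * h) * sin h) * (cos (2 * h) - cos y) ^ 2 := by
        apply mul_le_mul_of_nonneg_left P1 (by positivity)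
    _ = _ := by ring

/-- (T4) -/
lemma T4 {y2 : ℝ} (hpos : 0 < h) (hle : h ≤ π / 10) (hy1 : 7 * h ≤ y) (hy2 : y + 2 * h ≤ π)
    (h0 : 0 ≤ y2) (hy3 : y2 ≤ y + 2 * h) :
    2 * sin (2 * h) ^ 2 * (cos (2 * h) - cos y2) ≤ cos (2 * h) * (cos (2 * h) - cos y) ^ 2 := by
  have e : cos (2 * h) - cos y = 2 * (sin (y / 2 + h) * sin (y / 2 - h)) := by
    rw [PP_half, sin_sq_sub]
  have P2 := P_upper (y := y) (y2 := y2) hpos h0 hy3 hy2
  have t6 := T6 hpos hle
  have s5 : 0 ≤ sin (5 * h / 2) := Real.sin_nonneg_of_nonneg_of_le_pi (by linarith) (by linarith)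
  have s3 : sin (5 * h / 2) ≤ sin (y / 2 - h) :=
    Real.sin_le_sin_of_le_of_le_pi_div_two (by linarith) (by linarith) (by linarith)
  have s4 : sin (5 * h / 2) ^ 2 ≤ sin (y / 2 - h) ^ 2 := pow_le_pow_left₀ s5 s3 2
  have c2 : 0 ≤ cos (2 * h) := Real.cos_nonneg_of_mem_Icc ⟨by linarith, by linarith⟩
  set Sg := sin (y / 2 + h) ^ 2 with hSg
  have hSg0 : 0 ≤ Sg := sq_nonneg _
  calc 2 * sin (2 * h) ^ 2 * (cos (2 * h) - cos y2) ≤ 2 * sin (2 * h) ^ 2 * (2 * Sg) := by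
        apply mul_le_mul_of_nonneg_left P2 (by positivity)
    _ = 4 * Sg * sin (2 * h) ^ 2 := by ring
    _ ≤ 4 * Sg * (cos (2 * h) * sin (5 * h / 2) ^ 2) := by
        apply mul_le_mul_of_nonneg_left t6 (by positivity)
    _ ≤ 4 * Sg * (cos (2 * h) * sin (y / 2 - h) ^ 2) := by
        apply mul_le_mul_of_nonneg_left _ (by positivity)
        apply mul_le_mul_of_nonneg_left s4 c2
    _ = _ := by rw [e, hSg]; ring

end

end Pool.Agent.H.MP_921603_an
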