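import Mathlib

set_option autoImplicit false

namespace Pool.Agent.H.MP_921603_an

open Complex

/-! ### Square roots with positive real part -/

lemma sqrt_mul_self' (z : ℂ) : Complex.sqrt z * Complex.sqrt z = z := by
  have h := Complex.cpow_nat_inv_pow z (n := 2) two_ne_zero
  have h2 : Complex.sqrt z = z ^ (((2 : ℕ) : ℂ)⁻¹) := by simp [Complex.sqrt]
  rw [h2, ← pow_two]; exact h

lemma re_sqrt_nonneg (z : ℂ) : 0 ≤ (Complex.sqrt z).re := by
  rw [Complex.sqrt, Complex.cpow_inv_two_re]; positivity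

lemma re_sqrt_pos {z : ℂ} (hz : z ∈ slitPlane) : 0 < (Complex.sqrt z).re := by
  rcases lt_or_eq_of_le (re_sqrt_nonneg z) with h | h
  · exact h
  exfalso
  have h1 := sqrt_mul_self' z
  have h2 : z.re = -((Complex.sqrt z).im)^2 := by
    conv_lhs => rw [← h1]
    rw [Complex.mul_re, ← h]; ring
  have h3 : z.im = 0 := by
    conv_lhs => rw [← h1]
    rw [Complex.mul_im, ← h]; ring
  rcases Complex.mem_slitPlane_iff.1 hz with h4 | h4
  · nlinarith [sq_nonneg (Complex.sqrt z).im]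
  · exact h4 h3

/-- If `a, b` have positive real part then `√a √b` has positive real part. -/
lemma re_sqrt_mul_sqrt_pos {a b : ℂ} (ha : 0 < a.re) (hb : 0 < b.re) :
    0 < (Complex.sqrt a * Complex.sqrt b).re := by
  have ha1 : 0 < (Complex.sqrt a).re := re_sqrt_pos (Or.inl ha)
  have hb1 : 0 < (Complex.sqrt b).re := re_sqrt_pos (Or.inl hb)
  have ha2 : a.re = (Complex.sqrt a).re^2 - (Complex.sqrt a).im^2 := by
    conv_lhs => rw [← sqrt_mul_self' a]
    rw [Complex.mul_re]; ring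
  have hb2 : b.re = (Complex.sqrt b).re^2 - (Complex.sqrt b).im^2 := by
    conv_lhs => rw [← sqrt_mul_self' b]
    rw [Complex.mul_re]; ring
  have h1 : |(Complex.sqrt a).im| < (Complex.sqrt a).re := by
    apply abs_lt_of_sq_lt_sq _ ha1.le; linarith
  have h2 : |(Complex.sqrt b).im| < (Complex.sqrt b).re := by
    apply abs_lt_of_sq_lt_sq _ hb1.le; linarith
  rw [Complex.mul_re]
  have h3 : |(Complex.sqrt a).im * (Complex.sqrt b).im| < (Complex.sqrt a).re * (Complex.sqrt b).re := by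
    rw [abs_mul]
    exact mul_lt_mul'' h1 h2 (abs_nonneg _) (abs_nonneg _)
  linarith [le_abs_self ((Complex.sqrt a).im * (Complex.sqrt b).im)]

lemma eq_of_sq_eq_of_re_pos {a b : ℂ} (h : a * a = b * b) (ha : 0 < a.re) (hb : 0 < b.re) :
    a = b := by
  rcases mul_self_eq_mul_self_iff.1 h with h1 | h1
  · exact h1
  · rw [h1, neg_re] at ha; linarith

lemma eq_of_sq_eq_of_im_pos {a b : ℂ} (h : a * a = b * b) (ha : 0 < a.im) (hb : 0 < b.im) :
    a = b := by
  rcases mul_self_eq_mul_self_iff.1 h with h1 | h1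
  · exact h1
  · rw [h1, neg_im] at ha; linarith

lemma sqrt_conj {a : ℂ} (ha : a.arg ≠ Real.pi) :
    Complex.sqrt ((starRingEnd ℂ) a) = (starRingEnd ℂ) (Complex.sqrt a) := by
  rw [Complex.sqrt, Complex.sqrt, Complex.conj_cpow _ _ ha, map_inv₀, Complex.conj_ofNat]

/-- The square root of `1 - 2 cos φ z + z ^ 2` that is positive at `0`. -/
noncomputable def kap (φ : ℝ) (z : ℂ) : ℂ :=
  Complex.sqrt (1 - z * exp (φ * I)) * Complex.sqrt (1 - z * exp (-φ * I))

lemma kap_mul_self (φ : ℝ) (z : ℂ) :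
    kap φ z * kap φ z = z ^ 2 - 2 * (Real.cos φ : ℝ) * z + 1 := by
  unfold kap
  have h1 := sqrt_mul_self' (1 - z * exp (φ * I))
  have h2 := sqrt_mul_self' (1 - z * exp (-φ * I))
  calc _ = (Complex.sqrt (1 - z * exp (φ * I)) * Complex.sqrt (1 - z * exp (φ * I))) *
      (Complex.sqrt (1 - z * exp (-φ * I)) * Complex.sqrt (1 - z * exp (-φ * I))) := by ring
    _ = (1 - z * exp (φ * I)) * (1 - z * exp (-φ * I)) := by rw [h1, h2]
    _ = _ := by
      have h3 : exp ((φ:ℂ) * I) * exp (-(φ:ℂ) * I) = 1 := by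
        rw [← Complex.exp_add]; simp
      have h4 : ((Real.cos φ : ℝ) : ℂ) = (exp ((φ:ℂ) * I) + exp (-(φ:ℂ) * I)) / 2 := by
        rw [Complex.ofReal_cos, Complex.cos]
      rw [h4]
      linear_combination (z^2) * h3

lemma one_sub_re_pos {z : ℂ} (φ : ℝ) (hz : ‖z‖ < 1) : 0 < (1 - z * exp (φ * I)).re := by
  rw [sub_re, one_re]
  have h1 : ‖z * exp (φ * I)‖ < 1 := by
    rw [norm_mul, Complex.norm_exp_ofReal_mul_I, mul_one]; exact hz
  have := Complex.re_le_norm (z * exp (φ * I))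
  linarith

lemma one_sub_re_pos' {z : ℂ} (φ : ℝ) (hz : ‖z‖ ≤ 1) (h : 1 - z * exp (φ * I) ≠ 0) :
    0 < (1 - z * exp (φ * I)).re := by
  rw [sub_re, one_re]
  have h1 : ‖z * exp (φ * I)‖ ≤ 1 := by
    rw [norm_mul, Complex.norm_exp_ofReal_mul_I, mul_one]; exact hz
  have h2 := Complex.re_le_norm (z * exp (φ * I))
  rcases lt_or_eq_of_le (h2.trans h1) with h3 | h3
  · linarith
  · exfalso
    apply h
    have h4 : (z * exp (φ * I)).im = 0 := by
      have h5 := Complex.sq_norm (z * exp (φ * I))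
      rw [Complex.normSq_apply, h3] at h5
      have h6 : ‖z * exp (φ * I)‖^2 ≤ 1 := by
        have := norm_nonneg (z * exp (φ * I)); nlinarith
      nlinarith [sq_nonneg (z * exp (φ * I)).im]
    apply Complex.ext
    · simp only [sub_re, one_re, h3, zero_re]; ring
    · simp only [sub_im, one_im, h4, zero_im]; ring

lemma one_sub_re_nonneg {z : ℂ} (φ : ℝ) (hz : ‖z‖ ≤ 1) : 0 ≤ (1 - z * exp (φ * I)).re := by
  by_cases h : 1 - z * exp (φ * I) = 0
  · rw [h]; simp
  · exact (one_sub_re_pos' φ hz h).le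

lemma kap_re_pos {z : ℂ} (φ : ℝ) (hz : ‖z‖ < 1) : 0 < (kap φ z).re := by
  unfold kap
  apply re_sqrt_mul_sqrt_pos (one_sub_re_pos φ hz)
  have := one_sub_re_pos (-φ) hz
  push_cast at this
  exact this

lemma kap_re_pos' {z : ℂ} (φ : ℝ) (hz : ‖z‖ ≤ 1)
    (h : z ^ 2 - 2 * (Real.cos φ : ℝ) * z + 1 ≠ 0) : 0 < (kap φ z).re := by
  have h0 : (1 - z * exp (φ * I)) * (1 - z * exp (-φ * I)) ≠ 0 := by
    have h3 : exp ((φ:ℂ) * I) * exp (-(φ:ℂ) * I) = 1 := by
      rw [← Complex.exp_add]; simp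
    have h4 : ((Real.cos φ : ℝ) : ℂ) = (exp ((φ:ℂ) * I) + exp (-(φ:ℂ) * I)) / 2 := by
      rw [Complex.ofReal_cos, Complex.cos]
    rw [h4] at h
    intro h5
    apply h
    linear_combination h5 - (z^2) * h3
  have h1 := left_ne_zero_of_mul h0
  have h2 := right_ne_zero_of_mul h0
  unfold kap
  apply re_sqrt_mul_sqrt_pos (one_sub_re_pos' φ hz h1)
  have := one_sub_re_pos' (z := z) (-φ) hz (by push_cast; exact h2)
  push_cast at this
  exact this

lemma kap_continuousAt {z : ℂ} (φ : ℝ) (hz : ‖z‖ ≤ 1) : ContinuousAt (kap φ) z := by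
  unfold kap
  apply ContinuousAt.mul
  · apply ContinuousAt.comp (g := Complex.sqrt)
    · exact Complex.continuousAt_sqrt (Or.inl (one_sub_re_nonneg φ hz))
    · fun_prop
  · apply ContinuousAt.comp (g := Complex.sqrt)
    · have := one_sub_re_nonneg (-φ) hz
      push_cast at this
      exact Complex.continuousAt_sqrt (Or.inl this)
    · fun_prop

lemma kap_differentiableAt {z : ℂ} (φ : ℝ) (hz : ‖z‖ < 1) : DifferentiableAt ℂ (kap φ) z := by
  unfold kap
  have h2 := one_sub_re_pos (-φ) hz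
  push_cast at h2
  apply DifferentiableAt.mul
  · apply DifferentiableAt.comp (g := Complex.sqrt)
    · exact Complex.differentiableAt_sqrt (Or.inl (one_sub_re_pos φ hz))
    · fun_prop
  · apply DifferentiableAt.comp (g := Complex.sqrt)
    · exact Complex.differentiableAt_sqrt (Or.inl h2)
    · fun_prop

lemma kap_zero (z : ℂ) : kap 0 z = 1 - z := by
  unfold kap
  simp only [ofReal_zero, zero_mul, exp_zero, mul_one, neg_zero]
  exact sqrt_mul_self' _

lemma kap_pi (z : ℂ) : kap Real.pi z = 1 + z := by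
  unfold kap
  have h1 : exp ((Real.pi : ℂ) * I) = -1 := Complex.exp_pi_mul_I
  have h2 : exp (-(Real.pi : ℂ) * I) = -1 := by
    rw [neg_mul, Complex.exp_neg, h1]; norm_num
  rw [h1, h2]
  rw [show (1 : ℂ) - z * -1 = 1 + z by ring]
  exact sqrt_mul_self' _

/-- Differentiability at `1`. -/
lemma kap_differentiableAt_one {φ : ℝ} (h0 : 0 ≤ φ) (h1 : φ ≤ Real.pi) :
    DifferentiableAt ℂ (kap φ) 1 := by
  rcases eq_or_lt_of_le h0 with h | h
  · have : kap φ = fun z => 1 - z := by rw [← h]; funext z; exact kap_zero z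
    rw [this]; fun_prop
  · have hc : Real.cos φ < 1 := by
      rw [← Real.cos_zero]
      exact Real.cos_lt_cos_of_nonneg_of_le_pi le_rfl h1 h
    have e1 : 0 < (1 - 1 * exp ((φ:ℂ) * I)).re := by
      rw [one_mul, sub_re, one_re, Complex.exp_ofReal_mul_I_re]; linarith
    have e2 : 0 < (1 - 1 * exp (-(φ:ℂ) * I)).re := by
      have := Complex.exp_ofReal_mul_I_re (-φ)
      push_cast at this
      rw [one_mul, sub_re, one_re, this, Real.cos_neg]; linarith
    unfold kap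
    apply DifferentiableAt.mul
    · apply DifferentiableAt.comp (g := Complex.sqrt)
      · exact Complex.differentiableAt_sqrt (Or.inl e1)
      · fun_prop
    · apply DifferentiableAt.comp (g := Complex.sqrt)
      · exact Complex.differentiableAt_sqrt (Or.inl e2)
      · fun_prop

lemma kap_differentiableAt_neg_one {φ : ℝ} (h0 : 0 ≤ φ) (h1 : φ ≤ Real.pi) :
    DifferentiableAt ℂ (kap φ) (-1) := by
  rcases eq_or_lt_of_le h1 with h | h
  · have : kap φ = fun z => 1 + z := by rw [h]; funext z; exact kap_pi z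
    rw [this]; fun_prop
  · have hc : -1 < Real.cos φ := by
      rw [← Real.cos_pi]
      exact Real.cos_lt_cos_of_nonneg_of_le_pi h0 le_rfl h
    have e1 : 0 < (1 - (-1) * exp ((φ:ℂ) * I)).re := by
      rw [show (1:ℂ) - (-1) * exp ((φ:ℂ) * I) = 1 + exp ((φ:ℂ) * I) by ring, add_re, one_re,
        Complex.exp_ofReal_mul_I_re]; linarith
    have e2 : 0 < (1 - (-1) * exp (-(φ:ℂ) * I)).re := by
      have := Complex.exp_ofReal_mul_I_re (-φ)
      push_cast at this
      rw [show (1:ℂ) - (-1) * exp (-(φ:ℂ) * I) = 1 + exp (-(φ:ℂ) * I) by ring, add_re, one_re,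
        this, Real.cos_neg]; linarith
    unfold kap
    apply DifferentiableAt.mul
    · apply DifferentiableAt.comp (g := Complex.sqrt)
      · exact Complex.differentiableAt_sqrt (Or.inl e1)
      · fun_prop
    · apply DifferentiableAt.comp (g := Complex.sqrt)
      · exact Complex.differentiableAt_sqrt (Or.inl e2)
      · fun_prop

lemma kap_conj {z : ℂ} (φ : ℝ) (hz : ‖z‖ ≤ 1) :
    kap φ ((starRingEnd ℂ) z) = (starRingEnd ℂ) (kap φ z) := by
  unfold kap
  have hne : ∀ w : ℂ, 0 ≤ w.re → w.arg ≠ Real.pi := by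
    intro w hw h
    rw [Complex.arg_eq_pi_iff] at h
    linarith [h.1]
  have h1 := hne _ (one_sub_re_nonneg φ hz)
  have h2 := hne _ (one_sub_re_nonneg (-φ) hz)
  push_cast at h2
  rw [map_mul, ← sqrt_conj h1, ← sqrt_conj h2]
  have e1 : (starRingEnd ℂ) (1 - z * exp ((φ:ℂ) * I)) = 1 - (starRingEnd ℂ) z * exp (-(φ:ℂ) * I) := by
    rw [map_sub, map_mul, map_one, ← Complex.exp_conj]
    congr 3
    simp
  have e2 : (starRingEnd ℂ) (1 - z * exp (-(φ:ℂ) * I)) = 1 - (starRingEnd ℂ) z * exp ((φ:ℂ) * I) := by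
    rw [map_sub, map_mul, map_one, ← Complex.exp_conj]
    congr 3
    simp
  rw [e1, e2, mul_comm]

lemma kap_conj_im {x : ℝ} (φ : ℝ) (hx : ‖(x:ℂ)‖ ≤ 1) : (kap φ (x:ℂ)).im = 0 := by
  have := kap_conj φ hx
  rw [Complex.conj_ofReal] at this
  exact Complex.conj_eq_iff_im.1 this.symm

lemma kap_exp_aux (θ φ : ℝ) : (exp ((θ:ℂ) * I)) ^ 2 - 2 * (Real.cos φ : ℝ) * exp ((θ:ℂ) * I) + 1
      = exp ((θ:ℂ) * I) * ((2 * (Real.cos θ - Real.cos φ) : ℝ) : ℂ) := by
  have h4 : ((Real.cos θ : ℝ) : ℂ) = (exp ((θ:ℂ) * I) + exp (-(θ:ℂ) * I)) / 2 := by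
    rw [Complex.ofReal_cos, Complex.cos]
  have h3 : exp ((θ:ℂ) * I) * exp (-(θ:ℂ) * I) = 1 := by
    rw [← Complex.exp_add]; simp
  push_cast
  rw [← Complex.ofReal_cos, ← Complex.ofReal_cos, h4]
  linear_combination -h3

lemma exp_half_mul_self (θ : ℝ) :
    exp (((θ/2 : ℝ) : ℂ) * I) * exp (((θ/2 : ℝ) : ℂ) * I) = exp ((θ:ℂ) * I) := by
  rw [← Complex.exp_add]; congr 1; push_cast; ring

lemma ofReal_sqrt_mul_self {x : ℝ} (hx : 0 ≤ x) :
    ((Real.sqrt x : ℝ) : ℂ) * ((Real.sqrt x : ℝ) : ℂ) = (x : ℂ) := by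
  rw [← Complex.ofReal_mul, Real.mul_self_sqrt hx]

/-- Value at `exp (i θ)` for `θ < φ`. -/
lemma kap_exp_of_lt {θ φ : ℝ} (h0 : 0 < θ) (h1 : θ < φ) (h2 : φ ≤ Real.pi) :
    kap φ (exp (θ * I)) = exp ((θ/2 : ℝ) * I) * (Real.sqrt (2 * (Real.cos θ - Real.cos φ)) : ℝ) := by
  have hc : Real.cos φ < Real.cos θ := Real.cos_lt_cos_of_nonneg_of_le_pi h0.le h2 h1
  have hz : ‖exp ((θ:ℂ) * I)‖ ≤ 1 := by rw [Complex.norm_exp_ofReal_mul_I]
  have hid := kap_exp_aux θ φ
  have hpos : 0 < Real.sqrt (2 * (Real.cos θ - Real.cos φ)) := Real.sqrt_pos.2 (by linarith)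
  apply eq_of_sq_eq_of_re_pos
  · rw [kap_mul_self, hid]
    have e1 := exp_half_mul_self θ
    have e2 := ofReal_sqrt_mul_self (x := 2 * (Real.cos θ - Real.cos φ)) (by linarith)
    rw [← e1, ← e2]; ring
  · apply kap_re_pos' φ hz
    rw [hid]
    apply mul_ne_zero (Complex.exp_ne_zero _)
    have : (2 * (Real.cos θ - Real.cos φ)) ≠ 0 := by linarith
    exact_mod_cast this
  · rw [Complex.re_mul_ofReal, Complex.exp_ofReal_mul_I_re]
    apply mul_pos _ hpos
    apply Real.cos_pos_of_mem_Ioo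
    constructor <;> linarith [Real.pi_pos]

/-- Value at `exp (i θ)` for `φ < θ`. -/
lemma kap_exp_of_gt {θ φ : ℝ} (h0 : 0 ≤ φ) (h1 : φ < θ) (h2 : θ < Real.pi) :
    kap φ (exp (θ * I)) =
      -I * (exp ((θ/2 : ℝ) * I) * (Real.sqrt (2 * (Real.cos φ - Real.cos θ)) : ℝ)) := by
  have hc : Real.cos θ < Real.cos φ := Real.cos_lt_cos_of_nonneg_of_le_pi h0 h2.le h1
  have hz : ‖exp ((θ:ℂ) * I)‖ ≤ 1 := by rw [Complex.norm_exp_ofReal_mul_I]
  have hid := kap_exp_aux θ φ
  have hpos : 0 < Real.sqrt (2 * (Real.cos φ - Real.cos θ)) := Real.sqrt_pos.2 (by linarith)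
  apply eq_of_sq_eq_of_re_pos
  · rw [kap_mul_self, hid]
    have e1 := exp_half_mul_self θ
    have e2 := ofReal_sqrt_mul_self (x := 2 * (Real.cos φ - Real.cos θ)) (by linarith)
    calc _ = -(exp ((θ:ℂ) * I) * ((2 * (Real.cos φ - Real.cos θ) : ℝ) : ℂ)) := by push_cast; ring
      _ = _ := by
        rw [← e1, ← e2]
        linear_combination (-(exp (((θ/2 : ℝ) : ℂ) * I) * exp (((θ/2 : ℝ) : ℂ) * I)
          * ((Real.sqrt (2 * (Real.cos φ - Real.cos θ)) : ℝ) : ℂ)
          * ((Real.sqrt (2 * (Real.cos φ - Real.cos θ)) : ℝ) : ℂ))) * Complex.I_sq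
  · apply kap_re_pos' φ hz
    rw [hid]
    apply mul_ne_zero (Complex.exp_ne_zero _)
    have : (2 * (Real.cos θ - Real.cos φ)) ≠ 0 := by linarith
    exact_mod_cast this
  · have e : -I * (exp ((θ/2 : ℝ) * I) * (Real.sqrt (2 * (Real.cos φ - Real.cos θ)) : ℝ))
        = (-I * exp ((θ/2 : ℝ) * I)) * (Real.sqrt (2 * (Real.cos φ - Real.cos θ)) : ℝ) := by ring
    rw [e, Complex.re_mul_ofReal]
    apply mul_pos _ hpos
    have e2 : (-I * exp (((θ/2 : ℝ) : ℂ) * I)).re = Real.sin (θ/2) := by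
      rw [Complex.mul_re, Complex.exp_ofReal_mul_I_im]
      simp
    rw [e2]
    apply Real.sin_pos_of_pos_of_lt_pi <;> linarith [Real.pi_pos]

end Pool.Agent.H.MP_921603_an
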