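import Pool.Agent.H.MP_921603_an.C1
import Pool.Agent.H.MP_921603_an.Crit2

set_option autoImplicit false

namespace Pool.Agent.H.MP_921603_an

open Real Finset

section
variable {M q : ℕ}

/-- The coefficients. -/
noncomputable def aq (M q : ℕ) (j : ℕ) : ℝ := AA M j * sin (j * (q * tt M))

lemma X1_eq (θ : ℝ) : X1 M (aq M q) θ = (k1 M (θ + q * tt M) - k1 M (θ - q * tt M)) / 2 := by
  unfold X1 k1 aq
  rw [← Finset.sum_neg_distrib, ← Finset.sum_sub_distrib, Finset.sum_div]
  apply Finset.sum_congr rfl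
  intro j _
  have h1 : cos (j * (θ + q * tt M)) - cos (j * (θ - q * tt M)) =
      -2 * sin (j * (q * tt M)) * sin (j * θ) := by
    rw [mul_add, mul_sub, Real.cos_add, Real.cos_sub]; ring
  linear_combination (-(AA M j * j) / 2) * h1

lemma YY_eq (θ : ℝ) : YY M (aq M q) θ = (rho M (θ - q * tt M) - rho M (θ + q * tt M)) / 2 := by
  unfold YY rho aq
  rw [← Finset.sum_sub_distrib, Finset.sum_div]
  apply Finset.sum_congr rfl
  intro j _
  have h1 : cos (j * (θ + q * tt M)) - cos (j * (θ - q * tt M)) =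
      -2 * sin (j * (q * tt M)) * sin (j * θ) := by
    rw [mul_add, mul_sub, Real.cos_add, Real.cos_sub]; ring
  linear_combination (AA M j / 2) * h1

lemma k1_neg (y : ℝ) : k1 M (-y) = k1 M y := by
  unfold k1
  apply Finset.sum_congr rfl
  intro j _
  rw [mul_neg, Real.cos_neg]

lemma k1_two_pi_sub (y : ℝ) : k1 M (2 * π - y) = k1 M y := by
  unfold k1
  apply Finset.sum_congr rfl
  intro j _
  have : (j:ℝ) * (2 * π - y) = j * (2 * π) - j * y := by ring
  rw [this, Real.cos_nat_mul_two_pi_sub]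

/-- (C1) -/
lemma C1 (hM : 3 ≤ M) (hq : 1 ≤ q) (hqM : q + 1 ≤ M) {θ : ℝ} (h0 : 0 ≤ θ) (hπ : θ ≤ π)
    (h3 : 3 * tt M ≤ |θ - q * tt M|) : 0 ≤ X1 M (aq M q) θ := by
  have hM0 : 0 < M := by omega
  have ht := tt_pos hM0
  have hMt := M_mul_tt hM0
  have hqr : (1:ℝ) ≤ q := by exact_mod_cast hq
  have hqMr : (q:ℝ) + 1 ≤ M := by exact_mod_cast hqM
  have hα1 : tt M ≤ q * tt M := by nlinarith
  have hα2 : q * tt M + tt M ≤ π := by nlinarith
  have hMα : (M:ℝ) * (q * tt M) = q * π := by rw [← hMt]; ring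
  rw [X1_eq]
  suffices h : k1 M (θ - q * tt M) ≤ k1 M (θ + q * tt M) by linarith
  rcases le_total (q * tt M) θ with hr | hl
  · -- right side, y = θ - α
    rw [abs_of_nonneg (by linarith)] at h3
    rcases le_total (θ + q * tt M) π with hc | hc
    · apply k1_core hM h3 (by linarith) hc (by linarith)
      · have : (M:ℝ) * (θ + q * tt M) = M * (θ - q * tt M) + q * (2 * π) := by
          linear_combination 2 * hMα
        rw [this, Real.cos_add_nat_mul_two_pi]
      · left
        constructor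
        · have : (M:ℝ) * (θ + q * tt M) = M * (θ - q * tt M) + q * (2 * π) := by
            linear_combination 2 * hMα
          rw [this, Real.sin_add_nat_mul_two_pi]
        · right; linarith
    · rw [← k1_two_pi_sub (θ + q * tt M)]
      have e : (M:ℝ) * (2 * π - (θ + q * tt M)) = ((M:ℤ) - (q:ℤ) : ℤ) * (2 * π) - M * (θ - q * tt M) := by
        push_cast
        linear_combination (-2 : ℝ) * hMα
      apply k1_core hM h3 (by linarith) (by linarith) (by linarith)
      · rw [e, Real.cos_int_mul_two_pi_sub]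
      · right
        constructor
        · rw [e, Real.sin_int_mul_two_pi_sub]
        · refine ⟨(M:ℤ) - q, ?_⟩
          push_cast
          linear_combination (-2 : ℝ) * hMt
  · -- left side, y = α - θ
    rw [abs_of_nonpos (by linarith)] at h3
    rw [← k1_neg (θ - q * tt M)]
    have hneg : -(θ - q * tt M) = q * tt M - θ := by ring
    rw [hneg] at h3 ⊢
    rcases le_total (θ + q * tt M) π with hc | hc
    · have e : (M:ℝ) * (θ + q * tt M) = ((q:ℤ)) * (2 * π) - M * (q * tt M - θ) := by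
        push_cast
        linear_combination (2 : ℝ) * hMα
      apply k1_core hM h3 (by linarith) hc (by linarith)
      · rw [e, Real.cos_int_mul_two_pi_sub]
      · right
        constructor
        · rw [e, Real.sin_int_mul_two_pi_sub]
        · refine ⟨q, ?_⟩
          push_cast; ring
    · rw [← k1_two_pi_sub (θ + q * tt M)]
      have e : (M:ℝ) * (2 * π - (θ + q * tt M)) = M * (q * tt M - θ) +
          ((M:ℤ) - (q:ℤ) : ℤ) * (2 * π) := by
        push_cast
        linear_combination (-2 : ℝ) * hMα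
      apply k1_core hM h3 (by linarith) (by linarith) (by linarith)
      · rw [e, Real.cos_add_int_mul_two_pi]
      · left
        constructor
        · rw [e, Real.sin_add_int_mul_two_pi]
        · right; linarith

/-- closed form of `YY`. -/
lemma YY_formula (hM : 3 ≤ M) (θ : ℝ) :
    ((cos θ ^ 2 - 2 * cos (q * tt M) * cos (tt M) * cos θ + (cos (q * tt M) ^ 2 +
      cos (tt M) ^ 2 - 1)) ^ 2) * YY M (aq M q) θ =
    sin (tt M) ^ 3 * sin (q * tt M) * (sin θ * (cos (tt M) - cos (q * tt M) * cos θ) *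
      (1 + (-1) ^ q * cos (M * θ))) := by
  have hM0 : 0 < M := by omega
  have hMt := M_mul_tt hM0
  have hMα : (M:ℝ) * (q * tt M) = q * π := by rw [← hMt]; ring
  rw [YY_eq]
  have h1 := rho_id hM0 (θ - q * tt M)
  have h2 := rho_id hM0 (θ + q * tt M)
  have c1 : cos (M * (θ - q * tt M)) = (-1) ^ q * cos (M * θ) := by
    rw [mul_sub, hMα, Real.cos_sub_nat_mul_pi]
  have c2 : cos (M * (θ + q * tt M)) = (-1) ^ q * cos (M * θ) := by
    rw [mul_add, hMα, Real.cos_add_nat_mul_pi]
  rw [c1] at h1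
  rw [c2] at h2
  set C := (-1) ^ q * cos (M * θ) with hC
  set P1 := cos (tt M) - cos (θ - q * tt M) with hP1
  set P2 := cos (tt M) - cos (θ + q * tt M) with hP2
  have s1 := Real.sin_sq_add_cos_sq θ
  have s2 := Real.sin_sq_add_cos_sq (q * tt M)
  have e1 : cos θ ^ 2 - 2 * cos (q * tt M) * cos (tt M) * cos θ + (cos (q * tt M) ^ 2 +
      cos (tt M) ^ 2 - 1) = P1 * P2 := by
    rw [hP1, hP2, Real.cos_add, Real.cos_sub]
    linear_combination (sin (q * tt M) ^ 2) * s1 + (1 - cos θ ^ 2) * s2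
  have e2 : P2 - P1 = 2 * sin θ * sin (q * tt M) := by
    rw [hP1, hP2, Real.cos_add, Real.cos_sub]; ring
  have e3 : P2 + P1 = 2 * (cos (tt M) - cos (q * tt M) * cos θ) := by
    rw [hP1, hP2, Real.cos_add, Real.cos_sub]; ring
  rw [e1]
  have key : (P1 * P2) ^ 2 * ((rho M (θ - q * tt M) - rho M (θ + q * tt M)) / 2) =
      sin (tt M) ^ 3 / 4 * (1 + C) * ((P2 - P1) * (P2 + P1)) := by
    linear_combination (P2 ^ 2 / 4) * h1 - (P1 ^ 2 / 4) * h2
  rw [key, e2, e3]
  ring

end

end Pool.Agent.H.MP_921603_an
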