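import Pool.Agent.H.MP_921603_an.Uni
import Pool.Agent.H.MP_921603_an.Link

set_option autoImplicit false

namespace Pool.Agent.H.MP_921603_an

open Real Polynomial Set

section
variable {M q : ℕ}

/-- polynomial with `YY θ = sin θ * V (cos θ)`. -/
noncomputable def VV (M q : ℕ) : ℝ[X] :=
  ∑ j ∈ Finset.range M, C (aq M q j) * Chebyshev.U ℝ ((j:ℤ) - 1)

lemma VV_eval (θ : ℝ) : (VV M q).eval (cos θ) * sin θ = YY M (aq M q) θ := by
  unfold VV YY
  rw [eval_finsetSum, Finset.sum_mul]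
  apply Finset.sum_congr rfl
  intro j _
  rw [eval_mul, eval_C, mul_assoc, Chebyshev.U_real_cos]
  congr 2
  push_cast; ring

/-- the quadratic with roots `cos (α ± t)`. -/
noncomputable def Dl (M q : ℕ) : ℝ[X] :=
  X ^ 2 - C (2 * cos (q * tt M) * cos (tt M)) * X +
    C (cos (q * tt M) ^ 2 + cos (tt M) ^ 2 - 1)

lemma Dl_eval (c : ℝ) : (Dl M q).eval c = c ^ 2 - 2 * cos (q * tt M) * cos (tt M) * c +
    (cos (q * tt M) ^ 2 + cos (tt M) ^ 2 - 1) := by
  unfold Dl; simp

lemma Dl_factor (c : ℝ) : (Dl M q).eval c =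
    (c - cos (q * tt M + tt M)) * (c - cos (q * tt M - tt M)) := by
  rw [Dl_eval, Real.cos_add, Real.cos_sub]
  have s1 := Real.sin_sq_add_cos_sq (tt M)
  have s2 := Real.sin_sq_add_cos_sq (q * tt M)
  linear_combination (sin (q * tt M) ^ 2) * s1 + (1 - cos (tt M) ^ 2) * s2

/-- The basic facts. -/
structure Basic (M q : ℕ) : Prop where
  hM : 3 ≤ M
  hq : 1 ≤ q
  hqM : q + 1 ≤ M

namespace Basic
variable (B : Basic M q)
include B

lemma M0 : 0 < M := by have := B.hM; omega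
lemma t0 : 0 < tt M := tt_pos B.M0
lemma Mt : (M:ℝ) * tt M = π := M_mul_tt B.M0
lemma t3 : tt M ≤ π / 3 := by
  have h := B.Mt
  have hM3 : (3:ℝ) ≤ M := by exact_mod_cast B.hM
  have := B.t0
  rw [le_div_iff₀ (by norm_num : (0:ℝ) < 3)]
  nlinarith
lemma α1 : tt M ≤ q * tt M := by
  have : (1:ℝ) ≤ q := by exact_mod_cast B.hq
  have := B.t0
  nlinarith
lemma α2 : q * tt M + tt M ≤ π := by
  have h : (q:ℝ) + 1 ≤ M := by exact_mod_cast B.hqM
  have := B.t0
  rw [← B.Mt]; nlinarith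
lemma sin_t : 0 < sin (tt M) :=
  Real.sin_pos_of_pos_of_lt_pi B.t0 (by linarith [B.t3, Real.pi_pos])
lemma cos_t : 0 < cos (tt M) :=
  Real.cos_pos_of_mem_Ioo ⟨by linarith [B.t0, Real.pi_pos], by linarith [B.t3, Real.pi_pos]⟩
lemma sin_α : 0 < sin (q * tt M) :=
  Real.sin_pos_of_pos_of_lt_pi (by linarith [B.t0, B.α1]) (by linarith [B.α2, B.t0])
lemma Mα : (M:ℝ) * (q * tt M) = q * π := by rw [← B.Mt]; ring

/-- `cos t - cos α cos θ > 0` if `|cos θ| < 1`. -/
lemma mid_pos {c : ℝ} (h1 : -1 < c) (h2 : c < 1) : 0 < cos (tt M) - cos (q * tt M) * c := by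
  have h3 : cos (q * tt M) ≤ cos (tt M) :=
    Real.cos_le_cos_of_nonneg_of_le_pi B.t0.le (by linarith [B.α2, B.t0]) B.α1
  have h4 : -cos (tt M) ≤ cos (q * tt M) := by
    rw [← Real.cos_pi_sub]
    exact Real.cos_le_cos_of_nonneg_of_le_pi (by linarith [B.α1, B.t0]) (by linarith [B.t0])
      (by linarith [B.α2])
  have h5 := B.cos_t
  rcases le_total 0 (cos (q * tt M)) with h | h
  · rcases le_total 0 c with hc | hc
    · nlinarith
    · nlinarith
  · rcases le_total 0 c with hc | hc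
    · nlinarith
    · nlinarith

lemma poly_identity : (Dl M q) ^ 2 * VV M q = C (sin (tt M) ^ 3 * sin (q * tt M)) *
    ((C (cos (tt M)) - C (cos (q * tt M)) * X) * (1 + C ((-1) ^ q) * Chebyshev.T ℝ M)) := by
  apply poly_eq_of_cos
  intro θ h0 hπ
  have hs : 0 < sin θ := Real.sin_pos_of_pos_of_lt_pi h0 hπ
  have h := YY_formula (q := q) B.hM θ
  rw [← VV_eval, ← Dl_eval] at h
  have hT := Chebyshev.T_real_cos θ (M:ℤ)
  apply mul_right_cancel₀ hs.ne'
  simp only [eval_mul, eval_pow, eval_sub, eval_add, eval_one, eval_C, eval_X]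
  rw [hT]
  push_cast
  linear_combination h

lemma eps_sq : ((-1:ℝ) ^ q) ^ 2 = 1 := by
  rw [← pow_mul, mul_comm, pow_mul]; norm_num

lemma rhs_splits : (C (sin (tt M) ^ 3 * sin (q * tt M)) *
    ((C (cos (tt M)) - C (cos (q * tt M)) * X) * (1 + C ((-1) ^ q) * Chebyshev.T ℝ M))).Splits ∧
    (C (sin (tt M) ^ 3 * sin (q * tt M)) *
    ((C (cos (tt M)) - C (cos (q * tt M)) * X) * (1 + C ((-1) ^ q) * Chebyshev.T ℝ M))) ≠ 0 := by
  obtain ⟨n, hn⟩ : ∃ n : ℕ, M = n + 1 := ⟨M - 1, by have := B.M0; omega⟩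
  obtain ⟨hs, hne⟩ := splits_T (n := n) B.eps_sq
  have e : ((n:ℤ) + 1) = ((M:ℕ):ℤ) := by rw [hn]; push_cast; ring
  rw [e] at hs hne
  constructor
  · apply Splits.C_mul
    apply Splits.mul _ hs
    have : (C (cos (tt M)) - C (cos (q * tt M)) * X : ℝ[X]) =
        C (-cos (q * tt M)) * X + C (cos (tt M)) := by rw [C_neg]; ring
    rw [this]
    exact Splits.of_natDegree_le_one natDegree_linear_le
  · apply mul_ne_zero
    · rw [Ne, C_eq_zero]
      have := B.sin_t; have := B.sin_α; positivity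
    · apply mul_ne_zero _ hne
      intro h
      have := congrArg (Polynomial.eval 0) h
      simp at this
      exact B.cos_t.ne' this

lemma VV_splits : (VV M q).Splits := by
  obtain ⟨h1, h2⟩ := B.rhs_splits
  apply h1.of_dvd h2
  rw [← B.poly_identity]
  exact Dvd.intro_left _ rfl

lemma Dl_eval_zero {θ : ℝ} (h0 : 0 ≤ θ) (hπ : θ ≤ π) :
    (Dl M q).eval (cos θ) = 0 ↔ (θ = q * tt M + tt M ∨ θ = q * tt M - tt M) := by
  rw [Dl_factor, mul_eq_zero, sub_eq_zero, sub_eq_zero]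
  constructor
  · rintro (h | h)
    · left; exact Real.injOn_cos ⟨h0, hπ⟩ ⟨by linarith [B.t0, B.α1], B.α2⟩ h
    · right; exact Real.injOn_cos ⟨h0, hπ⟩ ⟨by linarith [B.α1], by linarith [B.α2, B.t0]⟩ h
  · rintro (h | h)
    · left; rw [h]
    · right; rw [h]

/-- nonnegativity off the two special points -/
lemma YY_nonneg_off {θ : ℝ} (h0 : 0 < θ) (hπ : θ < π) (hD : (Dl M q).eval (cos θ) ≠ 0) :
    0 ≤ YY M (aq M q) θ := by
  have h := YY_formula (q := q) B.hM θ
  rw [← Dl_eval] at h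
  have hs : 0 < sin θ := Real.sin_pos_of_pos_of_lt_pi h0 hπ
  have hc1 : cos θ < 1 := by
    rw [← Real.cos_zero]; exact Real.cos_lt_cos_of_nonneg_of_le_pi le_rfl hπ.le h0
  have hc2 : -1 < cos θ := by
    rw [← Real.cos_pi]; exact Real.cos_lt_cos_of_nonneg_of_le_pi h0.le le_rfl hπ
  have hm := B.mid_pos hc2 hc1
  have he : 0 ≤ 1 + (-1) ^ q * cos (M * θ) := by
    have h1 := Real.neg_one_le_cos (M * θ)
    have h2 := Real.cos_le_one (M * θ)
    rcases neg_one_pow_eq_or ℝ q with h | h <;> rw [h] <;> linarith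
  have hR : 0 ≤ sin (tt M) ^ 3 * sin (q * tt M) * (sin θ * (cos (tt M) - cos (q * tt M) * cos θ) *
      (1 + (-1) ^ q * cos (M * θ))) := by
    have := B.sin_t; have := B.sin_α; positivity
  rw [← h] at hR
  have hD2 : 0 < ((Dl M q).eval (cos θ)) ^ 2 := by positivity
  by_contra hcon
  push Not at hcon
  nlinarith

open Filter Topology in
lemma YY_nonneg {θ : ℝ} (h0 : 0 ≤ θ) (hπ : θ ≤ π) : 0 ≤ YY M (aq M q) θ := by
  rcases eq_or_lt_of_le h0 with h | h0'
  · rw [← h, YY_zero]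
  rcases eq_or_lt_of_le hπ with h | hπ'
  · rw [h, YY_pi]
  have hcont : Tendsto (YY M (aq M q)) (𝓝[≠] θ) (𝓝 (YY M (aq M q) θ)) :=
    (YY_hasDerivAt θ).continuousAt.tendsto.mono_left nhdsWithin_le_nhds
  apply ge_of_tendsto hcont
  have ev : ∀ a : ℝ, ∀ᶠ x in 𝓝[≠] θ, x ≠ a := by
    intro a
    by_cases h : θ = a
    · rw [← h]; exact self_mem_nhdsWithin
    · exact mem_nhdsWithin_of_mem_nhds (isOpen_ne.mem_nhds h)
  have e1 : ∀ᶠ x in 𝓝[≠] θ, x ∈ Ioo 0 π :=
    mem_nhdsWithin_of_mem_nhds (isOpen_Ioo.mem_nhds ⟨h0', hπ'⟩)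
  filter_upwards [ev (q * tt M + tt M), ev (q * tt M - tt M), e1] with x hx1 hx2 hx3
  apply B.YY_nonneg_off hx3.1 hx3.2
  intro hD
  rcases (B.Dl_eval_zero hx3.1.le hx3.2.le).1 hD with h | h
  · exact hx1 h
  · exact hx2 h

/-- `1 + (-1)^q cos (M θ) = 0` with `|θ - α| < 3t` forces `θ = α ± t`. -/
lemma zero_forces {θ : ℝ} (h1 : q * tt M - 3 * tt M < θ) (h2 : θ < q * tt M + 3 * tt M)
    (h : 1 + (-1) ^ q * cos (M * θ) = 0) : θ = q * tt M + tt M ∨ θ = q * tt M - tt M := by
  have hc : cos (M * (θ - q * tt M)) = (-1) ^ q * cos (M * θ) := by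
    rw [mul_sub, B.Mα, Real.cos_sub_nat_mul_pi]
  have hc2 : cos (M * (θ - q * tt M)) = -1 := by rw [hc]; linarith
  obtain ⟨k, hk⟩ := Real.cos_eq_neg_one_iff.1 hc2
  have hMr : (0:ℝ) < M := by exact_mod_cast B.M0
  have ht := B.t0
  -- θ - α = (2k+1) t
  have e : θ - q * tt M = (2 * k + 1) * tt M := by
    have : (M:ℝ) * (θ - q * tt M) = M * ((2 * k + 1) * tt M) := by
      rw [← hk]; linear_combination (-(2 * (k:ℝ) + 1)) * B.Mt
    exact mul_left_cancel₀ hMr.ne' this
  have k1 : -1 ≤ k := by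
    by_contra hcon
    have : k ≤ -2 := by omega
    have hr : (k:ℝ) ≤ -2 := by exact_mod_cast this
    nlinarith
  have k2 : k ≤ 0 := by
    by_contra hcon
    have : 1 ≤ k := by omega
    have hr : (1:ℝ) ≤ k := by exact_mod_cast this
    nlinarith
  have : k = 0 ∨ k = -1 := by omega
  rcases this with h | h
  · left; rw [h] at e; push_cast at e; linarith
  · right; rw [h] at e; push_cast at e; linarith

/-- `V ≠ 0` in the middle region. -/
lemma VV_ne_zero {θ : ℝ} (h0 : 0 < θ) (hπ : θ < π) (h1 : q * tt M - 3 * tt M < θ)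
    (h2 : θ < q * tt M + 3 * tt M) : (VV M q).eval (cos θ) ≠ 0 := by
  intro hV
  have hc1 : cos θ < 1 := by
    rw [← Real.cos_zero]; exact Real.cos_lt_cos_of_nonneg_of_le_pi le_rfl hπ.le h0
  have hc2 : -1 < cos θ := by
    rw [← Real.cos_pi]; exact Real.cos_lt_cos_of_nonneg_of_le_pi h0.le le_rfl hπ
  have hm := B.mid_pos hc2 hc1
  have hκ : sin (tt M) ^ 3 * sin (q * tt M) ≠ 0 := by
    have := B.sin_t; have := B.sin_α; positivity
  have hid := B.poly_identity
  have hT : (Chebyshev.T ℝ (M:ℤ)).eval (cos θ) = cos (M * θ) := by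
    have := Chebyshev.T_real_cos θ (M:ℤ)
    rw [this]; push_cast; rfl
  have hev := congrArg (Polynomial.eval (cos θ)) hid
  simp only [eval_mul, eval_pow, eval_sub, eval_add, eval_one, eval_C, eval_X, hV, mul_zero,
    hT] at hev
  have hz : 1 + (-1) ^ q * cos (M * θ) = 0 := by
    rcases mul_eq_zero.1 hev.symm with h | h
    · exact absurd h hκ
    · rcases mul_eq_zero.1 h with h | h
      · exact absurd h hm.ne'
      · exact h
  have hθ := B.zero_forces h1 h2 hz
  have hD : (Dl M q).eval (cos θ) = 0 := (B.Dl_eval_zero h0.le hπ.le).2 hθ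
  have hT0 : cos (M * θ) ≠ 0 := by
    intro h; rw [h] at hz; simp at hz
  apply no_triple (n := M) B.M0 (ε := (-1) ^ q) hκ (b := cos (tt M)) (a := cos (q * tt M))
    (c := cos θ) hm.ne' (pow_ne_zero _ (by norm_num)) (by rw [hT]; exact hT0)
  rw [← hid]
  have d1 : (X - C (cos θ)) ∣ Dl M q := Polynomial.dvd_iff_isRoot.2 hD
  have d2 : (X - C (cos θ)) ∣ VV M q := Polynomial.dvd_iff_isRoot.2 hV
  calc (X - C (cos θ)) ^ 3 = (X - C (cos θ)) ^ 2 * (X - C (cos θ)) := by ring
    _ ∣ _ := mul_dvd_mul (pow_dvd_pow_of_dvd d1 2) d2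

lemma YY_pos {θ : ℝ} (h0 : 0 < θ) (hπ : θ < π) (h1 : q * tt M - 3 * tt M < θ)
    (h2 : θ < q * tt M + 3 * tt M) : 0 < YY M (aq M q) θ := by
  apply lt_of_le_of_ne (B.YY_nonneg h0.le hπ.le)
  rw [← VV_eval]
  have hs : 0 < sin θ := Real.sin_pos_of_pos_of_lt_pi h0 hπ
  exact (mul_ne_zero (B.VV_ne_zero h0 hπ h1 h2) hs.ne').symm

/-- `YY` vanishes at `α ± 3t`. -/
lemma YY_edge {θ : ℝ} (h0 : 0 ≤ θ) (hπ : θ ≤ π)
    (h : θ = q * tt M + 3 * tt M ∨ θ = q * tt M - 3 * tt M) : YY M (aq M q) θ = 0 := by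
  have hf := YY_formula (q := q) B.hM θ
  rw [← Dl_eval] at hf
  have ht := B.t0
  have hD : (Dl M q).eval (cos θ) ≠ 0 := by
    intro hD
    rcases (B.Dl_eval_zero h0 hπ).1 hD with h' | h' <;> rcases h with h | h <;> linarith
  have hc : cos (M * (θ - q * tt M)) = (-1) ^ q * cos (M * θ) := by
    rw [mul_sub, B.Mα, Real.cos_sub_nat_mul_pi]
  have h3 : cos (3 * π) = -1 := by
    rw [show (3:ℝ) * π = π + 2 * π by ring, Real.cos_add_two_pi, Real.cos_pi]
  have hz : 1 + (-1) ^ q * cos (M * θ) = 0 := by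
    rw [← hc]
    rcases h with h | h
    · have : (M:ℝ) * (θ - q * tt M) = 3 * π := by rw [h, ← B.Mt]; ring
      rw [this, h3]; ring
    · have : (M:ℝ) * (θ - q * tt M) = -(3 * π) := by rw [h, ← B.Mt]; ring
      rw [this, Real.cos_neg, h3]; ring
  rw [hz, mul_zero, mul_zero] at hf
  rcases mul_eq_zero.1 hf with h | h
  · exact absurd (pow_eq_zero_iff (two_ne_zero) |>.1 h) hD
  · exact h

/-- Existence of the hypotheses of the criterion. -/
theorem hyp : ∃ θm θ0 θp : ℝ, Hyp M (aq M q) θm θ0 θp := by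
  have ht := B.t0
  have hα1 := B.α1
  have hα2 := B.α2
  set θm : ℝ := max 0 (q * tt M - 3 * tt M) with hθm
  set θp : ℝ := min π (q * tt M + 3 * tt M) with hθp
  have m0 : 0 ≤ θm := le_max_left _ _
  have m1 : q * tt M - 3 * tt M ≤ θm := le_max_right _ _
  have p0 : θp ≤ π := min_le_left _ _
  have p1 : θp ≤ q * tt M + 3 * tt M := min_le_right _ _
  have mα : θm < q * tt M := max_lt (by linarith) (by linarith)
  have pα : q * tt M < θp := lt_min (by linarith) (by linarith)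
  have hmp : θm < θp := mα.trans pα
  have Ym : YY M (aq M q) θm = 0 := by
    rcases max_choice (0:ℝ) (q * tt M - 3 * tt M) with h | h
    · rw [hθm, h, YY_zero]
    · exact B.YY_edge m0 (by linarith) (Or.inr (hθm.trans h))
  have Yp : YY M (aq M q) θp = 0 := by
    rcases min_choice π (q * tt M + 3 * tt M) with h | h
    · rw [hθp, h, YY_pi]
    · exact B.YY_edge (by linarith) p0 (Or.inl (hθp.trans h))
  -- the polynomial W
  set W : ℝ[X] := (1 - X ^ 2) * VV M q ^ 2 with hW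
  have Wsplits : W.Splits := one_sub_X_sq_splits.mul (B.VV_splits.pow 2)
  have Weval : ∀ θ, W.eval (cos θ) = YY M (aq M q) θ ^ 2 := by
    intro θ
    rw [← VV_eval, hW]
    simp only [eval_mul, eval_sub, eval_one, eval_pow, eval_X]
    have := Real.sin_sq_add_cos_sq θ
    linear_combination (-(eval (cos θ) (VV M q)) ^ 2) * this
  have hcos : cos θp < cos θm := Real.cos_lt_cos_of_nonneg_of_le_pi m0 p0 hmp
  have Wpos : ∀ c ∈ Ioo (cos θp) (cos θm), 0 < W.eval c := by
    intro c hc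
    have b1 : -1 ≤ c := (Real.neg_one_le_cos _).trans hc.1.le
    have b2 : c ≤ 1 := hc.2.le.trans (Real.cos_le_one _)
    have e : cos (arccos c) = c := Real.cos_arccos b1 b2
    rw [← e, Weval]
    have hlt1 : θm < arccos c := by
      by_contra hcon
      push Not at hcon
      have := Real.cos_le_cos_of_nonneg_of_le_pi (Real.arccos_nonneg c) (by linarith) hcon
      rw [e] at this; linarith [hc.2]
    have hlt2 : arccos c < θp := by
      by_contra hcon
      push Not at hcon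
      have := Real.cos_le_cos_of_nonneg_of_le_pi (by linarith) (Real.arccos_le_pi c) hcon
      rw [e] at this; linarith [hc.1]
    have := B.YY_pos (θ := arccos c) (by linarith) (by linarith) (by linarith) (by linarith)
    positivity
  obtain ⟨c0, hc0, hle, hge⟩ := unimodal Wsplits hcos Wpos (by rw [Weval, Yp]; norm_num)
    (by rw [Weval, Ym]; norm_num)
  have b1 : -1 ≤ c0 := (Real.neg_one_le_cos _).trans hc0.1.le
  have b2 : c0 ≤ 1 := hc0.2.le.trans (Real.cos_le_one _)
  have e0 : cos (arccos c0) = c0 := Real.cos_arccos b1 b2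
  have hlt1 : θm < arccos c0 := by
    by_contra hcon
    push Not at hcon
    have := Real.cos_le_cos_of_nonneg_of_le_pi (Real.arccos_nonneg c0) (by linarith) hcon
    rw [e0] at this; linarith [hc0.2]
  have hlt2 : arccos c0 < θp := by
    by_contra hcon
    push Not at hcon
    have := Real.cos_le_cos_of_nonneg_of_le_pi (by linarith) (Real.arccos_le_pi c0) hcon
    rw [e0] at this; linarith [hc0.1]
  -- derivative relation
  have hder : ∀ θ, 2 * YY M (aq M q) θ * Y1 M (aq M q) θ =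
      -(sin θ * (derivative W).eval (cos θ)) := by
    intro θ
    have h1 : HasDerivAt (fun θ => YY M (aq M q) θ ^ 2)
        (2 * YY M (aq M q) θ * Y1 M (aq M q) θ) θ := by
      have := (YY_hasDerivAt (n := M) (a := aq M q) θ).pow 2
      refine this.congr_deriv ?_
      simp
    have h2 : HasDerivAt (fun θ => W.eval (cos θ)) ((derivative W).eval (cos θ) * (-sin θ)) θ :=
      (W.hasDerivAt (cos θ)).comp θ (Real.hasDerivAt_cos θ)
    have h3 : (fun θ => W.eval (cos θ)) = fun θ => YY M (aq M q) θ ^ 2 := by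
      funext θ; exact Weval θ
    rw [h3] at h2
    rw [h1.unique h2]; ring
  refine ⟨θm, arccos c0, θp, ?_⟩
  refine ⟨by have := B.hM; omega, ?_, ?_, m0, hlt1, hlt2, p0, fun θ h0 hπ => B.YY_nonneg h0 hπ,
    ?_, ?_, ?_, ?_⟩
  · unfold aq; simp
  · unfold aq AA
    have hMr : (3:ℝ) ≤ M := by exact_mod_cast B.hM
    have h1 := B.sin_t
    have h2 := B.cos_t
    have h3 := B.sin_α
    push_cast
    rw [one_mul, one_mul]
    apply mul_pos _ h3
    have : 0 < ((M:ℝ) - 1) * sin (tt M) * cos (tt M) := by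
      apply mul_pos (mul_pos (by linarith) h1) h2
    have : 0 < cos (tt M) * sin (tt M) := mul_pos h2 h1
    linarith
  · intro θ h0 h1
    rcases max_choice (0:ℝ) (q * tt M - 3 * tt M) with h | h
    · rw [hθm, h] at h1; linarith
    · have e : θm = q * tt M - 3 * tt M := hθm.trans h
      apply C1 B.hM B.hq B.hqM h0.le (by linarith)
      rw [abs_of_nonpos (by linarith)]; linarith
  · intro θ h1 h2
    rcases min_choice π (q * tt M + 3 * tt M) with h | h
    · rw [hθp, h] at h1; linarith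
    · have e : θp = q * tt M + 3 * tt M := hθp.trans h
      apply C1 B.hM B.hq B.hqM (by linarith) h2.le
      rw [abs_of_nonneg (by linarith)]; linarith
  · intro θ h1 h2
    have hθ0 : 0 < θ := by linarith
    have hθπ : θ < π := by linarith
    have hs : 0 < sin θ := Real.sin_pos_of_pos_of_lt_pi hθ0 hθπ
    have hY := B.YY_pos hθ0 hθπ (by linarith) (by linarith)
    have hc : c0 ≤ cos θ := by
      rw [← e0]
      exact Real.cos_le_cos_of_nonneg_of_le_pi hθ0.le (Real.arccos_le_pi _) h2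
    have hmem : cos θ ∈ Ioo (cos θp) (cos θm) :=
      ⟨hc0.1.trans_le hc, Real.cos_lt_cos_of_nonneg_of_le_pi m0 hθπ.le h1⟩
    have hd := hge _ hmem hc
    have h := hder θ
    have : 0 ≤ -(sin θ * (derivative W).eval (cos θ)) := by
      have := mul_nonneg hs.le (neg_nonneg.2 hd); linarith
    rw [← h] at this
    by_contra hcon
    push Not at hcon
    nlinarith
  · intro θ h1 h2
    have hθ0 : 0 < θ := by linarith
    have hθπ : θ < π := by linarith
    have hs : 0 < sin θ := Real.sin_pos_of_pos_of_lt_pi hθ0 hθπ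
    have hY := B.YY_pos hθ0 hθπ (by linarith) (by linarith)
    have hc : cos θ ≤ c0 := by
      rw [← e0]
      exact Real.cos_le_cos_of_nonneg_of_le_pi (Real.arccos_nonneg _) hθπ.le h1
    have hmem : cos θ ∈ Ioo (cos θp) (cos θm) :=
      ⟨Real.cos_lt_cos_of_nonneg_of_le_pi hθ0.le p0 h2, hc.trans_lt hc0.2⟩
    have hd := hle _ hmem hc
    have h := hder θ
    have : -(sin θ * (derivative W).eval (cos θ)) ≤ 0 := by
      have := mul_nonneg hs.le hd; linarith
    rw [← h] at this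
    by_contra hcon
    push Not at hcon
    nlinarith

theorem injOn : InjOn (FF M (aq M q)) (Metric.ball 0 1) := by
  obtain ⟨θm, θ0, θp, H⟩ := B.hyp
  exact injOn_ball H

end Basic

end

end Pool.Agent.H.MP_921603_an
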