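import Pool.Agent.H.MP_921603_an.Half
import Pool.Agent.H.MP_921603_an.Harm

set_option autoImplicit false

namespace Pool.Agent.H.MP_921603_an

open Complex Metric Set Filter Topology

lemma zz_scaled {w : ℂ} (c : ℝ) :
    2 * zz w * (w + c) = -((zz w) ^ 2 - 2 * (c : ℂ) * zz w + 1) := by
  linear_combination zz_quad w

lemma twice_zz_mul_S {w : ℂ} (hw : 0 < w.im) (φ ψ : ℝ) :
    2 * zz w * (Complex.sqrt (w + Real.cos φ) * Complex.sqrt (w + Real.cos ψ))
      = -(kap φ (zz w) * kap ψ (zz w)) := by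
  have hz := zz_mem hw
  have h2z : 0 < (2 * zz w).im := by
    have : (2 * zz w).im = 2 * (zz w).im := by
      rw [show (2:ℂ) * zz w = ((2:ℝ):ℂ) * zz w by push_cast; ring, Complex.im_ofReal_mul]
    rw [this]; have := hz.2; linarith
  have key : ∀ φ : ℝ, Complex.sqrt (2 * zz w) * Complex.sqrt (w + Real.cos φ) =
      I * kap φ (zz w) := by
    intro φ
    apply eq_of_sq_eq_of_im_pos
    · have h1 := sqrt_mul_self' (2 * zz w)
      have h2 := sqrt_mul_self' (w + Real.cos φ)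
      have h3 := kap_mul_self φ (zz w)
      have h4 := zz_scaled (w := w) (Real.cos φ)
      calc _ = (Complex.sqrt (2 * zz w) * Complex.sqrt (2 * zz w)) *
          (Complex.sqrt (w + Real.cos φ) * Complex.sqrt (w + Real.cos φ)) := by ring
        _ = 2 * zz w * (w + Real.cos φ) := by rw [h1, h2]
        _ = -(kap φ (zz w) * kap φ (zz w)) := by rw [h4, h3]
        _ = _ := by linear_combination (-(kap φ (zz w) * kap φ (zz w))) * Complex.I_sq
    · apply im_sqrt_mul_sqrt_pos h2z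
      simpa using hw
    · have h5 := kap_re_pos φ hz.1
      simp only [Complex.mul_im, I_re, I_im, zero_mul, one_mul, zero_add]
      exact h5
  have h1 := sqrt_mul_self' (2 * zz w)
  have a1 := key φ
  have a2 := key ψ
  calc _ = (Complex.sqrt (2 * zz w) * Complex.sqrt (2 * zz w)) *
        (Complex.sqrt (w + Real.cos φ) * Complex.sqrt (w + Real.cos ψ)) := by rw [h1]
    _ = (Complex.sqrt (2 * zz w) * Complex.sqrt (w + Real.cos φ)) *
        (Complex.sqrt (2 * zz w) * Complex.sqrt (w + Real.cos ψ)) := by ring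
    _ = _ := by
      rw [a1, a2]; linear_combination (kap φ (zz w) * kap ψ (zz w)) * Complex.I_sq

section
variable (A B w0 : ℝ)

/-- The Möbius image. -/
noncomputable def ww (ζ : ℂ) : ℂ := w0 - 1 / (A * Complex.sin ζ + B)

variable {A B w0}

lemma sin_im_pos {ζ : ℂ} (hζ : ζ ∈ HS) : 0 < (Complex.sin ζ).im := by
  rw [sin_im_eq]
  exact mul_pos (Real.cos_pos_of_mem_Ioo ⟨hζ.1, hζ.2.1⟩) (Real.sinh_pos_iff.2 hζ.2.2)

lemma T_im_pos (hA : 0 < A) {ζ : ℂ} (hζ : ζ ∈ HS) : 0 < ((A : ℂ) * Complex.sin ζ + B).im := by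
  rw [add_im, Complex.im_ofReal_mul, ofReal_im, add_zero]
  exact mul_pos hA (sin_im_pos hζ)

lemma T_ne (hA : 0 < A) {ζ : ℂ} (hζ : ζ ∈ HS) : ((A : ℂ) * Complex.sin ζ + B) ≠ 0 := by
  intro h
  have := T_im_pos (B := B) hA hζ
  rw [h] at this; simp at this

lemma ww_im_pos (hA : 0 < A) {ζ : ℂ} (hζ : ζ ∈ HS) : 0 < (ww A B w0 ζ).im := by
  unfold ww
  have h1 := T_im_pos (B := B) hA hζ
  have h2 := normSq_pos' (T_ne (B := B) hA hζ)
  rw [sub_im, ofReal_im, one_div, Complex.inv_im]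
  have : -((A : ℂ) * Complex.sin ζ + B).im / normSq ((A : ℂ) * Complex.sin ζ + B) < 0 := by
    apply div_neg_of_neg_of_pos _ h2; linarith
  linarith

lemma ww_hasDerivAt (hA : 0 < A) {ζ : ℂ} (hζ : ζ ∈ HS) :
    HasDerivAt (ww A B w0) (A * Complex.cos ζ * (ww A B w0 ζ - w0) ^ 2) ζ := by
  have hne := T_ne (B := B) hA hζ
  have h1 : HasDerivAt (fun ζ => (A : ℂ) * Complex.sin ζ + B) (A * Complex.cos ζ) ζ :=
    ((Complex.hasDerivAt_sin ζ).const_mul (A:ℂ)).add_const (B:ℂ)
  have h2 := (h1.inv hne).const_sub (w0 : ℂ)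
  have h3 : HasDerivAt (ww A B w0)
      (-(-(A * Complex.cos ζ) / ((A : ℂ) * Complex.sin ζ + B) ^ 2)) ζ := by
    have e : (fun x => (w0:ℂ) - (fun ζ => (A : ℂ) * Complex.sin ζ + B)⁻¹ x) = ww A B w0 := by
      funext x; simp [ww, one_div]
    rw [← e]; exact h2
  refine h3.congr_deriv ?_
  unfold ww
  field_simp
  ring

/-- `A (w - w₀) cos ζ = √(pn) √(w - w₋) √(w - w₊)`. -/
lemma E1 {p n cm cp : ℝ} (hp : 0 < p) (hn : 0 < n) (hA : A = (p + n) / 2) (hB : B = (p - n) / 2)
    (h1 : p * (w0 + cm) = 1) (h2 : n * (-cp - w0) = 1) {ζ : ℂ} (hζ : ζ ∈ HS) :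
    A * (ww A B w0 ζ - w0) * Complex.cos ζ =
      Real.sqrt (p * n) * (Complex.sqrt (ww A B w0 ζ + cm) * Complex.sqrt (ww A B w0 ζ + cp)) := by
  have hA0 : 0 < A := by rw [hA]; linarith
  have hpn : 0 < p * n := mul_pos hp hn
  have hT := T_ne (B := B) hA0 hζ
  have hw := ww_im_pos (B := B) (w0 := w0) hA0 hζ
  set w := ww A B w0 ζ with hwd
  have hwT : (w - w0) * ((A : ℂ) * Complex.sin ζ + B) = -1 := by
    rw [hwd]; unfold ww
    field_simp
    ring
  apply eq_of_sq_eq_of_im_pos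
  · have s1 := sqrt_mul_self' (w + cm)
    have s2 := sqrt_mul_self' (w + cp)
    have s3 := ofReal_sqrt_mul_self (x := p * n) hpn.le
    have hcs : Complex.cos ζ ^ 2 = 1 - Complex.sin ζ ^ 2 := by
      rw [← Complex.sin_sq_add_cos_sq ζ]; ring
    have rhs : (Real.sqrt (p * n) * (Complex.sqrt (w + cm) * Complex.sqrt (w + cp))) *
        (Real.sqrt (p * n) * (Complex.sqrt (w + cm) * Complex.sqrt (w + cp))) =
        (p * n : ℝ) * ((w + cm) * (w + cp)) := by
      calc _ = ((Real.sqrt (p * n) : ℝ) * (Real.sqrt (p * n) : ℝ) : ℂ) *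
            ((Complex.sqrt (w + cm) * Complex.sqrt (w + cm)) *
            (Complex.sqrt (w + cp) * Complex.sqrt (w + cp))) := by ring
        _ = _ := by rw [s1, s2, s3]
    rw [rhs]
    have h1' : (p : ℂ) * (w0 + cm) = 1 := by exact_mod_cast h1
    have h2' : (n : ℂ) * (-cp - w0) = 1 := by exact_mod_cast h2
    have e1 : (p : ℂ) * (w + cm) = p * (w - w0) + 1 := by linear_combination h1'
    have e2 : (n : ℂ) * (w + cp) = n * (w - w0) - 1 := by linear_combination -h2'
    have hAc : (A : ℂ) = (p + n) / 2 := by rw [hA]; push_cast; ring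
    have hBc : (B : ℂ) = (p - n) / 2 := by rw [hB]; push_cast; ring
    have lhs : (A * (w - w0) * Complex.cos ζ) * (A * (w - w0) * Complex.cos ζ)
        = (w - w0) ^ 2 * (A ^ 2 - (A * Complex.sin ζ) ^ 2) := by
      linear_combination (A * (w - w0)) ^ 2 * hcs
    rw [lhs]
    have e3 : (w - w0) * (A * Complex.sin ζ) = -1 - B * (w - w0) := by
      linear_combination hwT
    calc (w - w0) ^ 2 * (A ^ 2 - (A * Complex.sin ζ) ^ 2)
        = (A * (w - w0)) ^ 2 - ((w - w0) * (A * Complex.sin ζ)) ^ 2 := by ring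
      _ = (A * (w - w0)) ^ 2 - (-1 - B * (w - w0)) ^ 2 := by rw [e3]
      _ = (p * (w - w0) + 1) * (n * (w - w0) - 1) := by rw [hAc, hBc]; ring
      _ = (p * (w + cm)) * (n * (w + cp)) := by rw [e1, e2]
      _ = _ := by push_cast; ring
  · -- imaginary part of the left side
    have e : A * (w - w0) * Complex.cos ζ = (A:ℂ) * ((w - w0) * Complex.cos ζ) := by ring
    rw [e, Complex.im_ofReal_mul]
    apply mul_pos hA0
    have e2 : (w - w0) * Complex.cos ζ = -(Complex.cos ζ / ((A : ℂ) * Complex.sin ζ + B)) := by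
      rw [eq_neg_iff_add_eq_zero]
      field_simp
      linear_combination (Complex.cos ζ) * hwT
    rw [e2, neg_im, Complex.div_im]
    have hN := normSq_pos' hT
    have hre : ((A : ℂ) * Complex.sin ζ + B).re = A * (Real.sin ζ.re * Real.cosh ζ.im) + B := by
      rw [add_re, Complex.re_ofReal_mul, ofReal_re]
      congr 2
      conv_lhs => rw [← re_add_im ζ, Complex.sin_add_mul_I]
      simp [Complex.mul_re, Complex.add_re, Complex.sin_ofReal_re, Complex.cosh_ofReal_re,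
        Complex.cos_ofReal_im, Complex.sinh_ofReal_im]
    have him : ((A : ℂ) * Complex.sin ζ + B).im = A * (Real.cos ζ.re * Real.sinh ζ.im) := by
      rw [add_im, Complex.im_ofReal_mul, ofReal_im, add_zero, sin_im_eq]
    have hcre : (Complex.cos ζ).re = Real.cos ζ.re * Real.cosh ζ.im := by
      conv_lhs => rw [← re_add_im ζ, Complex.cos_add_mul_I]
      simp [Complex.mul_re, Complex.sub_re, Complex.cos_ofReal_re, Complex.cosh_ofReal_re,
        Complex.sin_ofReal_im, Complex.sinh_ofReal_im]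
    have hcim : (Complex.cos ζ).im = -(Real.sin ζ.re * Real.sinh ζ.im) := by
      conv_lhs => rw [← re_add_im ζ, Complex.cos_add_mul_I]
      simp [Complex.mul_im, Complex.sub_im, Complex.cos_ofReal_re, Complex.sinh_ofReal_re,
        Complex.sin_ofReal_re, Complex.cosh_ofReal_im, Complex.cos_ofReal_im]
    rw [hre, him, hcre, hcim]
    have hsh : 0 < Real.sinh ζ.im := Real.sinh_pos_iff.2 hζ.2.2
    have hch : 1 < Real.cosh ζ.im := Real.one_lt_cosh.2 hζ.2.2.ne'
    have hcs := Real.sin_sq_add_cos_sq ζ.re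
    have e3 : -(-(Real.sin ζ.re * Real.sinh ζ.im) * (A * (Real.sin ζ.re * Real.cosh ζ.im) + B) /
        normSq ((A : ℂ) * Complex.sin ζ + B) -
        Real.cos ζ.re * Real.cosh ζ.im * (A * (Real.cos ζ.re * Real.sinh ζ.im)) /
        normSq ((A : ℂ) * Complex.sin ζ + B))
        = Real.sinh ζ.im * (A * Real.cosh ζ.im + B * Real.sin ζ.re) /
          normSq ((A : ℂ) * Complex.sin ζ + B) := by
      rw [← sub_div, ← neg_div]
      congr 1
      linear_combination (A * Real.sinh ζ.im * Real.cosh ζ.im) * hcs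
    rw [e3]
    apply div_pos _ hN
    apply mul_pos hsh
    have hs1 := Real.neg_one_le_sin ζ.re
    have hs2 := Real.sin_le_one ζ.re
    have hAB1 : B < A := by rw [hA, hB]; linarith
    have hAB2 : -B < A := by rw [hA, hB]; linarith
    have h5 : A < A * Real.cosh ζ.im := by nlinarith
    have h6 : -A ≤ B * Real.sin ζ.re := by
      rcases le_total 0 B with hb | hb
      · nlinarith
      · nlinarith
    linarith
  · rw [Complex.im_ofReal_mul]
    apply mul_pos (Real.sqrt_pos.2 hpn)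
    apply im_sqrt_mul_sqrt_pos
    · simpa using hw
    · simpa using hw

end

lemma alg_final {f z w w0 A c s Km Kp S D Q : ℂ} (e1 : A * (w - w0) * c = s * S)
    (e2 : 2 * z * S = -(Km * Kp)) (e3 : 2 * z * (w - w0) = -Q) :
    f * (2 * z ^ 2 / D * (A * c * (w - w0) ^ 2)) = (s / 2) * (f * Q * Km * Kp / D) := by
  have l : f * (2 * z ^ 2 / D * (A * c * (w - w0) ^ 2)) =
      (f / 2 * (2 * z * (A * (w - w0) * c)) * (2 * z * (w - w0))) / D := by ring
  have r : (s / 2) * (f * Q * Km * Kp / D) = (f / 2 * s * (-(Km * Kp)) * (-Q)) / D := by ring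
  rw [l, r, e1, e3, ← e2]
  congr 1
  ring

/-- The main geometric criterion on the upper half disc. -/
theorem injOn_Dp {F F' : ℂ → ℂ} {θm θ0 θp : ℝ} (h0 : 0 ≤ θm) (h1 : θm < θ0) (h2 : θ0 < θp)
    (h3 : θp ≤ Real.pi) (hF : ∀ z ∈ Dp, HasDerivAt F (F' z) z)
    (hpos : ∀ z ∈ Dp, 0 < (F' z * (z ^ 2 - 2 * (Real.cos θ0 : ℝ) * z + 1) * kap θm z * kap θp z /
      (1 - z ^ 2)).re) : InjOn F Dp := by
  have hc1 : Real.cos θ0 < Real.cos θm :=
    Real.cos_lt_cos_of_nonneg_of_le_pi h0 (by linarith) h1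
  have hc2 : Real.cos θp < Real.cos θ0 :=
    Real.cos_lt_cos_of_nonneg_of_le_pi (by linarith) h3 h2
  set p : ℝ := 1 / (Real.cos θm - Real.cos θ0) with hp
  set n : ℝ := 1 / (Real.cos θ0 - Real.cos θp) with hn
  have hp0 : 0 < p := by rw [hp]; apply one_div_pos.2; linarith
  have hn0 : 0 < n := by rw [hn]; apply one_div_pos.2; linarith
  set A : ℝ := (p + n) / 2 with hA
  set B : ℝ := (p - n) / 2 with hB
  set w0 : ℝ := -Real.cos θ0 with hw0
  have hA0 : 0 < A := by rw [hA]; linarith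
  have q1 : p * (w0 + Real.cos θm) = 1 := by
    rw [hp, hw0]
    have : Real.cos θm - Real.cos θ0 ≠ 0 := by linarith
    field_simp
    ring
  have q2 : n * (-Real.cos θp - w0) = 1 := by
    rw [hn, hw0]
    have : Real.cos θ0 - Real.cos θp ≠ 0 := by linarith
    field_simp
    ring
  let H : ℂ → ℂ := fun ζ => zz (ww A B w0 ζ)
  have hH : ∀ ζ ∈ HS, H ζ ∈ Dp := fun ζ hζ => zz_mem (ww_im_pos hA0 hζ)
  have hinj : InjOn (fun ζ => F (H ζ)) HS := by
    apply injOn_of_re_deriv_pos HS_convex (f' := fun ζ => ((Real.sqrt (p * n) / 2 : ℝ) : ℂ) *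
      (F' (H ζ) * ((H ζ) ^ 2 - 2 * (Real.cos θ0 : ℝ) * (H ζ) + 1) * kap θm (H ζ) * kap θp (H ζ) /
      (1 - (H ζ) ^ 2)))
    · intro ζ hζ
      have d1 := ww_hasDerivAt (B := B) (w0 := w0) hA0 hζ
      have hwim := ww_im_pos (B := B) (w0 := w0) hA0 hζ
      have d2 := zz_hasDerivAt hwim
      have d3 := hF _ (hH ζ hζ)
      have d4 := d3.comp ζ (d2.comp ζ d1)
      refine HasDerivAt.congr_deriv (f' := _) d4 ?_
      show F' (zz (ww A B w0 ζ)) * (2 * zz (ww A B w0 ζ) ^ 2 / (1 - zz (ww A B w0 ζ) ^ 2) *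
        (A * Complex.cos ζ * (ww A B w0 ζ - w0) ^ 2)) = ((Real.sqrt (p * n) / 2 : ℝ) : ℂ) *
          (F' (zz (ww A B w0 ζ)) * ((zz (ww A B w0 ζ)) ^ 2 - 2 * (Real.cos θ0 : ℝ) *
            (zz (ww A B w0 ζ)) + 1) * kap θm (zz (ww A B w0 ζ)) * kap θp (zz (ww A B w0 ζ)) /
            (1 - (zz (ww A B w0 ζ)) ^ 2))
      have e1 := E1 (A := A) (B := B) (w0 := w0) hp0 hn0 hA hB q1 q2 hζ
      have e2 := twice_zz_mul_S hwim θm θp
      have e3 := zz_scaled (w := ww A B w0 ζ) (Real.cos θ0)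
      have hw0c : (w0 : ℂ) = -(Real.cos θ0 : ℝ) := by rw [hw0]; push_cast; ring
      have e3' : 2 * zz (ww A B w0 ζ) * (ww A B w0 ζ - w0) =
          -((zz (ww A B w0 ζ)) ^ 2 - 2 * (Real.cos θ0 : ℝ) * (zz (ww A B w0 ζ)) + 1) := by
        rw [← e3, hw0c]; ring
      have := alg_final (f := F' (zz (ww A B w0 ζ))) (D := 1 - (zz (ww A B w0 ζ)) ^ 2) e1 e2 e3'
      rw [this]
      push_cast
      ring
    · intro ζ hζ
      rw [Complex.re_ofReal_mul]
      apply mul_pos
      · have := Real.sqrt_pos.2 (mul_pos hp0 hn0); linarith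
      · exact hpos _ (hH ζ hζ)
  -- surjectivity
  have hsurj : ∀ z ∈ Dp, ∃ ζ ∈ HS, H ζ = z := by
    intro z hz
    obtain ⟨s1, s2⟩ := zz_surj hz
    set w := -(z + z⁻¹) / 2 with hw
    have hww0 : (w - w0) ≠ 0 := by
      intro h
      have : (w - w0).im = 0 := by rw [h]; simp
      rw [sub_im, ofReal_im, sub_zero] at this
      linarith
    set T := -(1 / (w - w0)) with hT
    have hTim : 0 < T.im := by
      rw [hT, neg_im, one_div, Complex.inv_im]
      have hN := normSq_pos' hww0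
      have e : (w - w0 : ℂ).im = w.im := by simp
      rw [e]
      have : 0 < w.im / normSq (w - w0) := div_pos s1 hN
      have e2 : -(-w.im / normSq (w - w0)) = w.im / normSq (w - w0) := by ring
      rw [e2]; exact this
    have hAc : (A : ℂ) ≠ 0 := by exact_mod_cast hA0.ne'
    have hu : 0 < ((T - B) / A).im := by
      rw [show (T - B) / A = ((1 / A : ℝ) : ℂ) * (T - B) by push_cast; field_simp]
      rw [Complex.im_ofReal_mul, sub_im, ofReal_im, sub_zero]
      positivity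
    obtain ⟨ζ, hζ, hs⟩ := exists_sin_eq hu
    refine ⟨ζ, hζ, ?_⟩
    show zz (ww A B w0 ζ) = z
    have : ww A B w0 ζ = w := by
      unfold ww
      rw [hs]
      have : (A : ℂ) * ((T - B) / A) + B = T := by field_simp; ring
      rw [this, hT]
      field_simp
      ring
    rw [this, s2]
  intro a ha b hb hab
  obtain ⟨α, hα, rfl⟩ := hsurj a ha
  obtain ⟨β, hβ, rfl⟩ := hsurj b hb
  have := hinj hα hβ hab
  rw [this]

end Pool.Agent.H.MP_921603_an
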