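import Mathlib

set_option autoImplicit false

namespace Pool.Agent.H.MP_921603_an

open Complex Finset

section
variable (M : ℕ)

/-- `t = π / M`. -/
noncomputable def tt : ℝ := Real.pi / M

/-- The Fejér type weights. -/
noncomputable def AA (j : ℕ) : ℝ :=
  (M - j) * Real.sin (tt M) * Real.cos (j * tt M) + Real.cos (tt M) * Real.sin (j * tt M)

/-- `ρ`. -/
noncomputable def rho (y : ℝ) : ℝ := ∑ j ∈ range M, AA M j * Real.cos (j * y)
/-- `κ`. -/
noncomputable def kpa (y : ℝ) : ℝ := ∑ j ∈ range M, AA M j * Real.sin (j * y)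
/-- `κ'`. -/
noncomputable def k1 (y : ℝ) : ℝ := ∑ j ∈ range M, AA M j * (j * Real.cos (j * y))

variable {M}

lemma sum_one (w : ℂ) (m : ℕ) : (∑ j ∈ range m, w ^ j) * (1 - w) = 1 - w ^ m := by
  have := geom_sum_mul w m
  linear_combination -this

lemma sum_two (w : ℂ) (m : ℕ) : (∑ j ∈ range m, ((m:ℂ) - j) * w ^ j) * (1 - w) ^ 2 =
    m * (1 - w) - w * (1 - w ^ m) := by
  induction m with
  | zero => simp
  | succ m ih =>
    have e : (∑ j ∈ range (m + 1), (((m + 1 : ℕ) : ℂ) - j) * w ^ j) =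
        (∑ j ∈ range m, ((m:ℂ) - j) * w ^ j) + ∑ j ∈ range (m + 1), w ^ j := by
      have e1 : (∑ j ∈ range (m + 1), (((m + 1 : ℕ) : ℂ) - j) * w ^ j) =
          (∑ j ∈ range (m + 1), ((m:ℂ) - j) * w ^ j) + ∑ j ∈ range (m + 1), w ^ j := by
        rw [← Finset.sum_add_distrib]
        apply Finset.sum_congr rfl
        intro j _
        push_cast; ring
      rw [e1, Finset.sum_range_succ (fun j => ((m:ℂ) - j) * w ^ j)]
      simp
    rw [e]
    have h1 := sum_one w (m + 1)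
    push_cast
    linear_combination ih + (1 - w) * h1

lemma M_mul_tt (hM : 0 < M) : (M:ℝ) * tt M = Real.pi := by
  unfold tt
  have : (M:ℝ) ≠ 0 := by positivity
  field_simp

lemma AA_complex (z : ℂ) (j : ℕ) :
    (AA M j : ℂ) * z ^ j =
    (Real.sin (tt M) / 2 : ℂ) * (((M:ℂ) - j) * (z * exp (tt M * I)) ^ j +
      ((M:ℂ) - j) * (z * exp (-tt M * I)) ^ j) +
    (Real.cos (tt M) / (2 * I) : ℂ) * ((z * exp (tt M * I)) ^ j - (z * exp (-tt M * I)) ^ j) := by
  have h1 : ((Real.cos (j * tt M) : ℝ) : ℂ) =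
      (exp (tt M * I) ^ j + exp (-tt M * I) ^ j) / 2 := by
    rw [Complex.ofReal_cos, Complex.cos, ← Complex.exp_nat_mul, ← Complex.exp_nat_mul]
    push_cast; congr 2
    · congr 1; ring
    · congr 1; ring
  have h2 : ((Real.sin (j * tt M) : ℝ) : ℂ) =
      (exp (tt M * I) ^ j - exp (-tt M * I) ^ j) / (2 * I) := by
    rw [Complex.ofReal_sin, Complex.sin, ← Complex.exp_nat_mul, ← Complex.exp_nat_mul]
    rw [eq_div_iff (by simp [I_ne_zero] : (2 * I : ℂ) ≠ 0)]
    push_cast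
    have e1 : -(↑j * ↑(tt M)) * I = ↑j * (-↑(tt M) * I) := by ring
    have e2 : ↑j * ↑(tt M) * I = ↑j * (↑(tt M) * I) := by ring
    rw [e1, e2]
    linear_combination (cexp (↑j * (-↑(tt M) * I)) - cexp (↑j * (↑(tt M) * I))) * Complex.I_sq
  unfold AA
  rw [Complex.ofReal_add, Complex.ofReal_mul, Complex.ofReal_mul, Complex.ofReal_mul, h1, h2]
  rw [mul_pow, mul_pow]
  push_cast
  have hI : (2 * I : ℂ) ≠ 0 := by simp [I_ne_zero]
  field_simp

/-- The key generating function identity. -/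
lemma G_identity (hM : 0 < M) (z : ℂ) :
    (∑ j ∈ range M, (AA M j : ℂ) * z ^ j) * (1 - 2 * Real.cos (tt M) * z + z ^ 2) ^ 2 =
    Real.sin (tt M) * (M * (1 - Real.cos (tt M) * z) * (1 - 2 * Real.cos (tt M) * z + z ^ 2) +
      2 * Real.sin (tt M) ^ 2 * z ^ 2 * (1 + z ^ M)) := by
  set w1 := z * exp (tt M * I) with hw1
  set w2 := z * exp (-tt M * I) with hw2
  have hpi : (M:ℂ) * (tt M : ℂ) = Real.pi := by exact_mod_cast M_mul_tt hM
  have p1 : w1 ^ M = -z ^ M := by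
    rw [hw1, mul_pow, ← Complex.exp_nat_mul, ← mul_assoc, hpi, Complex.exp_pi_mul_I]; ring
  have p2 : w2 ^ M = -z ^ M := by
    rw [hw2, mul_pow, ← Complex.exp_nat_mul]
    have : (M:ℂ) * (-(tt M : ℂ) * I) = -(Real.pi * I) := by rw [← hpi]; ring
    rw [this, Complex.exp_neg, Complex.exp_pi_mul_I]; norm_num
  have hc : ((Real.cos (tt M) : ℝ) : ℂ) = (exp (tt M * I) + exp (-tt M * I)) / 2 := by
    rw [Complex.ofReal_cos, Complex.cos]
  have hs : ((Real.sin (tt M) : ℝ) : ℂ) = (exp (-tt M * I) - exp (tt M * I)) * I / 2 := by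
    rw [Complex.ofReal_sin, Complex.sin]
  have hee : exp (tt M * I) * exp (-tt M * I) = 1 := by rw [← Complex.exp_add]; simp
  have hsum : w1 + w2 = 2 * Real.cos (tt M) * z := by rw [hw1, hw2, hc]; ring
  have hprod : w1 * w2 = z ^ 2 := by rw [hw1, hw2]; linear_combination z ^ 2 * hee
  have hdiff : w1 - w2 = 2 * I * Real.sin (tt M) * z := by
    rw [hw1, hw2, hs]
    linear_combination (z * (exp (tt M * I) - exp (-tt M * I))) * Complex.I_sq
  have hcs : ((Real.sin (tt M) : ℝ) : ℂ) ^ 2 + ((Real.cos (tt M) : ℝ) : ℂ) ^ 2 = 1 := by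
    exact_mod_cast Real.sin_sq_add_cos_sq (tt M)
  set s : ℂ := ((Real.sin (tt M) : ℝ) : ℂ) with hsd
  set c : ℂ := ((Real.cos (tt M) : ℝ) : ℂ) with hcd
  have hG : (∑ j ∈ range M, (AA M j : ℂ) * z ^ j) =
      s / 2 * ((∑ j ∈ range M, ((M:ℂ) - j) * w1 ^ j) + (∑ j ∈ range M, ((M:ℂ) - j) * w2 ^ j)) +
      c / (2 * I) * ((∑ j ∈ range M, w1 ^ j) - (∑ j ∈ range M, w2 ^ j)) := by
    rw [← Finset.sum_add_distrib, ← Finset.sum_sub_distrib, Finset.mul_sum, Finset.mul_sum,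
      ← Finset.sum_add_distrib]
    apply Finset.sum_congr rfl
    intro j _
    rw [AA_complex]
  rw [hG]
  set P1 := ∑ j ∈ range M, ((M:ℂ) - j) * w1 ^ j
  set P2 := ∑ j ∈ range M, ((M:ℂ) - j) * w2 ^ j
  set Q1 := ∑ j ∈ range M, w1 ^ j
  set Q2 := ∑ j ∈ range M, w2 ^ j
  have a1 : P1 * (1 - w1) ^ 2 = M * (1 - w1) - w1 * (1 + z ^ M) := by
    have := sum_two w1 M; rw [p1] at this; linear_combination this
  have a2 : P2 * (1 - w2) ^ 2 = M * (1 - w2) - w2 * (1 + z ^ M) := by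
    have := sum_two w2 M; rw [p2] at this; linear_combination this
  have b1 : Q1 * (1 - w1) = 1 + z ^ M := by
    have := sum_one w1 M; rw [p1] at this; linear_combination this
  have b2 : Q2 * (1 - w2) = 1 + z ^ M := by
    have := sum_one w2 M; rw [p2] at this; linear_combination this
  have hD : 1 - 2 * c * z + z ^ 2 = (1 - w1) * (1 - w2) := by
    linear_combination hsum - hprod
  have step : (s / 2 * (P1 + P2) + c / (2 * I) * (Q1 - Q2)) * ((1 - w1) * (1 - w2)) ^ 2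
      = s / 2 * (M * ((1 - w1) * (1 - w2)) * (2 - (w1 + w2)) -
        (1 + z ^ M) * ((w1 + w2) - 4 * (w1 * w2) + (w1 * w2) * (w1 + w2))) +
        c / (2 * I) * (1 + z ^ M) * ((1 - w1) * (1 - w2)) * (w1 - w2) := by
    linear_combination (s / 2 * (1 - w2) ^ 2) * a1 + (s / 2 * (1 - w1) ^ 2) * a2 +
      (c / (2 * I) * (1 - w1) * (1 - w2) ^ 2) * b1 - (c / (2 * I) * (1 - w2) * (1 - w1) ^ 2) * b2
  rw [hD, step, ← hD, hsum, hprod, hdiff]
  have hI : (2 * I : ℂ) ≠ 0 := by simp [I_ne_zero]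
  have e : c / (2 * I) * (1 + z ^ M) * (1 - 2 * c * z + z ^ 2) * (2 * I * s * z)
      = c * s * z * (1 + z ^ M) * (1 - 2 * c * z + z ^ 2) := by
    field_simp
  rw [e]
  linear_combination (-2 * s * z ^ 2 * (1 + z ^ M)) * hcs

lemma G_circle (hM : 0 < M) (y : ℝ) :
    2 * ((Real.cos (tt M) - Real.cos y : ℝ) : ℂ) ^ 2 * ((rho M y : ℂ) + (kpa M y : ℂ) * I) =
    Real.sin (tt M) * (-M * ((Real.cos (tt M) - Real.cos y : ℝ) : ℂ) *
      ((Real.cos y : ℂ) - (Real.sin y : ℂ) * I - (Real.cos (tt M) : ℂ)) +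
      Real.sin (tt M) ^ 2 * (1 + ((Real.cos (M * y) : ℝ) : ℂ) + ((Real.sin (M * y) : ℝ) : ℂ) * I)) := by
  have hG := G_identity hM (exp (y * I))
  have hpow : ∀ j : ℕ, (exp ((y:ℂ) * I)) ^ j = Real.cos (j * y) + Real.sin (j * y) * I := by
    intro j
    rw [← Complex.exp_nat_mul, Complex.ofReal_cos, Complex.ofReal_sin, ← Complex.exp_mul_I]
    congr 1; push_cast; ring
  have hsum : (∑ j ∈ range M, (AA M j : ℂ) * (exp (y * I)) ^ j) = (rho M y : ℂ) + (kpa M y : ℂ) * I := by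
    unfold rho kpa
    rw [Complex.ofReal_sum, Complex.ofReal_sum, Finset.sum_mul, ← Finset.sum_add_distrib]
    apply Finset.sum_congr rfl
    intro j _
    rw [hpow, Complex.ofReal_mul, Complex.ofReal_mul]
    ring
  rw [hsum] at hG
  have h4 : ((Real.cos y : ℝ) : ℂ) = (exp (y * I) + exp (-y * I)) / 2 := by
    rw [Complex.ofReal_cos, Complex.cos]
  have h5 : ((Real.sin y : ℝ) : ℂ) = (exp (-y * I) - exp (y * I)) * I / 2 := by
    rw [Complex.ofReal_sin, Complex.sin]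
  have h3 : exp ((y:ℂ) * I) * exp (-(y:ℂ) * I) = 1 := by
    rw [← Complex.exp_add]; simp
  have hE : exp ((y:ℂ) * I) ≠ 0 := Complex.exp_ne_zero _
  have hD : 1 - 2 * Real.cos (tt M) * exp (y * I) + exp (y * I) ^ 2 =
      -2 * ((Real.cos (tt M) - Real.cos y : ℝ) : ℂ) * exp (y * I) := by
    rw [Complex.ofReal_sub, h4]
    linear_combination -h3
  have hinv : (Real.cos y : ℂ) - (Real.sin y : ℂ) * I = exp (-y * I) := by
    rw [h4, h5]
    linear_combination (-(1/2:ℂ) * (exp (-y * I) - exp (y * I))) * Complex.I_sq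
  rw [hD, hpow M] at hG
  rw [hinv]
  have hE2 : 2 * exp ((y:ℂ) * I) ^ 2 ≠ 0 := by
    apply mul_ne_zero two_ne_zero (pow_ne_zero 2 hE)
  apply mul_left_cancel₀ hE2
  linear_combination hG + (2 * Real.sin (tt M) * M * ((Real.cos (tt M) - Real.cos y : ℝ) : ℂ) *
    exp (y * I)) * h3

lemma rho_id (hM : 0 < M) (y : ℝ) :
    2 * (Real.cos (tt M) - Real.cos y) ^ 2 * rho M y =
    Real.sin (tt M) * (M * (Real.cos (tt M) - Real.cos y) ^ 2 +
      Real.sin (tt M) ^ 2 * (1 + Real.cos (M * y))) := by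
  have h := congrArg Complex.re (G_circle hM y)
  have e1 : 2 * ((Real.cos (tt M) - Real.cos y : ℝ) : ℂ) ^ 2 * ((rho M y : ℂ) + (kpa M y : ℂ) * I)
      = ((2 * (Real.cos (tt M) - Real.cos y) ^ 2 * rho M y : ℝ) : ℂ) +
        ((2 * (Real.cos (tt M) - Real.cos y) ^ 2 * kpa M y : ℝ) : ℂ) * I := by push_cast; ring
  have e2 : Real.sin (tt M) * (-M * ((Real.cos (tt M) - Real.cos y : ℝ) : ℂ) *
      ((Real.cos y : ℂ) - (Real.sin y : ℂ) * I - (Real.cos (tt M) : ℂ)) +
      Real.sin (tt M) ^ 2 * (1 + ((Real.cos (M * y) : ℝ) : ℂ) + ((Real.sin (M * y) : ℝ) : ℂ) * I))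
      = ((Real.sin (tt M) * (M * (Real.cos (tt M) - Real.cos y) ^ 2 +
      Real.sin (tt M) ^ 2 * (1 + Real.cos (M * y))) : ℝ) : ℂ) +
      ((Real.sin (tt M) * (M * (Real.cos (tt M) - Real.cos y) * Real.sin y +
      Real.sin (tt M) ^ 2 * Real.sin (M * y)) : ℝ) : ℂ) * I := by push_cast; ring
  rw [e1, e2] at h
  simpa only [add_re, Complex.re_ofReal_mul, I_re, mul_zero, add_zero, ofReal_re] using h

lemma kpa_id (hM : 0 < M) (y : ℝ) :
    2 * (Real.cos (tt M) - Real.cos y) ^ 2 * kpa M y =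
    Real.sin (tt M) * (M * (Real.cos (tt M) - Real.cos y) * Real.sin y +
      Real.sin (tt M) ^ 2 * Real.sin (M * y)) := by
  have h := congrArg Complex.im (G_circle hM y)
  have e1 : 2 * ((Real.cos (tt M) - Real.cos y : ℝ) : ℂ) ^ 2 * ((rho M y : ℂ) + (kpa M y : ℂ) * I)
      = ((2 * (Real.cos (tt M) - Real.cos y) ^ 2 * rho M y : ℝ) : ℂ) +
        ((2 * (Real.cos (tt M) - Real.cos y) ^ 2 * kpa M y : ℝ) : ℂ) * I := by push_cast; ring
  have e2 : Real.sin (tt M) * (-M * ((Real.cos (tt M) - Real.cos y : ℝ) : ℂ) *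
      ((Real.cos y : ℂ) - (Real.sin y : ℂ) * I - (Real.cos (tt M) : ℂ)) +
      Real.sin (tt M) ^ 2 * (1 + ((Real.cos (M * y) : ℝ) : ℂ) + ((Real.sin (M * y) : ℝ) : ℂ) * I))
      = ((Real.sin (tt M) * (M * (Real.cos (tt M) - Real.cos y) ^ 2 +
      Real.sin (tt M) ^ 2 * (1 + Real.cos (M * y))) : ℝ) : ℂ) +
      ((Real.sin (tt M) * (M * (Real.cos (tt M) - Real.cos y) * Real.sin y +
      Real.sin (tt M) ^ 2 * Real.sin (M * y)) : ℝ) : ℂ) * I := by push_cast; ring
  rw [e1, e2] at h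
  simpa only [add_im, Complex.im_ofReal_mul, I_im, mul_one, zero_add, ofReal_im] using h

lemma kpa_hasDerivAt (y : ℝ) : HasDerivAt (kpa M) (k1 M y) y := by
  unfold kpa k1
  apply HasDerivAt.fun_sum
  intro j _
  have h1 : HasDerivAt (fun θ : ℝ => (j:ℝ) * θ) (j:ℝ) y := by
    simpa using (hasDerivAt_id y).const_mul (j:ℝ)
  have h2 := (h1.sin).const_mul (AA M j)
  refine h2.congr_deriv ?_
  ring

/-- closed form of `κ'`. -/
lemma k1_id (hM : 0 < M) {y : ℝ} :
    2 * (Real.cos (tt M) - Real.cos y) ^ 3 * k1 M y =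
    -(Real.sin (tt M) * (M * Real.cos (tt M) * (Real.cos (tt M) - Real.cos y) ^ 2 +
      M * Real.sin (tt M) ^ 2 * (1 - Real.cos (M * y)) * (Real.cos (tt M) - Real.cos y) +
      2 * Real.sin (tt M) ^ 2 * Real.sin y * Real.sin (M * y))) := by
  have hP : HasDerivAt (fun y => Real.cos (tt M) - Real.cos y) (Real.sin y) y := by
    have := (Real.hasDerivAt_cos y).const_sub (Real.cos (tt M))
    simpa using this
  have hMy : HasDerivAt (fun y : ℝ => (M:ℝ) * y) (M:ℝ) y := by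
    simpa using (hasDerivAt_id y).const_mul (M:ℝ)
  have hL : HasDerivAt (fun y => 2 * (Real.cos (tt M) - Real.cos y) ^ 2 * kpa M y)
      (2 * (2 * (Real.cos (tt M) - Real.cos y) * Real.sin y) * kpa M y +
        2 * (Real.cos (tt M) - Real.cos y) ^ 2 * k1 M y) y := by
    have h1 := ((hP.pow 2).const_mul 2).mul (kpa_hasDerivAt (M := M) y)
    refine (h1.congr_deriv ?_)
    simp
  have hR : HasDerivAt (fun y => Real.sin (tt M) * (M * (Real.cos (tt M) - Real.cos y) * Real.sin y +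
      Real.sin (tt M) ^ 2 * Real.sin (M * y)))
      (Real.sin (tt M) * ((M * Real.sin y * Real.sin y +
        M * (Real.cos (tt M) - Real.cos y) * Real.cos y) +
      Real.sin (tt M) ^ 2 * (Real.cos (M * y) * M))) y := by
    have h1 := ((hP.const_mul (M:ℝ)).mul (Real.hasDerivAt_sin y))
    have h2 := (hMy.sin).const_mul (Real.sin (tt M) ^ 2)
    exact (h1.add h2).const_mul _
  have hEq : (fun y => 2 * (Real.cos (tt M) - Real.cos y) ^ 2 * kpa M y) =
      (fun y => Real.sin (tt M) * (M * (Real.cos (tt M) - Real.cos y) * Real.sin y +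
      Real.sin (tt M) ^ 2 * Real.sin (M * y))) := by
    funext y; exact kpa_id hM y
  rw [hEq] at hL
  have h := hL.unique hR
  have hk := kpa_id hM y
  have hcs := Real.sin_sq_add_cos_sq y
  have hcs2 := Real.sin_sq_add_cos_sq (tt M)
  set P := Real.cos (tt M) - Real.cos y with hPd
  have hc : Real.cos y = Real.cos (tt M) - P := by rw [hPd]; ring
  have hy2 : Real.sin y ^ 2 = Real.sin (tt M) ^ 2 + P * Real.cos (tt M) + P * Real.cos y := by
    have : Real.sin y ^ 2 = 1 - Real.cos y ^ 2 := by linarith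
    rw [this, hPd]
    linear_combination -hcs2
  linear_combination P * h - 2 * Real.sin y * hk - (M * Real.sin (tt M) * P) * hy2

end

end Pool.Agent.H.MP_921603_an
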