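import Mathlib

set_option autoImplicit false

namespace Pool.Agent.H.MP_921603_an

open Real Polynomial Set

lemma poly_eq_of_cos {p r : ℝ[X]}
    (h : ∀ θ, 0 < θ → θ < π → p.eval (cos θ) = r.eval (cos θ)) : p = r := by
  apply Polynomial.eq_of_infinite_eval_eq
  apply (Set.Ioo_infinite (show (-1:ℝ) < 1 by norm_num)).mono
  intro x hx
  show p.eval x = r.eval x
  have h1 : cos (arccos x) = x := Real.cos_arccos hx.1.le hx.2.le
  rw [← h1]
  apply h
  · exact Real.arccos_pos.2 hx.2
  · apply lt_of_le_of_ne (Real.arccos_le_pi x)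
    intro h2
    rw [Real.arccos_eq_pi] at h2
    linarith [hx.1]

lemma pell {n : ℕ} {ε : ℝ} (hε : ε ^ 2 = 1) :
    (1 - C ε * Chebyshev.T ℝ (n + 1)) * (1 + C ε * Chebyshev.T ℝ (n + 1)) =
      (1 - X ^ 2) * Chebyshev.U ℝ n ^ 2 := by
  apply poly_eq_of_cos
  intro θ _ _
  have h1 := Chebyshev.T_real_cos θ ((n:ℤ) + 1)
  have h2 := Chebyshev.U_real_cos θ (n:ℤ)
  simp only [eval_mul, eval_sub, eval_add, eval_one, eval_C, eval_pow, eval_X]
  rw [h1]
  have h3 := Real.sin_sq_add_cos_sq θ
  have h4 := Real.sin_sq_add_cos_sq ((((n:ℤ) + 1 : ℤ) : ℝ) * θ)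
  have h5 : (1 - cos θ ^ 2) * (eval (cos θ) (Chebyshev.U ℝ (n:ℤ))) ^ 2 =
      sin (((n:ℤ) + 1) * θ) ^ 2 := by
    rw [← h2]; linear_combination (-(eval (cos θ) (Chebyshev.U ℝ (n:ℤ))) ^ 2) * h3
  rw [h5]
  push_cast at h4 ⊢
  linear_combination (-(cos ((n + 1) * θ)) ^ 2) * hε - h4

lemma splits_U (n : ℕ) : (Chebyshev.U ℝ n).Splits := by
  rw [splits_iff_card_roots, Chebyshev.roots_U_real, Chebyshev.natDegree_U_natCast]
  rw [Finset.card_val, Finset.card_image_of_injOn, Finset.card_range]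
  exact (Finset.range n).nodup_map_iff_injOn.mp (Chebyshev.roots_U_real_nodup n)

lemma U_ne_zero' (n : ℕ) : Chebyshev.U ℝ n ≠ 0 := by
  apply Chebyshev.U_ne_zero
  omega

lemma one_sub_X_sq_splits : (1 - X ^ 2 : ℝ[X]).Splits := by
  have : (1 - X ^ 2 : ℝ[X]) = (C (-1) * X + C 1) * (C 1 * X + C 1) := by
    simp only [C_neg, C_1]; ring
  rw [this]
  exact (Splits.of_natDegree_le_one natDegree_linear_le).mul
    (Splits.of_natDegree_le_one natDegree_linear_le)

lemma one_sub_X_sq_ne_zero : (1 - X ^ 2 : ℝ[X]) ≠ 0 := by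
  intro h
  have := congrArg (Polynomial.eval 0) h
  simp at this

lemma splits_T {n : ℕ} {ε : ℝ} (hε : ε ^ 2 = 1) :
    (1 + C ε * Chebyshev.T ℝ (n + 1)).Splits ∧ (1 + C ε * Chebyshev.T ℝ (n + 1)) ≠ 0 := by
  have h := pell (n := n) hε
  have hne : (1 - X ^ 2) * Chebyshev.U ℝ n ^ 2 ≠ (0 : ℝ[X]) :=
    mul_ne_zero one_sub_X_sq_ne_zero (pow_ne_zero 2 (U_ne_zero' n))
  have hs : ((1 - X ^ 2) * Chebyshev.U ℝ n ^ 2 : ℝ[X]).Splits :=
    one_sub_X_sq_splits.mul ((splits_U n).pow 2)
  constructor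
  · apply hs.of_dvd hne
    rw [← h]
    exact Dvd.intro_left _ rfl
  · intro h0
    rw [h0, mul_zero] at h
    exact hne h.symm

/-- monotonicity of the logarithmic derivative. -/
lemma log_deriv_anti {W : ℝ[X]} (hW : W.Splits) {l r : ℝ}
    (hne : ∀ c ∈ Ioo l r, W.eval c ≠ 0) {c c' : ℝ} (hc : c ∈ Ioo l r) (hc' : c' ∈ Ioo l r)
    (hcc : c ≤ c') :
    W.derivative.eval c' / W.eval c' ≤ W.derivative.eval c / W.eval c := by
  rw [hW.eval_derivative_div_eval_of_ne_zero (hne c hc),
    hW.eval_derivative_div_eval_of_ne_zero (hne c' hc')]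
  apply Multiset.sum_map_le_sum_map
  intro z hz
  have hz' : z ∉ Ioo l r := by
    intro h
    apply hne z h
    exact (Polynomial.isRoot_of_mem_roots hz)
  rcases le_or_gt z l with h | h
  · have h1 : 0 < c - z := by linarith [hc.1]
    exact one_div_le_one_div_of_le h1 (by linarith)
  · have h2 : r ≤ z := by
      by_contra hcon
      push Not at hcon
      exact hz' ⟨h, hcon⟩
    have h1 : c' - z < 0 := by linarith [hc'.2]
    exact one_div_le_one_div_of_neg_of_le h1 (by linarith)

/-- A real-rooted polynomial that is positive between two consecutive zeros is unimodal. -/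
lemma unimodal {W : ℝ[X]} (hW : W.Splits) {l r : ℝ} (hlr : l < r)
    (hpos : ∀ c ∈ Ioo l r, 0 < W.eval c) (hl : W.eval l = 0) (hr : W.eval r = 0) :
    ∃ c0 ∈ Ioo l r, (∀ c ∈ Ioo l r, c ≤ c0 → 0 ≤ W.derivative.eval c) ∧
      (∀ c ∈ Ioo l r, c0 ≤ c → W.derivative.eval c ≤ 0) := by
  obtain ⟨c0, hc0, hd⟩ := exists_hasDerivAt_eq_zero hlr
    (W.continuous.continuousOn : ContinuousOn (fun x => W.eval x) (Icc l r))
    (by simp only [hl, hr]) (fun x _ => W.hasDerivAt x)
  have hne : ∀ c ∈ Ioo l r, W.eval c ≠ 0 := fun c hc => (hpos c hc).ne'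
  refine ⟨c0, hc0, ?_, ?_⟩
  · intro c hc hcc
    have h := log_deriv_anti hW hne hc hc0 hcc
    rw [hd, zero_div] at h
    by_contra hcon
    push Not at hcon
    have := div_neg_of_neg_of_pos hcon (hpos c hc)
    linarith
  · intro c hc hcc
    have h := log_deriv_anti hW hne hc0 hc hcc
    rw [hd, zero_div] at h
    by_contra hcon
    push Not at hcon
    have := div_pos hcon (hpos c hc)
    linarith

/-- third order vanishing. -/
lemma triple_root {R : ℝ[X]} {c : ℝ} (h : (X - C c) ^ 3 ∣ R) :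
    R.eval c = 0 ∧ R.derivative.eval c = 0 ∧ (derivative (derivative R)).eval c = 0 := by
  obtain ⟨k, rfl⟩ := h
  refine ⟨by simp, ?_, ?_⟩
  · simp [derivative_mul, derivative_pow]
  · simp [derivative_mul, derivative_pow]

lemma no_triple {n : ℕ} (hn : 0 < n) {ε a b κ c : ℝ} (hκ : κ ≠ 0) (hbc : b - a * c ≠ 0)
    (hε : ε ≠ 0) (hT : (Chebyshev.T ℝ n).eval c ≠ 0)
    (h : (X - C c) ^ 3 ∣ C κ * ((C b - C a * X) * (1 + C ε * Chebyshev.T ℝ n))) : False := by
  obtain ⟨h0, h1, h2⟩ := triple_root h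
  set p : ℝ[X] := 1 + C ε * Chebyshev.T ℝ n with hp
  simp only [eval_mul, eval_sub, eval_C, eval_X] at h0
  have p0 : p.eval c = 0 := by
    rcases mul_eq_zero.1 h0 with h | h
    · exact absurd h hκ
    · rcases mul_eq_zero.1 h with h | h
      · exact absurd h hbc
      · exact h
  have e1 : derivative (C κ * ((C b - C a * X) * p)) =
      C κ * (-C a * p + (C b - C a * X) * derivative p) := by
    simp only [derivative_mul, derivative_sub, derivative_C, derivative_X]
    ring
  rw [e1] at h1 h2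
  simp only [eval_mul, eval_sub, eval_C, eval_X, eval_add, eval_neg, p0, mul_zero, zero_add] at h1
  have p1 : (derivative p).eval c = 0 := by
    rcases mul_eq_zero.1 h1 with h | h
    · exact absurd h hκ
    · rcases mul_eq_zero.1 h with h | h
      · exact absurd h hbc
      · exact h
  have e2 : derivative (C κ * (-C a * p + (C b - C a * X) * derivative p)) =
      C κ * (-2 * C a * derivative p + (C b - C a * X) * derivative (derivative p)) := by
    simp only [derivative_mul, derivative_sub, derivative_C, derivative_X, derivative_add,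
      derivative_neg]
    ring
  rw [e2] at h2
  simp only [eval_mul, eval_sub, eval_C, eval_X, eval_add, eval_neg, p1, mul_zero, zero_add] at h2
  have p2 : (derivative (derivative p)).eval c = 0 := by
    rcases mul_eq_zero.1 h2 with h | h
    · exact absurd h hκ
    · rcases mul_eq_zero.1 h with h | h
      · exact absurd h hbc
      · exact h
  have d1 : derivative p = C ε * derivative (Chebyshev.T ℝ n) := by
    rw [hp]; simp [derivative_mul]
  have d2 : derivative (derivative p) = C ε * derivative (derivative (Chebyshev.T ℝ n)) := by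
    rw [d1]; simp [derivative_mul]
  rw [d1, eval_mul, eval_C] at p1
  rw [d2, eval_mul, eval_C] at p2
  have q1 : (derivative (Chebyshev.T ℝ n)).eval c = 0 := (mul_eq_zero.1 p1).resolve_left hε
  have q2 : (derivative (derivative (Chebyshev.T ℝ n))).eval c = 0 :=
    (mul_eq_zero.1 p2).resolve_left hε
  have ode := congrArg (Polynomial.eval c)
    (Chebyshev.one_sub_X_sq_mul_derivative_derivative_T_eq_poly_in_T (R := ℝ) (n:ℤ))
  rw [Function.iterate_succ, Function.iterate_one, Function.comp_apply] at ode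
  rw [eval_mul, q2, mul_zero, eval_sub, eval_mul, q1, mul_zero, zero_sub, eval_mul] at ode
  have hn2 : (((n:ℤ) : ℝ[X]) ^ 2).eval c = (n:ℝ) ^ 2 := by simp
  rw [hn2] at ode
  have hnr : (n:ℝ) ^ 2 ≠ 0 := by positivity
  have := neg_eq_zero.1 ode.symm
  rcases mul_eq_zero.1 this with h | h
  · exact hnr h
  · exact hT h

end Pool.Agent.H.MP_921603_an
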